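import Pool.Agent.H463.QE.InfX

/-!
# The isomorphism of the rings
-/

set_option autoImplicit false
set_option linter.unusedSectionVars false

open NumberField IsDedekindDomain

namespace Pool.Agent.H463.QE

open WithZero WeierstrassCurve
open Pool.Agent.R426.QC Pool.Agent.R426.QD
open Pool.Agent.Y698 Pool.Agent.Y698.SG

variable {K : Type} [Field K] [NumberField K]

/-- the isomorphism of the rings -/
lemma exists_e (hK : Module.finrank ℚ K = 2) {a : 𝓞 K} (ha : a ^ 2 = a - 2) :
    ∃ e : RR ≃+* 𝓞 K, e aR = a ∧ ∀ x, em e x = ((e x : 𝓞 K) : K) := by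
  have ha' : (a : K) ^ 2 = (a : K) - 2 := by
    have := congrArg (algebraMap (𝓞 K) K) ha
    rwa [map_pow, map_sub, map_ofNat] at this
  obtain ⟨e, he⟩ := exists_iso ha' hK
  refine ⟨e, ?_, fun x => rfl⟩
  apply RingOfIntegers.ext
  exact (he aR).trans (ev_aR _ ha')


end Pool.Agent.H463.QE
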