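import Pool.Agent.H463.QE.InfX
import Pool.Agent.H463.QE.ExX

/-!
# The final form in the ring of integers
-/

set_option autoImplicit false
set_option linter.unusedSectionVars false

attribute [-instance] DivisionRing.toRatAlgebra

open NumberField IsDedekindDomain

namespace Pool.Agent.H463.QE

open WithZero WeierstrassCurve
open Pool.Agent.R426.QC Pool.Agent.R426.QD
open Pool.Agent.Y698 Pool.Agent.Y698.SG
open Pool.Agent.W192.HK (sp)

variable {K : Type} [Field K] [NumberField K]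

variable (e : RR ≃+* 𝓞 K) {a : 𝓞 K}

lemma sqf_tr (hea : e aR = a) {J : RR} (h : Squarefree ((2 * a - 1) * (1 + 4 * e J))) :
    Squarefree (fR * (1 + 4 * J)) := by
  intro x hx
  have h1 : e x * e x ∣ (2 * a - 1) * (1 + 4 * e J) := by
    have h2 : (2 * a - 1) * (1 + 4 * e J) = e (fR * (1 + 4 * J)) := by
      rw [← hea]
      unfold fR
      simp only [map_mul, map_sub, map_add, map_one, map_ofNat]
    rw [h2, ← map_mul]
    exact (map_dvd_iff e).2 hx
  have h3 := h _ h1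
  exact (MulEquiv.isUnit_map e.toMulEquiv).1 h3

lemma sqf_tr' (hea : e aR = a) {J : RR} (h : Squarefree (fR * (1 + 4 * J))) :
    Squarefree ((2 * a - 1) * (1 + 4 * e J)) := by
  intro x hx
  obtain ⟨x, rfl⟩ := e.surjective x
  have h1 : x * x ∣ fR * (1 + 4 * J) := by
    have h2 : (2 * a - 1) * (1 + 4 * e J) = e (fR * (1 + 4 * J)) := by
      rw [← hea]
      unfold fR
      simp only [map_mul, map_sub, map_add, map_one, map_ofNat]
    rw [h2, ← map_mul] at hx
    exact (map_dvd_iff e).1 hx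
  exact (MulEquiv.isUnit_map e.toMulEquiv).2 (h _ h1)

open scoped Classical in
/-- **the final form** -/
theorem finalX (hea : e aR = a) {J : RR} (hsq : Squarefree ((2 * a - 1) * (1 + 4 * e J))) :
    (∃! P : Finset (𝓞 K), IsP a (1 + 4 * e J) P) ∧
    (∀ P : Finset (𝓞 K), IsP a (1 + 4 * e J) P →
      ((Finite (EX K (em e J)).toAffine.Point ∧
        ∀ (n : ℕ) (x : Pool.Agent.TH841.NF.D.Sha (EX K (em e J))), 2 ^ n • x = 0 → x = 0) ↔
        (MP P).det ≠ 0)) ∧
    ∃ L : ℂ → ℂ, Differentiable ℂ L ∧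
      (∀ s : ℂ, 3 / 2 < s.re →
        LSeriesSummable ((fun n : ℤ => (n : ℂ)) ∘ (EX K (em e J)).LFunction) s ∧
          L s = (EX K (em e J)).LSeries s) ∧
      ∀ (σ : K →+* ℂ) (Λ : PeriodPair), Λ.g₂ = σ (EX K (em e J)).c₄ / 12 →
        Λ.g₃ = σ (EX K (em e J)).c₆ / 216 →
        ∀ (Γ : Type) [LinearOrderedCommGroupWithZero Γ] (w : Valuation ℂ Γ), w 2 < 1 →
          w (L 1 * (Real.sqrt |(discr K : ℝ)| : ℝ) *
            (Nat.card (AddCommGroup.torsion (EX K (em e J)).toAffine.Point) : ℂ) ^ 2 /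
            (((2 * |((starRingEnd ℂ) Λ.ω₁ * Λ.ω₂).im| : ℝ) : ℂ) *
              ((∏ᶠ v, cE e (1 + 4 * J) v : ℕ) : ℂ))) ≤ 1 ∧
          (w (L 1 * (Real.sqrt |(discr K : ℝ)| : ℝ) *
            (Nat.card (AddCommGroup.torsion (EX K (em e J)).toAffine.Point) : ℂ) ^ 2 /
            (((2 * |((starRingEnd ℂ) Λ.ω₁ * Λ.ω₂).im| : ℝ) : ℂ) *
              ((∏ᶠ v, cE e (1 + 4 * J) v : ℕ) : ℂ))) = 1 ↔
                (Finite (EX K (em e J)).toAffine.Point ∧
                  ∀ (n : ℕ) (x : Pool.Agent.TH841.NF.D.Sha (EX K (em e J))),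
                    2 ^ n • x = 0 → x = 0)) := by
  have hsq' := sqf_tr e hea hsq
  obtain ⟨S, hf, hD⟩ := exists_fs hsq' rfl
  have hDe : 1 + 4 * e J = e (1 + 4 * J) := by
    rw [map_add, map_one, map_mul, map_ofNat]
  obtain ⟨h1, L, h2, h3, h4⟩ := fullX e hsq' rfl hf hD
  refine ⟨?_, fun P hP => ?_, L, h2, h3, fun σ Λ h5 h6 Γ _ w hw => ?_⟩
  · rw [hDe, ← hea]
    exact exists_IsP e hf hD
  · rw [hDe, ← hea] at hP
    rw [det_MP e hf hD hP]
    exact h1.symm
  · obtain ⟨h7, h8⟩ := h4 σ Λ h5 h6 Γ w hw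
    exact ⟨h7, h8.trans h1⟩

open scoped Classical in
/-- the Tamagawa numbers -/
theorem tamX (hea : e aR = a) {J : RR} (hsq : Squarefree ((2 * a - 1) * (1 + 4 * e J))) :
    (∀ v : HeightOneSpectrum (𝓞 K),
      ((EX K (em e J)).baseChange (v.adicCompletion K)).IsMinimal (v.adicCompletionIntegers K) ∧
      ∃ H : AddSubgroup ((EX K (em e J)).baseChange (v.adicCompletion K)).toAffine.Point,
        (∀ P, P ∈ H ↔ Pool.Agent.Y696.NonsingRed Valued.v
          ((EX K (em e J)).baseChange (v.adicCompletion K)) P) ∧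
        H.index = cE e (1 + 4 * J) v) ∧ {v | cE e (1 + 4 * J) v ≠ 1}.Finite := by
  have hsq' := sqf_tr e hea hsq
  obtain ⟨S, hf, hD⟩ := exists_fs hsq' rfl
  refine ⟨fun v => ⟨minE e hsq' rfl v, tamE e hsq' rfl v⟩, ?_⟩
  have h1 := (cE_prodX e hf).1
  rw [← hD] at h1
  exact h1

/-- the lattice of periods -/
theorem perX (hea : e aR = a) {J : RR} (hsq : Squarefree ((2 * a - 1) * (1 + 4 * e J)))
    (σ : K →+* ℂ) : ∃ Λ : PeriodPair, Λ.g₂ = σ (EX K (em e J)).c₄ / 12 ∧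
      Λ.g₃ = σ (EX K (em e J)).c₆ / 216 := by
  have hsq' := sqf_tr e hea hsq
  have hD0 : (1 : RR) + 4 * J ≠ 0 := fun h => hsq'.ne_zero (by rw [h, mul_zero])
  have h0 : σ (em e (1 + 4 * J)) ≠ 0 := by
    rw [Ne, map_eq_zero]
    exact em_ne e hD0
  obtain ⟨i4, i6⟩ := inv_EX e σ (J := J) rfl
  rw [i4, i6]
  exact per7_ex h0

/-- there is a place above two -/
lemma exists_two : ∃ B : ValuationSubring ℂ, B.valuation (2 : ℂ) < 1 := by
  have hp : (sp aR).IsPrime := (Ideal.span_singleton_prime prime_aR.ne_zero).2 prime_aR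
  obtain ⟨B, hB⟩ := exists_vs (sp aR)
  refine ⟨B, ?_⟩
  have h1 : (2 : RR) ∈ sp aR := Ideal.mem_span_singleton.2 ⟨cj aR, R426.QC.two_eq⟩
  exact hB 2 h1

open scoped Classical in
/-- the central value does not vanish -/
theorem ne_zeroX (hea : e aR = a) {J : RR} (hsq : Squarefree ((2 * a - 1) * (1 + 4 * e J)))
    {L : ℂ → ℂ}
    (h : ∀ (σ : K →+* ℂ) (Λ : PeriodPair), Λ.g₂ = σ (EX K (em e J)).c₄ / 12 →
        Λ.g₃ = σ (EX K (em e J)).c₆ / 216 →
        ∀ (Γ : Type) [LinearOrderedCommGroupWithZero Γ] (w : Valuation ℂ Γ), w 2 < 1 →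
          w (L 1 * (Real.sqrt |(discr K : ℝ)| : ℝ) *
            (Nat.card (AddCommGroup.torsion (EX K (em e J)).toAffine.Point) : ℂ) ^ 2 /
            (((2 * |((starRingEnd ℂ) Λ.ω₁ * Λ.ω₂).im| : ℝ) : ℂ) *
              ((∏ᶠ v, cE e (1 + 4 * J) v : ℕ) : ℂ))) ≤ 1 ∧
          (w (L 1 * (Real.sqrt |(discr K : ℝ)| : ℝ) *
            (Nat.card (AddCommGroup.torsion (EX K (em e J)).toAffine.Point) : ℂ) ^ 2 /
            (((2 * |((starRingEnd ℂ) Λ.ω₁ * Λ.ω₂).im| : ℝ) : ℂ) *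
              ((∏ᶠ v, cE e (1 + 4 * J) v : ℕ) : ℂ))) = 1 ↔
                (Finite (EX K (em e J)).toAffine.Point ∧
                  ∀ (n : ℕ) (x : Pool.Agent.TH841.NF.D.Sha (EX K (em e J))),
                    2 ^ n • x = 0 → x = 0)))
    (hN : Finite (EX K (em e J)).toAffine.Point ∧
      ∀ (n : ℕ) (x : Pool.Agent.TH841.NF.D.Sha (EX K (em e J))), 2 ^ n • x = 0 → x = 0) :
    L 1 ≠ 0 := by
  intro h0
  obtain ⟨σ⟩ : Nonempty (K →+* ℂ) := inferInstance
  obtain ⟨Λ, h1, h2⟩ := perX e hea hsq σ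
  obtain ⟨B, hB⟩ := exists_two
  have h3 := (h σ Λ h1 h2 _ B.valuation hB).2.2 hN
  rw [h0, zero_mul, zero_mul, zero_div, map_zero] at h3
  exact zero_ne_one h3

open scoped Classical in
/-- infinitely many parameters -/
theorem infX (hea : e aR = a) (k : ℕ) (hk : 1 ≤ k) :
    {J : 𝓞 K | Squarefree ((2 * a - 1) * (1 + 4 * J)) ∧
      ∃ P : Finset (𝓞 K), IsP a (1 + 4 * J) P ∧ P.card = k + 1 ∧
        (MP P).det ≠ 0}.Infinite := by
  have h1 := (inf_X k hk).image (e.injective.injOn (s := _))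
  refine h1.mono ?_
  rintro _ ⟨J, ⟨S, hS, hf, hD, hg⟩, rfl⟩
  have hsq : Squarefree (fR * (1 + 4 * J)) := by
    rw [hD]
    exact hf.sqf7
  have hDe : 1 + 4 * e J = e (1 + 4 * J) := by
    rw [map_add, map_one, map_mul, map_ofNat]
  refine ⟨sqf_tr' e hea hsq, ?_⟩
  obtain ⟨P, hP, -⟩ := exists_IsP e hf hD
  refine ⟨P, ?_, ?_, ?_⟩
  · rw [hDe, ← hea]
    exact hP
  · have hP2 : P = (insert (-fR) S).image e := by
      obtain ⟨P', hP', hu⟩ := exists_IsP e hf hD
      have h2 : IsP (e aR) (e (1 + 4 * J)) ((insert (-fR) S).image e) := by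
        intro p
        obtain ⟨q, rfl⟩ := e.surjective p
        have h1 : (2 * e aR - 1) * e (1 + 4 * J) = e ((2 * aR - 1) * (1 + 4 * J)) := by
          rw [map_mul, map_sub, map_mul, map_one, map_ofNat]
        have h2 : e aR ^ 2 = e (aR ^ 2) := (map_pow e _ _).symm
        have h3 : e q - 1 = e (q - 1) := by rw [map_sub, map_one]
        rw [h1, h2, h3, map_dvd_iff e, map_dvd_iff e]
        have h4 : e q ∈ (insert (-fR) S).image e ↔ (q = -fR ∨ q ∈ S) := by
          rw [Finset.mem_image]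
          constructor
          · rintro ⟨x, hx, hxq⟩
            rw [← e.injective hxq]
            exact Finset.mem_insert.1 hx
          · intro h
            exact ⟨q, Finset.mem_insert.2 h, rfl⟩
        rw [h4, mem_ins hf hD]
        exact and_congr_left fun _ => (MulEquiv.prime_iff e.toMulEquiv).symm
      rw [hu P hP, hu _ h2]
    have hnf : (-fR : RR) ∉ S := by
      intro h
      apply hf.h7 _ h
      rw [neg_mem_iff]
      exact Ideal.mem_span_singleton_self _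
    rw [hP2, Finset.card_image_of_injective _ e.injective, Finset.card_insert_of_notMem hnf, hS]
  · rw [det_MP e hf hD hP]
    exact hg

end Pool.Agent.H463.QE
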