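import Pool.Graph.R_seed8.R426.QC.Lser
import Pool.Agent.H463.QE.VzX

/-!
# The `L`-series of the twists over `ℚ(√-7)`, general twists
-/

set_option autoImplicit false
set_option linter.unusedSectionVars false

attribute [-instance] DivisionRing.toRatAlgebra

open NumberField IsDedekindDomain

namespace Pool.Agent.H463.QE

open scoped Classical
open WeierstrassCurve WithZero
open Pool.Agent.R426.QC Pool.Agent.R426.QD
open Pool.Agent.Y698 Pool.Agent.Y698.SG
open Pool.Agent.W192.HK (sp HC)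
open Pool.Agent.W189.NF (aV eV redMap Ov mem_max_iff finite_res card_res redMap_eq_zero aLoc eLoc
  redMap_surjective)
open Pool.Agent.Y696 (HBd LSeries_hasProd')
open Pool.Agent.Y715.Z (not_good_of_min min_addj coe_comp' isUnit_of_notMem' val_lt_of_mem
  val_int_le)

variable {K : Type} [Field K] [NumberField K] (e : RR ≃+* 𝓞 K)

/-- the local factors at the good places -/
theorem locGX {ι : Type} {S : Finset ι} {π : ι → RR} (hπ : ∀ i ∈ S, Pn (π i))
    (ht : ∑ i ∈ S, tp (π i) = 0) {J : RR}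
    (hJ : ∏ i ∈ S, π i = 1 + 4 * J) {z : RR} (hz : Prime z) (hg : ¬ z ∣ fR * ∏ i ∈ S, π i) :
    ((aV (EX K (em e J)) (plc e hz) : ℤ) : ℂ) =
      (∏ i ∈ S, sy (π i) z) * (e7 z * ((z : ℂ) + (starRingEnd ℂ) (z : ℂ))) ∧
    ((eV (EX K (em e J)) (plc e hz) : ℤ) : ℂ) = (z : ℂ) * (starRingEnd ℂ) (z : ℂ) ∧
    ((Pool.Agent.H921R2.TatePole.nm (plc e hz) : ℕ) : ℂ) = (z : ℂ) * (starRingEnd ℂ) (z : ℂ) ∧
    Pool.Agent.H921R2.TatePole.nm (plc e hz) = (nR z).natAbs := by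
  set v := plc e hz with hv
  have hfin := finite_res v
  have hN1 : Pool.Agent.H921R2.TatePole.nm v = (nR z).natAbs := by
    have h1 : (Nat.card (𝓞 K ⧸ v.asIdeal) : ℤ) = nR z := card_plc e hz
    have h2 : Pool.Agent.H921R2.TatePole.nm v = Nat.card (𝓞 K ⧸ v.asIdeal) := rfl
    omega
  have hcast : ((nR z : ℤ) : ℂ) = (z : ℂ) * (starRingEnd ℂ) (z : ℂ) := by
    have h1 := mul_cj z
    have h2 := congrArg (fun x : RR => (x : ℂ)) h1
    push_cast at h2
    rw [cj_coe] at h2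
    rw [h2]
  have hnm : ((Pool.Agent.H921R2.TatePole.nm v : ℕ) : ℂ) = (z : ℂ) * (starRingEnd ℂ) (z : ℂ) := by
    rw [← hcast, hN1]
    have h1 := Int.natAbs_of_nonneg (nR_nonneg z)
    have h2 := congrArg (fun n : ℤ => (n : ℂ)) h1
    exact (Int.cast_natCast _).symm.trans h2
  have hunit : IsUnit (EX (Ov v) (algebraMap (𝓞 K) (Ov v) (e J))).Δ := by
    have h0 : e ((fR * ∏ i ∈ S, π i) ^ 6) ∉ v.asIdeal := fun h =>
      hg (hz.dvd_of_dvd_pow ((plc_mem e hz _).1 h))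
    have h3 := isUnit_of_notMem' h0
    have e1 : (EX (Ov v) (algebraMap (𝓞 K) (Ov v) (e J))).Δ =
        algebraMap (𝓞 K) (Ov v) (e ((fR * ∏ i ∈ S, π i) ^ 6)) := by
      rw [EX_Δ]
      have e3 : (fR ^ 6 : RR) = -343 := by
        have := fR_sq
        linear_combination (fR ^ 4 - 7 * fR ^ 2 + 49) * this
      rw [mul_pow, e3, hJ]
      simp only [map_mul, map_pow, map_neg, map_add, map_one, map_ofNat]
    rw [e1]
    exact h3
  obtain ⟨c1, c2⟩ := min_count (v.adicCompletionIntegers K) hunit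
    (W := (EX K (em e J)).baseChange (v.adicCompletion K)) (EX_int e v J)
  rw [EX_map] at c1
  have h7 : ¬ z ∣ 7 := fun h => hg ((dvd_fR hz h).mul_right _)
  have hk : (Nat.card (IsLocalRing.ResidueField (Ov v)) : ℤ) = nR z := by
    rw [card_res]
    have := Int.natAbs_of_nonneg (nR_nonneg z)
    rw [hN1]
    exact this
  have hne : ∀ i ∈ S, π i ∉ sp z := fun i hi h => by
    rw [Ideal.mem_span_singleton] at h
    exact hg ((h.trans (Finset.dvd_prod_of_mem π hi)).mul_left _)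
  have htr := Pool.Agent.R426.QD.trace_D (IsLocalRing.ResidueField (Ov v)) hz h7 hk
    ((redMap v).comp (e : RR →+* 𝓞 K)) ((redMap_surjective v).comp e.surjective)
    (fun x => by
      show redMap v (e x) = 0 ↔ _
      rw [redMap_eq_zero, plc_mem, Ideal.mem_span_singleton]) hπ ht hne hJ
  refine ⟨?_, ?_, hnm, hN1⟩
  · rw [← cj_coe, ← htr]
    congr 1
  · have h5 : eV (EX K (em e J)) v = (nR z : ℤ) := by
      rw [← hk]
      exact c2
    rw [h5, hcast]

/-- the signs -/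
lemma sgn_sqX {ι : Type} {S : Finset ι} {π : ι → RR} (hπ : ∀ i ∈ S, Pn (π i)) {z : RR}
    (hz : Prime z) (hg : ¬ z ∣ fR * ∏ i ∈ S, π i) :
    (∏ i ∈ S, sy (π i) z) ^ 2 = 1 ∧ e7 z ^ 2 = 1 := by
  constructor
  · rw [← Finset.prod_pow]
    refine Finset.prod_eq_one fun i hi => ?_
    have h1 : z ∉ sp (π i) := by
      intro h
      rw [Ideal.mem_span_singleton] at h
      have h2 := ((hπ i hi).pr.associated_of_dvd hz h).symm.dvd
      exact hg ((h2.trans (Finset.dvd_prod_of_mem π hi)).mul_left _)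
    rcases sy_sgn h1 with h2 | h2 <;> rw [h2] <;> norm_num
  · refine e7_sq fun h => ?_
    rw [Ideal.mem_span_singleton] at h
    exact hg (((Pool.Agent.R426.QC.prime_fR.associated_of_dvd hz h).symm.dvd).mul_right _)

/-- the bounds for the local factors -/
theorem hbdEX {ι : Type} {S : Finset ι} {π : ι → RR} (hπ : ∀ i ∈ S, Pn (π i))
    (ht : ∑ i ∈ S, tp (π i) = 0)
    (hsq : Squarefree (fR * ∏ i ∈ S, π i)) {J : RR} (hJ : ∏ i ∈ S, π i = 1 + 4 * J)
    (v : HeightOneSpectrum (𝓞 K)) :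
    HBd (aV (EX K (em e J)) v) (eV (EX K (em e J)) v) (Pool.Agent.H921R2.TatePole.nm v) := by
  obtain ⟨z, hz, rfl⟩ := exists_plc e v
  by_cases hb : z ∣ fR * ∏ i ∈ S, π i
  · exact Or.inl (locB e hsq hJ hz hb)
  · obtain ⟨g1, g2, g3, -⟩ := locGX e hπ ht hJ hz hb
    obtain ⟨q1, q2⟩ := sgn_sqX hπ hz hb
    refine Or.inr ⟨(∏ i ∈ S, sy (π i) z) * e7 z * (z : ℂ), ?_, ?_, ?_⟩
    · rw [g1, map_mul, map_mul, sgn_conj, e7_conj q2]
      ring
    · rw [g2, map_mul, map_mul, sgn_conj, e7_conj q2]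
      linear_combination (-((z : ℂ) * (starRingEnd ℂ) (z : ℂ)) * e7 z ^ 2) * q1 -
        ((z : ℂ) * (starRingEnd ℂ) (z : ℂ)) * q2
    · rw [g3, map_mul, map_mul, sgn_conj, e7_conj q2]
      linear_combination (((z : ℂ) * (starRingEnd ℂ) (z : ℂ)) * e7 z ^ 2) * q1 +
        ((z : ℂ) * (starRingEnd ℂ) (z : ℂ)) * q2

/-- **the `L`-series** -/
theorem lserEX {ι : Type} {S : Finset ι} {π : ι → RR} (hS : FaE S π)
    (hsq : Squarefree (fR * ∏ i ∈ S, π i)) {J : RR} (hJ : ∏ i ∈ S, π i = 1 + 4 * J) {F : ℂ → ℂ}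
    (hF : ∀ z : ℂ, 3 / 2 < z.re → HasSum (fun I : Ideal RR =>
      psi I * (∏ i ∈ S, Xs (π i) I) * (Pool.Agent.W192.HK.nm I : ℂ) ^ (-z)) (F z)) {s : ℂ}
    (hs : 3 / 2 < s.re) :
    LSeriesSummable ((fun n : ℤ => (n : ℂ)) ∘ (EX K (em e J)).LFunction) s ∧
      F s * (starRingEnd ℂ) (F ((starRingEnd ℂ) s)) = (EX K (em e J)).LSeries s := by
  have hπ : ∀ i ∈ S, Pn (π i) := hS.fa.pn
  obtain ⟨h1, h2⟩ := LSeries_hasProd' (EX K (em e J)) (fun v => hbdEX e hπ hS.even hsq hJ v) hs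
  refine ⟨h1, ?_⟩
  have hs' : 3 / 2 < ((starRingEnd ℂ) s).re := by rw [Complex.conj_re]; exact hs
  have hP : ∀ z : ℂ, 3 / 2 < z.re → HasProd (fun v : HeightOneSpectrum (𝓞 K) =>
      (1 - fz S π z (Ideal.map (e.symm : 𝓞 K →+* RR) v.asIdeal))⁻¹) (F z) := by
    intro z hz
    have h3 := hF z hz
    have h4 := (fz_cmX hS (z := z) h3.summable).trans e
    have h5 := hasProdI h4.1
    rw [h4.2] at h5
    have h6 : ∑' I : Ideal RR, fz S π z I = F z := h3.tsum_eq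
    rw [h6] at h5
    exact h5
  have h3 := (hP s hs).mul ((hP _ hs').map (starRingEnd ℂ) Complex.continuous_conj)
  refine HasProd.unique (h3.congr_fun fun v => ?_) h2
  obtain ⟨z, hz, rfl⟩ := exists_plc e v
  have hmap : Ideal.map (e.symm : 𝓞 K →+* RR) (plc e hz : HeightOneSpectrum (𝓞 K)).asIdeal =
      sp z := by
    have h4 : (plc e hz : HeightOneSpectrum (𝓞 K)).asIdeal = Ideal.span {e z} := rfl
    rw [h4, Ideal.map_span, Set.image_singleton]
    congr 2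
    exact e.symm_apply_apply z
  show (1 - (aV (EX K (em e J)) (plc e hz) : ℂ) *
      (Pool.Agent.H921R2.TatePole.nm (plc e hz) : ℂ) ^ (-s) +
      (eV (EX K (em e J)) (plc e hz) : ℂ) *
        ((Pool.Agent.H921R2.TatePole.nm (plc e hz) : ℂ) ^ (-s)) ^ 2)⁻¹ =
    (1 - fz S π s (Ideal.map (e.symm : 𝓞 K →+* RR) (plc e hz).asIdeal))⁻¹ *
      (starRingEnd ℂ) ((1 - fz S π ((starRingEnd ℂ) s)
        (Ideal.map (e.symm : 𝓞 K →+* RR) (plc e hz).asIdeal))⁻¹)
  rw [hmap, map_inv₀, map_sub, map_one, ← mul_inv, fz_spX hS, fz_spX hS]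
  have hcp : (starRingEnd ℂ) ((((nR z).natAbs : ℕ) : ℂ) ^ (-((starRingEnd ℂ) s))) =
      (((nR z).natAbs : ℕ) : ℂ) ^ (-s) := by
    have h1 := Complex.cpow_conj (((nR z).natAbs : ℕ) : ℂ) (-((starRingEnd ℂ) s)) (by
      rw [Complex.natCast_arg]
      exact Real.pi_pos.ne)
    rw [map_natCast, map_neg, Complex.conj_conj] at h1
    exact h1.symm
  by_cases hb : z ∣ fR * ∏ i ∈ S, π i
  · obtain ⟨a0, e0⟩ := locB e hsq hJ hz hb
    have hzero : e7 z * z * (∏ i ∈ S, sy (π i) z) = 0 := by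
      rcases hz.dvd_or_dvd hb with h | h
      · have h4 : z ∈ sp fR := by
          rw [Ideal.mem_span_singleton]
          exact (hz.associated_of_dvd Pool.Agent.R426.QC.prime_fR h).symm.dvd
        rw [e7_eq_zero.2 h4, zero_mul, zero_mul]
      · obtain ⟨i, hi, hzi⟩ := (hz.dvd_finsetProd_iff _).1 h
        have h4 : z ∈ sp (π i) := by
          rw [Ideal.mem_span_singleton]
          exact (hz.associated_of_dvd (hπ i hi).pr hzi).symm.dvd
        have h5 : sy (π i) z = 0 := by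
          rcases sy_val (π i) z with h6 | h6
          · exact h6.2
          · exact absurd h4 h6.1
        rw [Finset.prod_eq_zero hi h5, mul_zero]
    rw [a0, e0, hzero]
    simp
  · obtain ⟨g1, g2, g3, g4⟩ := locGX e hπ hS.even hJ hz hb
    obtain ⟨q1, q2⟩ := sgn_sqX hπ hz hb
    rw [g1, g2, g4, map_mul, map_mul, map_mul, sgn_conj, e7_conj q2, hcp]
    congr 1
    linear_combination (-((z : ℂ) * (starRingEnd ℂ) (z : ℂ)) *
      ((((nR z).natAbs : ℕ) : ℂ) ^ (-s)) ^ 2 * e7 z ^ 2) * q1 -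
      ((z : ℂ) * (starRingEnd ℂ) (z : ℂ) * ((((nR z).natAbs : ℕ) : ℂ) ^ (-s)) ^ 2) * q2

end Pool.Agent.H463.QE
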