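import Pool.Agent.H463.QE.ValX
import Pool.Graph.R_seed8.R426.QC.Lser
import Pool.Graph.R_seed8.R426.QC.Vz

/-!
# The Dirichlet series of the general twists and the conjugate family
-/

set_option autoImplicit false
set_option linter.unusedSectionVars false

open Filter
open scoped Topology PeriodPair

namespace Pool.Agent.H463.QE

open Pool.Agent.R426.QC Pool.Agent.R426.QD
open Pool.Agent.Y698 Pool.Agent.Y698.SG
open H667R3 Pool.Agent.W192.HK Pool.Agent.TH936.CM Pool.Agent.TH936.PU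
open Pool.Agent.Y279.SG (sy_cj cXY_cj)

section

variable {ι : Type} {S : Finset ι} {π : ι → RR}

lemma fz_spX (hS : FaE S π) (z : ℂ) (g : RR) : fz S π z (sp g) =
    e7 g * g * (∏ i ∈ S, sy (π i) g) * (((nR g).natAbs : ℕ) : ℂ) ^ (-z) := by
  unfold fz
  rw [psi_sp, nm_sp, hS.xs]

lemma fz_cmX (hS : FaE S π) {z : ℂ} (hs : Summable (fz S π z)) : CMI (fz S π z) := by
  refine ⟨?_, ?_, fun I J => ?_, hs⟩
  · have h1 : (⊥ : Ideal RR) = sp 0 := by
      rw [eq_comm, Ideal.span_singleton_eq_bot]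
    rw [h1, fz_spX hS]
    have : ((0 : RR) : ℂ) = 0 := rfl
    rw [this]
    ring
  · have h1 : (⊤ : Ideal RR) = sp 1 := by
      rw [eq_comm, Ideal.span_singleton_eq_top]
      exact isUnit_one
    rw [h1, fz_spX hS, e7_one]
    have h3 : nR 1 = 1 := by
      unfold nR
      rw [cXY_one.1, cXY_one.2]
      norm_num
    rw [hS.one, h3]
    simp
  · obtain ⟨g, rfl⟩ := exists_gen I
    obtain ⟨h, rfl⟩ := exists_gen J
    rw [Ideal.span_singleton_mul_span_singleton, fz_spX hS, fz_spX hS, fz_spX hS, e7_mul, nR_mul,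
      Int.natAbs_mul, hS.mul]
    push_cast
    rw [Complex.natCast_mul_natCast_cpow]
    ring

end

/-! ### the conjugate family -/

/-- the conjugate, normalized -/
noncomputable def cjp (ϖ : RR) : RR := if tp ϖ = 0 then cj ϖ else -cj ϖ

lemma prime_cj {ϖ : RR} (h : Prime ϖ) : Prime (cj ϖ) := by
  refine ⟨fun h0 => h.ne_zero ?_, fun hu => h.not_isUnit ?_, fun x y hxy => ?_⟩
  · rw [← cj_cj ϖ, h0, map_zero]
  · have := hu.map Pool.Agent.Y698.cj
    rwa [cj_cj] at this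
  · have h1 : ϖ ∣ Pool.Agent.Y698.cj x * Pool.Agent.Y698.cj y := by
      rw [← cj_dvd, map_mul, cj_cj, cj_cj]
      exact hxy
    rcases h.dvd_or_dvd h1 with h3 | h3
    · left
      rw [← cj_dvd, cj_cj]
      exact h3
    · right
      rw [← cj_dvd, cj_cj]
      exact h3

lemma sp_cjp (ϖ : RR) : sp (cjp ϖ) = sp (cj ϖ) := by
  unfold cjp
  split_ifs
  · rfl
  · exact Ideal.span_singleton_neg _

lemma sy_cjp (ϖ x : RR) : sy (cjp ϖ) x = sy ϖ (cj x) := by
  rw [sy_sp (sp_cjp ϖ) x]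
  have := sy_cj ϖ (cj x)
  rwa [cj_cj] at this

lemma tp_cjp (ϖ : RR) : tp (cjp ϖ) = tp ϖ := by
  unfold tp
  rw [sy_cjp, map_neg, map_one]

lemma et_tp {ϖ : RR} (h : Pn ϖ) : et ϖ = tp ϖ := by
  rcases h.cases with h1 | ⟨p, A, B, h1, hn⟩
  · rw [et_m4 h1.m4, tp_pm h1]
  · rw [et_p3 h1, if_pos hn, h1.tp]

lemma pn_cjp {ϖ : RR} (h : Pn ϖ) : Pn (cjp ϖ) := by
  have hp := prime_cj h.pr
  have hod : ¬ cj ϖ ∣ 2 := by
    intro h3
    apply h.od
    have := (cj_dvd (x := cj ϖ) (y := 2)).2 h3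
    rwa [cj_cj, map_ofNat] at this
  unfold cjp
  rcases h.cases with h1 | ⟨p, A, B, h1, hn⟩
  · rw [if_pos (tp_pm h1)]
    refine ⟨hp, hod, ?_⟩
    obtain ⟨u, hu⟩ := h1.m4
    exact r4_m4 ⟨cj u, by rw [hu, map_add, map_mul, map_one, map_ofNat]⟩
  · rw [if_neg (by rw [h1.tp]; exact one_ne_zero)]
    refine ⟨hp.neg, fun h2 => hod ((neg_dvd).1 h2), ?_⟩
    rw [map_neg, r4_cj3 h1]
    have hA := h1.hA
    have hB := h1.hB
    have h2 : (((-(A + B - 4 * B) - 1 : ℤ)) : ZMod 4) = 0 := by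
      rw [ZMod.intCast_zmod_eq_zero_iff_dvd]
      omega
    rw [Int.cast_sub, Int.cast_neg, Int.cast_one, sub_eq_zero] at h2
    exact h2

lemma mem_cjp {x ϖ : RR} : cjp x ∈ sp (cjp ϖ) ↔ x ∈ sp ϖ := by
  rw [sp_cjp]
  have h1 : cjp x ∈ sp (cj ϖ) ↔ cj x ∈ sp (cj ϖ) := by
    unfold cjp
    split_ifs
    · rfl
    · exact neg_mem_iff
  rw [h1, Ideal.mem_span_singleton, Ideal.mem_span_singleton, cj_dvd]

lemma fae_cjp {ι : Type} {S : Finset ι} {π : ι → RR} (hS : FaE S π) :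
    FaE S (fun i => cjp (π i)) := by
  refine ⟨⟨fun i hi => pn_cjp (hS.fa.pn i hi), fun i hi j hj hij => ?_⟩, ?_⟩
  · rw [mem_cjp]
    exact hS.fa.ne i hi j hj hij
  · simp only [tp_cjp]
    exact hS.even

lemma cj_fR' : cj fR = -fR := by
  unfold fR
  rw [map_sub, map_mul, map_one, map_ofNat, R426.QC.cj_aR]
  ring

lemma cjp_fR : cjp (-fR) = -fR := by
  unfold cjp
  rw [if_neg (by rw [tp_fR]; exact one_ne_zero), map_neg, cj_fR', neg_neg]

lemma cjp_seven {ϖ : RR} : cjp ϖ ∈ sp fR ↔ ϖ ∈ sp fR := by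
  have h1 : sp (cjp (-fR)) = sp fR := by
    rw [cjp_fR]
    exact Ideal.span_singleton_neg fR
  have h2 : sp (-fR) = sp fR := Ideal.span_singleton_neg fR
  have h3 : cjp ϖ ∈ sp (cjp (-fR)) ↔ ϖ ∈ sp (-fR) := mem_cjp
  rwa [h1, h2] at h3

lemma prod_cjp {ι : Type} {S : Finset ι} {π : ι → RR} (hS : FaE S π) :
    (∏ i ∈ S, cjp (π i)) = cj (∏ i ∈ S, π i) := by
  classical
  have h1 : ∀ i ∈ S, cjp (π i) = (if tp (π i) = 0 then 1 else -1) * cj (π i) := by
    intro i _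
    unfold cjp
    split_ifs
    · rw [one_mul]
    · rw [neg_one_mul]
  rw [Finset.prod_congr rfl h1, Finset.prod_mul_distrib, map_prod]
  have key : ∀ T : Finset ι, (∏ i ∈ T, (if tp (π i) = 0 then (1 : RR) else -1)) =
      if ∑ i ∈ T, tp (π i) = 0 then 1 else -1 := by
    intro T
    induction T using Finset.induction_on with
    | empty => simp
    | insert a T ha ih =>
      rw [Finset.prod_insert ha, Finset.sum_insert ha, ih]
      rcases zm2 (tp (π a)) with h | h <;> rcases zm2 (∑ i ∈ T, tp (π i)) with h' | h' <;>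
        rw [h, h'] <;> simp (decide := true)
  rw [key, if_pos hS.even, one_mul]

lemma cjp_m4 {ι : Type} {S : Finset ι} {π : ι → RR} (hS : FaE S π)
    (hJ : ∃ u : RR, ∏ i ∈ S, π i = 1 + 4 * u) : ∃ u : RR, ∏ i ∈ S, cjp (π i) = 1 + 4 * u := by
  obtain ⟨u, hu⟩ := hJ
  exact ⟨cj u, by rw [prod_cjp hS, hu, map_add, map_mul, map_one, map_ofNat]⟩

lemma pe_cjp {ι : Type} (π : ι → RR) : pe (fun i => cjp (π i)) = fun o => cjp (pe π o) := by
  funext o
  rcases o with _ | i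
  · exact cjp_fR.symm
  · rfl

/-- reciprocity -/
lemma mr_symm {ι : Type} {S : Finset ι} {π : ι → RR} (hS : Fa S π) {i j : ι} (hi : i ∈ S)
    (hj : j ∈ S) (hij : i ≠ j) : mr π j i = mr π i j + mt π i * mt π j := by
  unfold mr mt
  rw [recG (hS.pn i hi) (hS.pn j hj).pr (hS.pn j hj).od (hS.ne i hi j hj hij)
    (hS.ne j hj i hi (Ne.symm hij)), et_tp (hS.pn j hj)]

lemma mr_cjp {ι : Type} {S : Finset ι} {π : ι → RR} (hS : Fa S π) {i j : ι} (hi : i ∈ S)
    (hj : j ∈ S) (hij : i ≠ j) : mr (fun i => cjp (π i)) i j = mr π j i := by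
  rw [mr_symm hS hi hj hij]
  unfold mr mt
  rw [sy_cjp]
  have hj' := hS.pn j hj
  have h1 : lg (sy (π j) (cj (cjp (π i)))) = lg (sy (π j) (π i)) + tp (π i) * tp (π j) := by
    unfold cjp
    rcases zm2 (tp (π i)) with h | h
    · rw [if_pos h, cj_cj, h, zero_mul, add_zero]
    · rw [if_neg (by rw [h]; exact one_ne_zero), map_neg, cj_cj, lg_neg' hj'.pr hj'.od
        (hS.ne i hi j hj hij), h, one_mul, add_comm]
  exact h1

/-- the determinant of the conjugate family -/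
lemma gd_cjp {ι : Type} [DecidableEq ι] {S : Finset ι} {π : ι → RR} (hS : Fa S π)
    (hodd : ∑ i ∈ S, mt π i = 1) :
    Pool.Agent.Y286.SG.gd (mt (fun i => cjp (π i))) (mr (fun i => cjp (π i))) S =
      Pool.Agent.Y286.SG.gd (mt π) (mr π) S := by
  unfold Pool.Agent.Y286.SG.gd
  rw [← Matrix.det_transpose]
  congr 1
  ext i j
  rw [Matrix.transpose_apply, Matrix.of_apply, Matrix.of_apply]
  by_cases hij : i = j
  · subst hij
    rw [if_pos rfl, if_pos rfl]
    have h1 : mt (fun i => cjp (π i)) i = mt π i := tp_cjp _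
    have h2 : ∀ k ∈ S.erase (i : ι), mr (fun i => cjp (π i)) i k =
        mr π i k + mt π i * mt π k := by
      intro k hk
      rw [Finset.mem_erase] at hk
      rw [mr_cjp hS i.2 hk.2 (Ne.symm hk.1), mr_symm hS i.2 hk.2 (Ne.symm hk.1)]
    rw [h1, Finset.sum_congr rfl h2, Finset.sum_add_distrib, ← Finset.mul_sum]
    have h3 : ∑ k ∈ S.erase (i : ι), mt π k = 1 - mt π i := by
      rw [← hodd, ← Finset.add_sum_erase S (mt π) i.2]
      ring
    rw [h3]
    have h4 : ∀ x : ZMod 2, x * (1 - x) = 0 := by decide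
    rw [h4, add_zero]
  · rw [if_neg (Ne.symm hij), if_neg hij]
    exact mr_cjp hS j.2 i.2 (fun h => hij (Subtype.ext h.symm))

lemma se_sumZ {ι : Type} (S : Finset ι) (f : Option ι → ZMod 2) :
    ∑ i ∈ se S, f i = f none + ∑ i ∈ S, f (some i) := by
  unfold se
  exact Finset.sum_insertNone f S

lemma gd_se_cjp {ι : Type} [DecidableEq ι] {S : Finset ι} {π : ι → RR} (hS : FaE S π)
    (h7 : ∀ i ∈ S, π i ∉ sp fR) (h7' : ∀ i ∈ S, fR ∉ sp (π i)) :
    Pool.Agent.Y286.SG.gd (mt (pe (fun i => cjp (π i)))) (mr (pe (fun i => cjp (π i)))) (se S) =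
      Pool.Agent.Y286.SG.gd (mt (pe π)) (mr (pe π)) (se S) := by
  rw [pe_cjp]
  refine gd_cjp (fa_se hS.fa h7 h7') ?_
  rw [se_sumZ]
  have h1 : mt (pe π) none = 1 := tp_fR
  have h2 : ∑ i ∈ S, mt (pe π) (some i) = 0 := hS.even
  rw [h1, h2, add_zero]

lemma fz_cjX {ι : Type} {S : Finset ι} {π : ι → RR} (hS : FaE S π) (z : ℂ) (I : Ideal RR) :
    fz S (fun i => cjp (π i)) z (cjI I) = (starRingEnd ℂ) (fz S π ((starRingEnd ℂ) z) I) := by
  obtain ⟨g, rfl⟩ := exists_gen I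
  rw [cjI_sp, fz_spX (fae_cjp hS), fz_spX hS, map_mul, map_mul, map_mul, e7_real, sgn_conj,
    cpow_cj, e7_cj, nR_cj, cj_coe]
  congr 2
  refine Finset.prod_congr rfl fun i _ => ?_
  rw [sy_cjp, cj_cj]

/-- the central value of the conjugate family -/
lemma conj_famX {ι : Type} {S : Finset ι} {π : ι → RR} (hS : FaE S π)
    {F F' : ℂ → ℂ} (d : Differentiable ℂ F)
    (d' : Differentiable ℂ F')
    (h : ∀ z : ℂ, 3 / 2 < z.re → HasSum (fz S π z) (F z))
    (h' : ∀ z : ℂ, 3 / 2 < z.re → HasSum (fz S (fun i => cjp (π i)) z) (F' z)) (s : ℂ) :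
    F' s = (starRingEnd ℂ) (F ((starRingEnd ℂ) s)) := by
  have h1 : ∀ z : ℂ, 3 / 2 < z.re → F' z = (starRingEnd ℂ) (F ((starRingEnd ℂ) z)) := by
    intro z hz
    have h2 := h ((starRingEnd ℂ) z) (by rw [Complex.conj_re]; exact hz)
    have h3 := h2.map (starRingEnd ℂ) Complex.continuous_conj
    have h4 := (cjI.hasSum_iff (f := fz S (fun i => cjp (π i)) z)).2 (h' z hz)
    have h5 : fz S (fun i => cjp (π i)) z ∘ cjI =
        (starRingEnd ℂ) ∘ fz S π ((starRingEnd ℂ) z) := by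
      funext I
      exact fz_cjX hS z I
    rw [h5] at h4
    exact h4.unique h3
  have h2 := Pool.Agent.Y697.MQ.diff_conj d
  have a1 : AnalyticOnNhd ℂ F' Set.univ := fun z _ => d'.analyticAt z
  have a2 : AnalyticOnNhd ℂ (fun s => (starRingEnd ℂ) (F ((starRingEnd ℂ) s))) Set.univ :=
    fun z _ => h2.analyticAt z
  have h3 := a1.eqOn_of_preconnected_of_eventuallyEq a2 isPreconnected_univ (Set.mem_univ (2 : ℂ))
    (by
      have hopen : IsOpen {z : ℂ | 3 / 2 < z.re} := isOpen_lt continuous_const Complex.continuous_re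
      have hmem : (2 : ℂ) ∈ {z : ℂ | 3 / 2 < z.re} := by
        show (3 / 2 : ℝ) < (2 : ℂ).re
        norm_num
      filter_upwards [hopen.mem_nhds hmem] with z hz
      exact h1 z hz)
  exact h3 (Set.mem_univ s)

end Pool.Agent.H463.QE
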