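import Pool.Agent.H463.QE.LinX
import Pool.Agent.H463.QE.FzX

/-!
# The Selmer groups of the twists by elements of `ℚ(√-7)`, general twists
-/

set_option autoImplicit false
set_option linter.unusedSectionVars false

attribute [-instance] DivisionRing.toRatAlgebra

open NumberField IsDedekindDomain

namespace Pool.Agent.H463.QE

open Pool.Agent.R426.QC Pool.Agent.R426.QD
open Pool.Agent.Y698 Pool.Agent.Y698.SG
open H667R3 Pool.Agent.W192.HK Pool.Agent.TH936.CM Pool.Agent.TH936.PU
open WithZero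

/-! ### the primes `≡ 1` modulo the square of the conjugate of `α` -/

/-- the normalization modulo the square of the conjugate of `α` -/
noncomputable def ps (ϖ : RR) : RR := if tp ϖ = 0 then ϖ else -ϖ

lemma cj_ps (ϖ : RR) : cj (ps ϖ) = cjp ϖ := by
  unfold ps cjp
  split_ifs
  · rfl
  · exact map_neg cj ϖ

lemma prod_ps {ι : Type} {S : Finset ι} {π : ι → RR} (hS : FaE S π) :
    (∏ i ∈ S, ps (π i)) = ∏ i ∈ S, π i := by
  have h1 : cj (∏ i ∈ S, ps (π i)) = cj (∏ i ∈ S, π i) := by
    rw [map_prod, ← prod_cjp hS]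
    exact Finset.prod_congr rfl fun i _ => cj_ps _
  rw [← cj_cj (∏ i ∈ S, ps (π i)), h1, cj_cj]

lemma ps_assoc (ϖ : RR) : ps ϖ = ϖ ∨ ps ϖ = -ϖ := by
  unfold ps
  split_ifs
  · exact Or.inl rfl
  · exact Or.inr rfl

lemma prod_ps_sign {ι : Type} (T : Finset ι) (π : ι → RR) :
    (∏ i ∈ T, ps (π i)) = ∏ i ∈ T, π i ∨ (∏ i ∈ T, ps (π i)) = -∏ i ∈ T, π i := by
  classical
  induction T using Finset.induction_on with
  | empty => exact Or.inl rfl
  | insert a T ha ih =>
    rw [Finset.prod_insert ha, Finset.prod_insert ha]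
    rcases ps_assoc (π a) with h | h <;> rcases ih with h' | h' <;> rw [h, h']
    · exact Or.inl rfl
    · right; ring
    · right; ring
    · left; ring

lemma cop_ab : IsCoprime aR (cj aR) := ⟨1, 1, by rw [R426.QC.cj_aR]; ring⟩

lemma r4_cjdvd {x : RR} (h : r4 (cj x) = 1) : (cj aR) ^ 2 ∣ x - 1 := by
  have h1 : aR ^ 2 ∣ cj x - 1 := r4_zero (by rw [map_sub, h, map_one, sub_self])
  obtain ⟨c, hc⟩ := h1
  refine ⟨cj c, ?_⟩
  have h2 := congrArg cj hc
  rwa [map_sub, cj_cj, map_one, map_mul, map_pow] at h2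

lemma r4_dvd {x : RR} (h : r4 x = 1) : aR ^ 2 ∣ x - 1 :=
  r4_zero (by rw [map_sub, h, map_one, sub_self])

lemma r4_prod {ι : Type} {T : Finset ι} {f : ι → RR} (h : ∀ i ∈ T, r4 (f i) = 1) :
    r4 (∏ i ∈ T, f i) = 1 := by
  rw [map_prod]
  exact Finset.prod_eq_one h

lemma m4_of_two {x : RR} (h : r4 x = 1) (h' : r4 (cj x) = 1) : ∃ u : RR, x = 1 + 4 * u := by
  have h1 : aR ^ 2 * (cj aR) ^ 2 ∣ x - 1 := (cop_ab.pow).mul_dvd (r4_dvd h) (r4_cjdvd h')
  obtain ⟨c, hc⟩ := h1
  refine ⟨c, ?_⟩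
  have h4 : aR ^ 2 * (cj aR) ^ 2 = 4 := by
    rw [← mul_pow, ← R426.QC.two_eq]; norm_num
  rw [h4] at hc
  linear_combination hc

/-- the product is `≡ 1 mod 4` -/
lemma FaE.m4 {ι : Type} {S : Finset ι} {π : ι → RR} (hS : FaE S π) :
    ∃ u : RR, ∏ i ∈ S, π i = 1 + 4 * u := by
  refine m4_of_two (r4_prod fun i hi => (hS.fa.pn i hi).r4) ?_
  rw [← prod_cjp hS]
  exact r4_prod fun i hi => (pn_cjp (hS.fa.pn i hi)).r4

/-! ### the relations between the symbols -/

lemma mem_se {ι : Type} {S : Finset ι} {i : ι} : some i ∈ se S ↔ i ∈ S := by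
  unfold se
  rw [Finset.mem_insertNone]
  exact ⟨fun h => h i rfl, fun h a ha => by rw [Option.mem_some_iff] at ha; rw [← ha]; exact h⟩

lemma none_se {ι : Type} {S : Finset ι} : (none : Option ι) ∈ se S := by
  unfold se
  rw [Finset.mem_insertNone]
  intro a ha
  cases ha

/-- the families prime to `√-7` -/
structure Fs {ι : Type} (S : Finset ι) (π : ι → RR) : Prop where
  e : FaE S π
  h7 : ∀ i ∈ S, π i ∉ sp fR

lemma Fs.h7' {ι : Type} {S : Finset ι} {π : ι → RR} (hS : Fs S π) : ∀ i ∈ S, fR ∉ sp (π i) := by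
  intro i hi h
  rw [Ideal.mem_span_singleton] at h
  apply hS.h7 i hi
  rw [Ideal.mem_span_singleton]
  exact ((hS.e.fa.pn i hi).pr.associated_of_dvd R426.QC.prime_fR h).symm.dvd

lemma Fs.fa {ι : Type} {S : Finset ι} {π : ι → RR} (hS : Fs S π) : Fa (se S) (pe π) :=
  fa_se hS.e.fa hS.h7 hS.h7'

lemma Fs.sr {ι : Type} [DecidableEq ι] {S : Finset ι} {π : ι → RR} (hS : Fs S π) :
    Sr (mt (pe π)) (mr (pe π)) (se S) := by
  refine ⟨fun i hi j hj hij => mr_symm hS.fa hi hj hij, ?_⟩
  rw [se_sumZ]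
  have h1 : mt (pe π) none = 1 := tp_fR
  have h2 : ∑ i ∈ S, mt (pe π) (some i) = 0 := hS.e.even
  rw [h1, h2, add_zero]

lemma Fs.cj {ι : Type} {S : Finset ι} {π : ι → RR} (hS : Fs S π) : Fs S (fun i => cjp (π i)) :=
  ⟨fae_cjp hS.e, fun i hi => by
    rw [cjp_seven]
    exact hS.h7 i hi⟩

/-- the entries of the matrix -/
lemma mr_ps {ι : Type} {S : Finset ι} {π : ι → RR} (hS : Fs S π) {i j : ι} (hi : i ∈ S)
    (hj : j ∈ S) (hij : i ≠ j) : lg (sy (π i) (ps (π j))) = mr (pe π) (some i) (some j) := by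
  have h1 : mr π j i = mr π i j + mt π i * mt π j := mr_symm hS.e.fa hi hj hij
  have h2 : mr (pe π) (some i) (some j) = mr π i j := rfl
  have h3 : mr π j i = lg (sy (π i) (π j)) := rfl
  have hi' := hS.e.fa.pn i hi
  rw [h2]
  unfold ps
  rcases zm2 (tp (π j)) with h | h
  · have h4 : mt π j = 0 := h
    rw [if_pos h, ← h3, h1, h4, mul_zero, add_zero]
  · have h4 : mt π j = 1 := h
    have h5 : tp (π i) = mt π i := rfl
    rw [if_neg (by rw [h]; exact one_ne_zero), lg_neg' hi'.pr hi'.od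
      (hS.e.fa.ne j hj i hi (Ne.symm hij)), ← h3, h1, h4, mul_one, h5, add_comm (mr π i j),
      ← add_assoc, add_self2, zero_add]

lemma mr_none {ι : Type} {S : Finset ι} {π : ι → RR} (hS : Fs S π) {i : ι} (hi : i ∈ S) :
    lg (sy (π i) fR) = mr (pe π) (some i) none := by
  have h1 : mr (pe π) (some i) none = lg (sy (-fR) (π i)) := rfl
  rw [h1, sy_negm, sy_fR]
  exact (hS.e.fa.pn i hi).seven (hS.h7 i hi) (hS.h7' i hi)

/-! ### products -/

lemma Pn.syprod {ι : Type} {ϖ : RR} (h : Pn ϖ) (U : Finset ι) (f : ι → RR) :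
    sy ϖ (∏ j ∈ U, f j) = ∏ j ∈ U, sy ϖ (f j) := by
  classical
  induction U using Finset.induction_on with
  | empty => rw [Finset.prod_empty, Finset.prod_empty]; exact sy_oneO h.pr
  | insert a U ha ih => rw [Finset.prod_insert ha, Finset.prod_insert ha, h.mul, ih]

lemma ps_notin {ϖ ϖ' : RR} (h : ϖ' ∉ sp ϖ) : ps ϖ' ∉ sp ϖ := by
  rcases ps_assoc ϖ' with h1 | h1 <;> rw [h1]
  · exact h
  · rwa [neg_mem_iff]

lemma prodps_notin {ι : Type} {S U : Finset ι} {π : ι → RR} (hS : Fs S π) (hU : U ⊆ S) {i : ι}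
    (hi : i ∈ S) (hiU : i ∉ U) (e : Bool) : fb e * ∏ j ∈ U, ps (π j) ∉ sp (π i) := by
  classical
  have hp := (hS.e.fa.pn i hi).pr
  intro h
  rw [Ideal.mem_span_singleton] at h
  rcases hp.dvd_or_dvd h with h1 | h1
  · cases e
    · exact hp.not_isUnit (isUnit_of_dvd_one h1)
    · exact hS.h7' i hi (Ideal.mem_span_singleton.2 h1)
  · obtain ⟨j, hj, h2⟩ := (Prime.dvd_finsetProd_iff hp _).1 h1
    exact ps_notin (hS.e.fa.ne j (hU hj) i hi (fun h3 => hiU (h3 ▸ hj)))
      (Ideal.mem_span_singleton.2 h2)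

lemma lg_syX {ι : Type} {S U : Finset ι} {π : ι → RR} (hS : Fs S π) (hU : U ⊆ S) {i : ι}
    (hi : i ∈ S) (hiU : i ∉ U) (e : Bool) (h : sy (π i) (fb e * ∏ j ∈ U, ps (π j)) = 1) :
    (if e then mr (pe π) (some i) none else 0) + ∑ j ∈ U, mr (pe π) (some i) (some j) = 0 := by
  have hp := hS.e.fa.pn i hi
  have h1 := sgn_prod (s := U) (f := fun j => sy (π i) (ps (π j))) fun j hj =>
    sy_sgn (ps_notin (hS.e.fa.ne j (hU hj) i hi (fun h3 => hiU (h3 ▸ hj))))
  rw [hp.mul, Pn.syprod hp] at h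
  have h2 : ∑ j ∈ U, mr (pe π) (some i) (some j) = ∑ j ∈ U, lg (sy (π i) (ps (π j))) :=
    Finset.sum_congr rfl fun j hj => (mr_ps hS hi (hU hj) (fun h3 => hiU (h3 ▸ hj))).symm
  rw [h2, ← h1.2]
  cases e
  · have e1 : fb false = 1 := rfl
    rw [e1, sy_oneO hp.pr, one_mul] at h
    rw [h, lg_one]
    simp
  · have e1 : fb true = fR := rfl
    rw [e1] at h
    simp only [if_true]
    rw [← mr_none hS hi, ← lg_mul (sy_sgn (hS.h7' i hi)) h1.1, h, lg_one]

section

variable {K : Type} [Field K] [NumberField K] (e : RR ≃+* 𝓞 K)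

/-- **the Selmer group** -/
theorem selX {ι : Type} [DecidableEq ι] {I : Finset ι} {π : ι → RR} (hf : Fs I π)
    (hg : Pool.Agent.Y286.SG.gd (mt (pe π)) (mr (pe π)) (se I) ≠ 0) {q : K} (hq : q ≠ 0)
    (h : ∀ v : HeightOneSpectrum (𝓞 K), v.valuation K 7 = 1 →
      LCE (v.valuation K) (em e aR) (em e (∏ i ∈ I, π i)) q) :
    ∃ c : K, q = c ^ 2 ∨ q = em e (fR * ∏ i ∈ I, π i) * c ^ 2 := by
  classical
  have hb := ema_sq e
  have hpn := hf.e.fa.pn
  obtain ⟨d, w, hd, hw, hqd⟩ := exists_sqf e hq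
  have hloc : ∀ {z : RR} (hz : Prime z), ¬ z ∣ 7 →
      LCE ((plc e hz).valuation K) (em e aR) (em e (∏ i ∈ I, π i)) (em e d) := by
    intro z hz h7
    have h7' : (plc e hz).valuation K 7 = 1 := by
      have := val_one' e hz h7
      rwa [map_ofNat] at this
    refine (h _ h7').sqE hb ⟨w⁻¹, inv_ne_zero hw, ?_⟩
    rw [hqd]
    field_simp
  have hcop : ∀ a ∈ I, ∀ b ∈ I, a ≠ b → IsCoprime (π a) (π b) := fun a ha b hb hab =>
    ((hpn a ha).pr.irreducible.coprime_iff_not_dvd).2 fun h1 =>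
      hf.e.fa.ne b hb a ha (Ne.symm hab) (Ideal.mem_span_singleton.2 h1)
  have hodd : ∀ {z : RR} (hz : Prime z) (x : K), (plc e hz).valuation K x = exp (-1) →
      ¬ Ev ((plc e hz).valuation K) x := by
    rintro z hz x hx ⟨y, hy, h⟩
    refine ev_odd_val hy h (k := -1) ?_
    rw [hx]
    congr 1
  -- the primes of `d`
  have hprime : ∀ ρ : RR, Prime ρ → ρ ∣ d → ¬ ρ ∣ 7 → ρ ∣ ∏ i ∈ I, π i := by
    intro ρ hρ hρd h7
    by_contra hρP
    exact hodd hρ _ (val_sqf e hρ hd hρd) ((hloc hρ h7).1 (val_one' e hρ hρP)).1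
  set T := I.filter (fun i => π i ∣ d) with hT
  have hTI : T ⊆ I := Finset.filter_subset _ _
  have hTd : (∏ i ∈ T, π i) ∣ d := by
    refine Finset.prod_dvd_of_coprime ?_ ?_
    · intro i hi j hj hij
      exact hcop i (hTI hi) j (hTI hj) hij
    · intro i hi
      exact (Finset.mem_filter.1 hi).2
  set ε : Bool := decide (fR ∣ d) with hε
  have hεd : fb ε * ∏ i ∈ T, π i ∣ d := by
    by_cases h1 : fR ∣ d
    · have e1 : ε = true := by rw [hε]; exact decide_eq_true h1
      rw [e1]
      show fR * ∏ i ∈ T, π i ∣ d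
      refine IsCoprime.mul_dvd ?_ h1 hTd
      refine IsCoprime.prod_right fun i hi => ?_
      refine (R426.QC.prime_fR.irreducible.coprime_iff_not_dvd).2 fun h2 => ?_
      exact hf.h7 i (hTI hi) (Ideal.mem_span_singleton.2 h2)
    · have e1 : ε = false := by rw [hε]; exact decide_eq_false h1
      rw [e1]
      show 1 * ∏ i ∈ T, π i ∣ d
      rw [one_mul]
      exact hTd
  obtain ⟨u0, hu0⟩ := hεd
  have huu0 : IsUnit u0 := by
    by_contra hnu
    have hu00 : u0 ≠ 0 := by
      rintro rfl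
      exact hd.ne_zero (by rw [hu0, mul_zero])
    obtain ⟨ρ, hρ, hρu⟩ := WfDvdMonoid.exists_irreducible_factor hnu hu00
    have hρ' : Prime ρ := hρ.prime
    have h1 : ρ ∣ d := by rw [hu0]; exact hρu.mul_left _
    have hass : ∀ l : RR, Prime l → ρ ∣ l → l ∣ ρ := fun l hl h2 =>
      ((hρ.associated_of_dvd hl.irreducible h2).symm).dvd
    by_cases h7 : ρ ∣ 7
    · have h2 := hass fR R426.QC.prime_fR (dvd_fR hρ' h7)
      have h3 : fR ∣ d := h2.trans h1
      have e1 : ε = true := by rw [hε]; exact decide_eq_true h3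
      rw [e1] at hu0
      have h4 : fR * fR ∣ d := by
        rw [hu0]
        exact mul_dvd_mul (Dvd.intro _ rfl) (h2.trans hρu)
      exact R426.QC.prime_fR.not_isUnit (hd _ h4)
    · obtain ⟨l, hl, hρl⟩ := (hρ'.dvd_finsetProd_iff _).1 (hprime ρ hρ' h1 h7)
      have h2 := hass _ (hpn l hl).pr hρl
      have h4 : l ∈ T := Finset.mem_filter.2 ⟨hl, h2.trans h1⟩
      have h5 : π l * π l ∣ d := by
        rw [hu0]
        exact mul_dvd_mul ((Finset.dvd_prod_of_mem π h4).mul_left _) (h2.trans hρu)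
      exact (hpn l hl).pr.not_isUnit (hd _ h5)
  -- the normalized product
  obtain ⟨u, hu, huu⟩ : ∃ u : RR, d = fb ε * (∏ i ∈ T, ps (π i)) * u ∧ (u = 1 ∨ u = -1) := by
    rcases prod_ps_sign T π with h1 | h1 <;> rcases isUnit_iff.1 huu0 with h2 | h2
    · exact ⟨1, by rw [hu0, h1, h2], Or.inl rfl⟩
    · exact ⟨-1, by rw [hu0, h1, h2], Or.inr rfl⟩
    · exact ⟨-1, by rw [hu0, h1, h2]; ring, Or.inr rfl⟩
    · exact ⟨1, by rw [hu0, h1, h2]; ring, Or.inl rfl⟩
  have hps0 : ∀ (ε' : Bool) (U : Finset ι), U ⊆ I → fb ε' * ∏ i ∈ U, ps (π i) ≠ 0 := by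
    intro ε' U hU h0
    rcases mul_eq_zero.1 h0 with h1 | h1
    · cases ε'
      · exact one_ne_zero h1
      · exact fR_ne h1
    · refine (Finset.prod_ne_zero_iff.2 fun i hi => ?_) h1
      rcases ps_assoc (π i) with h2 | h2 <;> rw [h2]
      · exact (hpn i (hU hi)).pr.ne_zero
      · exact neg_ne_zero.2 (hpn i (hU hi)).pr.ne_zero
  -- the sign
  have hu1 : u = 1 := by
    rcases huu with h1 | h1
    · exact h1
    exfalso
    have hz := prime_cja
    have h2e : (2 : RR) = cj aR * aR := by rw [R426.QC.two_eq, mul_comm]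
    have hnd : ¬ cj aR ∣ aR := by
      intro h2
      apply hz.not_isUnit
      have e1 : (1 : RR) = cj aR + aR := by rw [R426.QC.cj_aR]; ring
      exact isUnit_of_dvd_one (by rw [e1]; exact dvd_add dvd_rfl h2)
    have h2d : cj aR ∣ 2 := ⟨aR, h2e⟩
    have h7 : ¬ cj aR ∣ 7 := by
      intro h3
      apply hz.not_isUnit
      have e1 : (1 : RR) = 7 - 2 * 3 := by norm_num
      exact isUnit_of_dvd_one (by rw [e1]; exact dvd_sub h3 (h2d.mul_right _))
    set W := (plc e hz).valuation K with hW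
    have w7 : W 7 = 1 := by
      have := val_one' e hz h7
      rwa [map_ofNat] at this
    have w2 : W 2 = exp (-1) := by
      have := val_mul1 e hz h2e hnd
      rwa [map_ofNat] at this
    have w2' : W 2 < 1 := by rw [w2, ← exp_zero, exp_lt_exp]; norm_num
    have w4 : W 4 = W (em e (cj aR)) ^ 2 := by
      have h5 : W (em e aR) = 1 := val_one' e hz hnd
      have h6 : (4 : K) = em e (cj aR) ^ 2 * em e aR ^ 2 := by
        have h8 : (4 : RR) = cj aR ^ 2 * aR ^ 2 := by rw [← mul_pow, ← h2e]; norm_num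
        have h9 := congrArg (em e) h8
        rwa [map_ofNat, map_mul, map_pow, map_pow] at h9
      rw [h6, map_mul, map_pow, map_pow, h5, one_pow, mul_one]
    have hur : ∀ x : RR, r4 (cj x) = 1 → Ur W (em e x) := by
      intro x hx
      obtain ⟨c, hc⟩ := r4_cjdvd hx
      refine ⟨1, one_ne_zero, ?_⟩
      have e1 : em e x - 1 ^ 2 = em e (cj aR) ^ 2 * em e c := by
        rw [one_pow, ← map_one (em e), ← map_sub, hc, map_mul, map_pow]
      rw [e1, map_mul, map_pow, w4, map_one, one_pow, mul_one]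
      exact mul_le_of_le_one_right' (val_le e hz c)
    have h1b : W (1 - em e aR) < 1 := by
      have e1 : 1 - em e aR = em e (cj aR) := by rw [R426.QC.cj_aR, map_sub, map_one]
      rw [e1]
      exact (val_lt e hz _).2 dvd_rfl
    obtain ⟨J, hJ⟩ := hf.e.m4
    have hP1 : W (em e (∏ i ∈ I, π i)) = 1 := by
      refine val_one' e hz ?_
      rw [hJ]
      intro h3
      apply hz.not_isUnit
      have e1 : (1 : RR) = (1 + 4 * J) - 2 * (2 * J) := by ring
      exact isUnit_of_dvd_one (by rw [e1]; exact dvd_sub h3 (h2d.mul_right _))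
    have hU := ((hloc hz h7).1 hP1).2 h1b
    have hUT : Ur W (em e (∏ i ∈ T, ps (π i))) := by
      apply hur
      rw [map_prod]
      refine r4_prod fun i hi => ?_
      rw [cj_ps]
      exact (pn_cjp (hpn i (hTI hi))).r4
    have hUf : Ur W (em e (fb ε)) := by
      rw [em_fb]
      cases ε
      · simpa using hur 1 (by rw [map_one, map_one])
      · simpa using (LC.s hb w7).2 h1b
    apply not_ur_neg_one (w := W) w2
    have h0 : em e (fb ε * ∏ i ∈ T, ps (π i)) ≠ 0 := em_ne e (hps0 ε T hTI)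
    refine ((hU.mul w2' hUT).mul w2' hUf).sqE w2' ⟨(em e (fb ε * ∏ i ∈ T, ps (π i)))⁻¹,
      inv_ne_zero h0, ?_⟩
    rw [hu, h1]
    simp only [map_mul, map_neg, map_one] at h0 ⊢
    obtain ⟨h01, h02⟩ := mul_ne_zero_iff.1 h0
    field_simp
  subst hu1
  rw [mul_one] at hu
  -- the conditions at the primes
  have key : ∀ i ∈ I, (i ∉ T → (if ε then mr (pe π) (some i) none else 0) +
        ∑ j ∈ T, mr (pe π) (some i) (some j) = 0) ∧
      (i ∈ T → (if !ε then mr (pe π) (some i) none else 0) +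
        ∑ j ∈ I \ T, mr (pe π) (some i) (some j) = 0) := by
    intro i hi
    have hz := (hpn i hi).pr
    have h7n : ¬ π i ∣ 7 := fun h1 => hf.h7' i hi (Ideal.mem_span_singleton.2 (dvd_fR hz h1))
    have hl := (hloc hz h7n).2 ((val_lt e hz _).2 (Finset.dvd_prod_of_mem π hi))
    rw [← em_fR e, ← map_mul, ← map_mul] at hl
    have hunit : ∀ (ε' : Bool) (U : Finset ι), U ⊆ I → i ∉ U →
        ¬ π i ∣ fb ε' * ∏ j ∈ U, ps (π j) := fun ε' U hU hiU h1 =>
      prodps_notin hf hU hi hiU ε' (Ideal.mem_span_singleton.2 h1)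
    constructor
    · intro hiT
      rcases hl with h1 | h1
      · rw [hu] at h1
        exact lg_syX hf hTI hi hiT ε (sy_of_sq e hz (prodps_notin hf hTI hi hiT ε) h1)
      · exfalso
        refine hodd hz _ ?_ h1.ev
        rw [← prod_ps hf.e]
        have hps : ps (π i) = π i ∨ ps (π i) = -π i := ps_assoc _
        obtain ⟨σ, hσ, hσu⟩ : ∃ σ : RR, ps (π i) = π i * σ ∧ (σ = 1 ∨ σ = -1) := by
          rcases hps with h2 | h2
          · exact ⟨1, by rw [h2, mul_one], Or.inl rfl⟩
          · exact ⟨-1, by rw [h2]; ring, Or.inr rfl⟩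
        refine val_mul1 e hz (c := σ * (fR * (∏ j ∈ I.erase i, ps (π j)) *
          (fb ε * ∏ j ∈ T, ps (π j)))) ?_ ?_
        · rw [← Finset.mul_prod_erase I (fun j => ps (π j)) hi, hu, hσ]
          ring
        · intro h2
          rcases hz.dvd_or_dvd h2 with h3 | h3
          · rcases hσu with h4 | h4
            · rw [h4] at h3
              exact hz.not_isUnit (isUnit_of_dvd_one h3)
            · rw [h4, dvd_neg] at h3
              exact hz.not_isUnit (isUnit_of_dvd_one h3)
          rcases hz.dvd_or_dvd h3 with h3 | h3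
          · exact hunit true (I.erase i) (Finset.erase_subset _ _) (Finset.notMem_erase _ _) h3
          · exact hunit ε T hTI hiT h3
    · intro hiT
      have hiT' : i ∉ I \ T := fun h => (Finset.mem_sdiff.1 h).2 hiT
      rcases hl with h1 | h1
      · exfalso
        refine hodd hz _ ?_ h1.ev
        obtain ⟨σ, hσ, hσu⟩ : ∃ σ : RR, ps (π i) = π i * σ ∧ (σ = 1 ∨ σ = -1) := by
          rcases ps_assoc (π i) with h2 | h2
          · exact ⟨1, by rw [h2, mul_one], Or.inl rfl⟩
          · exact ⟨-1, by rw [h2]; ring, Or.inr rfl⟩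
        refine val_mul1 e hz (c := σ * (fb ε * ∏ j ∈ T.erase i, ps (π j))) ?_ ?_
        · rw [hu, ← Finset.mul_prod_erase T (fun j => ps (π j)) hiT, hσ]
          ring
        · intro h2
          rcases hz.dvd_or_dvd h2 with h3 | h3
          · rcases hσu with h4 | h4
            · rw [h4] at h3
              exact hz.not_isUnit (isUnit_of_dvd_one h3)
            · rw [h4, dvd_neg] at h3
              exact hz.not_isUnit (isUnit_of_dvd_one h3)
          · exact hunit ε _ ((Finset.erase_subset _ _).trans hTI) (Finset.notMem_erase _ _) h3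
      · have h3 : Sq ((plc e hz).valuation K) (em e (fb (!ε) * ∏ j ∈ I \ T, ps (π j))) := by
          have hne1 : em e (∏ j ∈ T, ps (π j)) ≠ 0 := by
            apply em_ne
            have := hps0 false T hTI
            rwa [show fb false = 1 from rfl, one_mul] at this
          have hne2 : em e fR ≠ 0 := em_ne e fR_ne
          refine h1.sqE ?_
          rw [hu, ← prod_ps hf.e, ← Finset.prod_sdiff hTI (f := fun j => ps (π j))]
          cases ε
          · refine ⟨(em e (∏ j ∈ T, ps (π j)))⁻¹, inv_ne_zero hne1, ?_⟩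
            rw [show fb false = 1 from rfl, show fb (!false) = fR from rfl, one_mul]
            simp only [map_mul]
            field_simp
          · refine ⟨(em e (fR * ∏ j ∈ T, ps (π j)))⁻¹, inv_ne_zero ?_, ?_⟩
            · rw [map_mul]
              exact mul_ne_zero hne2 hne1
            · rw [show fb true = fR from rfl, show fb (!true) = 1 from rfl, one_mul]
              simp only [map_mul]
              field_simp
        exact lg_syX hf Finset.sdiff_subset hi hiT' (!ε)
          (sy_of_sq e hz (prodps_notin hf Finset.sdiff_subset hi hiT' (!ε)) h3)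
  -- the subset with the index of `√-7`
  obtain ⟨T', hT'⟩ : ∃ T' : Finset (Option ι), T' = (se I).filter (fun o => match o with
    | none => ε = true
    | some i => i ∈ T) := ⟨_, rfl⟩
  have hT'I : T' ⊆ se I := by rw [hT']; exact Finset.filter_subset _ _
  have mem_n : none ∈ T' ↔ ε = true := by
    rw [hT', Finset.mem_filter]
    exact ⟨fun h => h.2, fun h => ⟨none_se, h⟩⟩
  have mem_s : ∀ i, some i ∈ T' ↔ i ∈ T := by
    intro i
    rw [hT', Finset.mem_filter]
    exact ⟨fun h => h.2, fun h => ⟨mem_se.2 (hTI h), h⟩⟩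
  have sumT : ∀ (f : Option ι → ZMod 2), ∑ o ∈ T', f o =
      (if ε then f none else 0) + ∑ i ∈ T, f (some i) := by
    intro f
    have h1 : ∑ o ∈ T', f o = ∑ o ∈ se I, (if o ∈ T' then f o else 0) := by
      rw [← Finset.sum_filter]
      congr 1
      ext o
      rw [Finset.mem_filter]
      exact ⟨fun h => ⟨hT'I h, h⟩, fun h => h.2⟩
    rw [h1, se_sumZ]
    congr 1
    · by_cases h2 : ε = true
      · rw [if_pos (mem_n.2 h2), if_pos h2]
      · rw [if_neg (fun h => h2 (mem_n.1 h)), if_neg h2]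
    · have h2 : ∀ i ∈ I, (if some i ∈ T' then f (some i) else 0) =
          if i ∈ T then f (some i) else 0 := by
        intro i _
        by_cases h3 : i ∈ T
        · rw [if_pos ((mem_s i).2 h3), if_pos h3]
        · rw [if_neg (fun h => h3 ((mem_s i).1 h)), if_neg h3]
      rw [Finset.sum_congr rfl h2, ← Finset.sum_filter]
      congr 1
      ext i
      rw [Finset.mem_filter]
      exact ⟨fun h => h.2, fun h => ⟨hTI h, h⟩⟩
  have sumC : ∀ (f : Option ι → ZMod 2), ∑ o ∈ se I \ T', f o =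
      (if !ε then f none else 0) + ∑ i ∈ I \ T, f (some i) := by
    intro f
    have h1 : ∑ o ∈ se I \ T', f o + ∑ o ∈ T', f o = ∑ o ∈ se I, f o :=
      Finset.sum_sdiff hT'I
    have h2 : ∑ i ∈ I \ T, f (some i) + ∑ i ∈ T, f (some i) = ∑ i ∈ I, f (some i) :=
      Finset.sum_sdiff hTI
    rw [sumT, se_sumZ, ← h2] at h1
    cases hεe : ε
    · rw [hεe] at h1
      simp only [Bool.false_eq_true, if_false, zero_add, Bool.not_false, if_true] at h1 ⊢
      linear_combination h1
    · rw [hεe] at h1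
      simp only [if_true, Bool.not_true, Bool.false_eq_true, if_false, zero_add] at h1 ⊢
      linear_combination h1
  have hfin := lin_triv hf.sr hg none_se hT'I (o := none) (fun o ho hon hoT => by
      rcases o with _ | i
      · exact absurd rfl hon
      rw [sumT]
      exact (key i (mem_se.1 ho)).1 fun h => hoT ((mem_s i).2 h))
    (fun o ho hon hoT => by
      rcases o with _ | i
      · exact absurd rfl hon
      rw [sumC]
      exact (key i (mem_se.1 ho)).2 ((mem_s i).1 hoT))
  refine ⟨w, ?_⟩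
  rcases hfin with h1 | h1
  · left
    have h2 : ε = false := by
      rcases Bool.eq_false_or_eq_true ε with h3 | h3
      · exfalso
        have := mem_n.2 h3
        rw [h1] at this
        exact absurd this (Finset.notMem_empty _)
      · exact h3
    have h3 : T = ∅ := by
      refine Finset.eq_empty_of_forall_notMem fun i hi => ?_
      have := (mem_s i).2 hi
      rw [h1] at this
      exact absurd this (Finset.notMem_empty _)
    rw [hqd, hu, h2, h3, Finset.prod_empty, show fb false = 1 from rfl, one_mul, map_one, one_mul]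
  · right
    have h2 : ε = true := by
      apply mem_n.1
      rw [h1]
      exact none_se
    have h3 : T = I := by
      refine Finset.Subset.antisymm hTI fun i hi => ?_
      apply (mem_s i).1
      rw [h1]
      exact mem_se.2 hi
    rw [hqd, hu, h2, h3, prod_ps hf.e, show fb true = fR from rfl]

end

end Pool.Agent.H463.QE
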