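import Pool.Graph.R_seed8.R426.QC.Shr
import Pool.Agent.H463.QE.SelX

/-!
# The rank and the Tate-Shafarevich group, general twists
-/

set_option autoImplicit false
set_option linter.unusedSectionVars false

attribute [-instance] DivisionRing.toRatAlgebra

open NumberField IsDedekindDomain

namespace Pool.Agent.H463.QE

open Pool.Agent.R426.QC Pool.Agent.R426.QD
open Pool.Agent.Y698 Pool.Agent.Y698.SG
open H667R3 Pool.Agent.W192.HK Pool.Agent.TH936.CM Pool.Agent.TH936.PU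
open WithZero
open Pool.Agent.Y682 (S1 S2 IsT Zc Zc_card Zc_lower LL1 LL2 quot_eq)

lemma Fs.sqf {ι : Type} {I : Finset ι} {π : ι → RR} (hf : Fs I π) :
    Squarefree (∏ i ∈ I, π i) := by
  refine Finset.squarefree_prod_of_pairwise_isCoprime (fun a ha b hb hab => ?_)
    fun x hx => (hf.e.fa.pn x hx).pr.squarefree
  exact (((hf.e.fa.pn a ha).pr.irreducible.coprime_iff_not_dvd).2 fun h1 =>
      hf.e.fa.ne b hb a ha (Ne.symm hab) (Ideal.mem_span_singleton.2 h1)).isRelPrime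

lemma Fs.sqf7 {ι : Type} {I : Finset ι} {π : ι → RR} (hf : Fs I π) :
    Squarefree (fR * ∏ i ∈ I, π i) := by
  rw [squarefree_mul_iff]
  refine ⟨IsCoprime.isRelPrime ?_, R426.QC.prime_fR.squarefree, hf.sqf⟩
  refine IsCoprime.prod_right fun i hi => ?_
  refine (R426.QC.prime_fR.irreducible.coprime_iff_not_dvd).2 fun h2 => ?_
  exact hf.h7 i hi (Ideal.mem_span_singleton.2 h2)

section

variable {K : Type} [Field K] [NumberField K] (e : RR ≃+* 𝓞 K)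

/-- the first Selmer group -/
theorem sel1X {ι : Type} [DecidableEq ι] {I : Finset ι} {π : ι → RR} (hf : Fs I π)
    (hg : Pool.Agent.Y286.SG.gd (mt (pe π)) (mr (pe π)) (se I) ≠ 0) {q : K} (hq : q ≠ 0)
    (h : ∀ v : HeightOneSpectrum (𝓞 K), ∃ y m : v.adicCompletion K, y ≠ 0 ∧
      algebraMap K (v.adicCompletion K) q * y ^ 2 = m ∧
      S1 (algebraMap K (v.adicCompletion K) (cA (em e aR) (em e (∏ i ∈ I, π i))))
        (algebraMap K (v.adicCompletion K) (cB (em e aR) (em e (∏ i ∈ I, π i)))) m) :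
    ∃ c : K, q = c ^ 2 ∨ q = em e (fR * ∏ i ∈ I, π i) * c ^ 2 := by
  refine selX e hf hg hq fun v h7 => ?_
  exact LCE.glob1 v (ema_sq e) (lh_of e hf.sqf hf.e.m4 v h7) hq (h v)

/-- the second Selmer group -/
theorem sel2X {ι : Type} [DecidableEq ι] {I : Finset ι} {π : ι → RR} (hf : Fs I π)
    (hg : Pool.Agent.Y286.SG.gd (mt (pe π)) (mr (pe π)) (se I) ≠ 0) {q : K} (hq : q ≠ 0)
    (h : ∀ v : HeightOneSpectrum (𝓞 K), ∃ y m : v.adicCompletion K, y ≠ 0 ∧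
      algebraMap K (v.adicCompletion K) q * y ^ 2 = m ∧
      S2 (algebraMap K (v.adicCompletion K) (cA (em e aR) (em e (∏ i ∈ I, π i))))
        (algebraMap K (v.adicCompletion K) (cB (em e aR) (em e (∏ i ∈ I, π i)))) m) :
    ∃ c : K, q = c ^ 2 ∨ q = em e (-(fR * ∏ i ∈ I, π i)) * c ^ 2 := by
  have hem : ∀ x : RR, em (cjR.trans e) x = em e (cj x) := fun x => rfl
  have hD : em (cjR.trans e) (∏ i ∈ I, cjp (π i)) = em e (∏ i ∈ I, π i) := by
    rw [hem, prod_cjp hf.e, cj_cj]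
  have ha : em (cjR.trans e) aR = 1 - em e aR := by
    rw [hem, R426.QC.cj_aR, map_sub, map_one]
  have h3 := selX (cjR.trans e) (I := I) (π := fun i => cjp (π i)) hf.cj
    (by rw [gd_se_cjp hf.e hf.h7 hf.h7']; exact hg) hq (fun v h7 => by
      rw [hD, ha]
      exact LCE.glob2 v (ema_sq e) (lh_of e hf.sqf hf.e.m4 v h7) hq (h v))
  obtain ⟨c, hc⟩ := h3
  refine ⟨c, ?_⟩
  rcases hc with hc | hc
  · exact Or.inl hc
  · right
    rw [hc, map_mul, hD]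
    have e1 : em (cjR.trans e) fR = -em e fR := by
      rw [em_fR, ha, em_fR]
      ring
    rw [e1, map_neg, map_mul]
    ring

/-- **the rank and the elements of order two in Sha** -/
theorem sha_rankX {ι : Type} [DecidableEq ι] {I : Finset ι} {π : ι → RR} (hf : Fs I π)
    (hg : Pool.Agent.Y286.SG.gd (mt (pe π)) (mr (pe π)) (se I) ≠ 0) {J : RR}
    (hJ : ∏ i ∈ I, π i = 1 + 4 * J) :
    Finite (EX K (em e J)).toAffine.Point ∧
      ∀ x : Pool.Agent.TH841.NF.D.Sha (EX K (em e J)), 2 • x = 0 → x = 0 := by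
  classical
  set a := em e aR with ha'
  have ha : a ^ 2 = a - 2 := ema_sq e
  set j := em e J with hj
  have hDj : em e (∏ i ∈ I, π i) = 1 + 4 * j := by
    rw [hJ, map_add, map_mul, map_one, map_ofNat]
  have hD0' : (1 + 4 * j) ≠ 0 := by
    rw [← hDj]
    exact em_ne e hf.sqf.ne_zero
  set W := E2 K j (-((1 + 4 * j) * eB a)) with hW
  have hT : IsT W (cA a (1 + 4 * j)) (cB a (1 + 4 * j)) := isT_E2 ha hD0'
  have hP0 : fR * ∏ i ∈ I, π i ≠ 0 := mul_ne_zero fR_ne hf.sqf.ne_zero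
  have hD0 : em e (fR * ∏ i ∈ I, π i) ≠ 0 := em_ne e hP0
  have hD1 : em e (-(fR * ∏ i ∈ I, π i)) ≠ 0 := em_ne e (neg_ne_zero.2 hP0)
  have card2 : ∀ d : Kˣ, Nat.card ({(1 : Kˣ ⧸ Pool.Agent.Y682.Sq K),
      ((d : Kˣ) : Kˣ ⧸ Pool.Agent.Y682.Sq K)} : Set (Kˣ ⧸ Pool.Agent.Y682.Sq K)) ≤ 2 := by
    intro d
    have h1 : ({(1 : Kˣ ⧸ Pool.Agent.Y682.Sq K), ((d : Kˣ) : Kˣ ⧸ Pool.Agent.Y682.Sq K)} :
        Set (Kˣ ⧸ Pool.Agent.Y682.Sq K)).ncard ≤ 2 := by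
      refine (Set.ncard_insert_le _ _).trans ?_
      rw [Set.ncard_singleton]
    exact h1
  have key : ∀ (d : K) (hd : d ≠ 0) (b : Kˣ), (∃ c : K, (b : K) = c ^ 2 ∨ (b : K) = d * c ^ 2) →
      (b : Kˣ ⧸ Pool.Agent.Y682.Sq K) ∈ ({(1 : Kˣ ⧸ Pool.Agent.Y682.Sq K),
        ((Units.mk0 d hd : Kˣ) : Kˣ ⧸ Pool.Agent.Y682.Sq K)} : Set (Kˣ ⧸ Pool.Agent.Y682.Sq K)) := by
    rintro d hd b ⟨c, hc⟩
    have hc0 : c ≠ 0 := by
      rintro rfl
      rcases hc with hc | hc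
      · rw [zero_pow two_ne_zero] at hc; exact b.ne_zero hc
      · rw [zero_pow two_ne_zero, mul_zero] at hc; exact b.ne_zero hc
    rcases hc with hc | hc
    · left
      have h1 : (1 : Kˣ ⧸ Pool.Agent.Y682.Sq K) = ((1 : Kˣ) : Kˣ ⧸ Pool.Agent.Y682.Sq K) := rfl
      rw [h1, eq_comm, quot_eq]
      refine ⟨Units.mk0 c hc0, Units.ext ?_⟩
      rw [Units.val_mul, Units.val_one, one_mul, Units.val_pow_eq_pow_val, Units.val_mk0, hc]
    · right
      show (b : Kˣ ⧸ Pool.Agent.Y682.Sq K) = ((Units.mk0 d hd : Kˣ) : Kˣ ⧸ Pool.Agent.Y682.Sq K)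
      rw [eq_comm, quot_eq]
      refine ⟨Units.mk0 c hc0, Units.ext ?_⟩
      rw [Units.val_mul, Units.val_pow_eq_pow_val, Units.val_mk0, Units.val_mk0, hc]
  have H1 : ∀ b : Kˣ, LL1 (cA a (1 + 4 * j)) (cB a (1 + 4 * j)) (b : K) →
      (b : Kˣ ⧸ Pool.Agent.Y682.Sq K) ∈ ({(1 : Kˣ ⧸ Pool.Agent.Y682.Sq K),
        ((Units.mk0 _ hD0 : Kˣ) : Kˣ ⧸ Pool.Agent.Y682.Sq K)} :
          Set (Kˣ ⧸ Pool.Agent.Y682.Sq K)) := by
    intro b hb
    apply key _ hD0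
    apply sel1X e hf hg b.ne_zero
    intro v
    rw [hDj]
    exact hb.1 v
  have H2 : ∀ b : Kˣ, LL2 (cA a (1 + 4 * j)) (cB a (1 + 4 * j)) (b : K) →
      (b : Kˣ ⧸ Pool.Agent.Y682.Sq K) ∈ ({(1 : Kˣ ⧸ Pool.Agent.Y682.Sq K),
        ((Units.mk0 _ hD1 : Kˣ) : Kˣ ⧸ Pool.Agent.Y682.Sq K)} :
          Set (Kˣ ⧸ Pool.Agent.Y682.Sq K)) := by
    intro b hb
    apply key _ hD1
    apply sel2X e hf hg b.ne_zero
    intro v
    rw [hDj]
    exact hb.1 v
  have hf1 : Finite ({(1 : Kˣ ⧸ Pool.Agent.Y682.Sq K),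
        ((Units.mk0 _ hD0 : Kˣ) : Kˣ ⧸ Pool.Agent.Y682.Sq K)} :
          Set (Kˣ ⧸ Pool.Agent.Y682.Sq K)) := (Set.toFinite _).to_subtype
  have hf2 : Finite ({(1 : Kˣ ⧸ Pool.Agent.Y682.Sq K),
        ((Units.mk0 _ hD1 : Kˣ) : Kˣ ⧸ Pool.Agent.Y682.Sq K)} :
          Set (Kˣ ⧸ Pool.Agent.Y682.Sq K)) := (Set.toFinite _).to_subtype
  obtain ⟨hfz, hc⟩ := Zc_card hT (Or.inl rfl) H1 H2
  obtain ⟨h3, h4⟩ := Zc_lower hT
  have h6 : Nat.card (Zc W) ≤ 4 := by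
    refine hc.trans ?_
    have k1 := card2 (Units.mk0 _ hD0)
    have k2 := card2 (Units.mk0 _ hD1)
    exact (Nat.mul_le_mul k1 k2).trans (by norm_num)
  have h8 := h4.trans h6
  have hpos : 0 < Nat.card {x : Pool.Agent.TH841.NF.D.Sha W // 2 • x = 0} := by
    have : Nonempty {x : Pool.Agent.TH841.NF.D.Sha W // 2 • x = 0} := ⟨⟨0, smul_zero _⟩⟩
    exact Nat.card_pos
  have hr : Module.finrank ℤ (Pool.Agent.Y682.MP W) = 0 := by
    by_contra hne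
    have h7 : 2 ≤ 2 ^ (Module.finrank ℤ (Pool.Agent.Y682.MP W)) := by
      calc 2 = 2 ^ 1 := by norm_num
        _ ≤ _ := Nat.pow_le_pow_right (by norm_num) (by omega)
    nlinarith
  constructor
  · have hfin : Finite W.toAffine.Point := by
      have hfg : Module.Finite ℤ (Pool.Agent.Y682.MP W) := Pool.Agent.Y682.fg_MP hT
      have htors := Module.finrank_eq_zero_iff_isTorsion.1 hr
      exact Module.finite_of_fg_torsion (Pool.Agent.Y682.MP W) htors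
    exact Finite.of_injective _ (vFe_inj (vchK j (-((1 + 4 * j) * eB a))))
  · refine sha_tr j (-((1 + 4 * j) * eB a)) ?_
    intro x hx
    have h5 : Nat.card {x : Pool.Agent.TH841.NF.D.Sha W // 2 • x = 0} ≤ 1 := by
      have h7 : 1 ≤ 2 ^ (Module.finrank ℤ (Pool.Agent.Y682.MP W)) := Nat.one_le_two_pow
      nlinarith
    have h6 : Subsingleton {x : Pool.Agent.TH841.NF.D.Sha W // 2 • x = 0} :=
      Finite.card_le_one_iff_subsingleton.1 h5
    have h7 := @Subsingleton.elim _ h6 ⟨x, hx⟩ ⟨0, smul_zero _⟩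
    exact congrArg Subtype.val h7

end

end Pool.Agent.H463.QE
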