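import Pool.Graph.R_seed8.R426.QC.Gl
import Pool.Agent.H463.QE.ShrX

/-!
# The product of the Tamagawa numbers and the factorisation of the parameter
-/

set_option autoImplicit false
set_option linter.unusedSectionVars false

attribute [-instance] DivisionRing.toRatAlgebra

open NumberField IsDedekindDomain

namespace Pool.Agent.H463.QE

open Pool.Agent.R426.QC Pool.Agent.R426.QD
open Pool.Agent.Y698 Pool.Agent.Y698.SG
open Pool.Agent.W192.HK (sp)
open WithZero

section

variable {K : Type} [Field K] [NumberField K] (e : RR ≃+* 𝓞 K)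

/-- the product of the Tamagawa numbers -/
theorem cE_prodX {ι : Type} [DecidableEq ι] {I : Finset ι} {π : ι → RR} (hf : Fs I π) :
    {v : HeightOneSpectrum (𝓞 K) | cE e (∏ i ∈ I, π i) v ≠ 1}.Finite ∧
    ∏ᶠ v : HeightOneSpectrum (𝓞 K), cE e (∏ i ∈ I, π i) v = 4 ^ (I.card + 1) := by
  classical
  have hpr : ∀ i ∈ I, Prime (π i) := fun i hi => (hf.e.fa.pn i hi).pr
  set pls : Finset (HeightOneSpectrum (𝓞 K)) :=
    (Finset.univ : Finset I).image (fun l => plc e (hpr l.1 l.2)) with hpls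
  set v7 : HeightOneSpectrum (𝓞 K) := plc e R426.QC.prime_fR with hv7
  have hinj : Function.Injective (fun l : I => (plc e (hpr l.1 l.2) : HeightOneSpectrum (𝓞 K))) := by
    intro a b hab
    by_contra hne
    have h1 := (plc_eq e (hpr a.1 a.2) (hpr b.1 b.2)).1 hab
    exact hf.e.fa.ne b.1 b.2 a.1 a.2 (fun h => hne (Subtype.ext h.symm))
      (Ideal.mem_span_singleton.2 h1.dvd)
  have hcard : pls.card = I.card := by
    rw [hpls, Finset.card_image_of_injective _ hinj, Finset.card_univ, Fintype.card_coe]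
  have hmem : ∀ v : HeightOneSpectrum (𝓞 K), v ∈ insert v7 pls ↔
      e (fR * ∏ i ∈ I, π i) ∈ v.asIdeal := by
    intro v
    rw [Finset.mem_insert, hpls, Finset.mem_image]
    constructor
    · rintro (rfl | ⟨l, -, rfl⟩)
      · exact (plc_mem e _ _).2 (Dvd.intro _ rfl)
      · exact (plc_mem e _ _).2 ((Finset.dvd_prod_of_mem π l.2).mul_left _)
    · intro hv
      obtain ⟨z, hz, rfl⟩ := exists_plc e v
      rcases hz.dvd_or_dvd ((plc_mem e _ _).1 hv) with h1 | h1
      · left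
        exact (plc_eq e hz _).2 (hz.associated_of_dvd R426.QC.prime_fR h1)
      · right
        obtain ⟨l, hl, hzl⟩ := (hz.dvd_finsetProd_iff _).1 h1
        exact ⟨⟨l, hl⟩, Finset.mem_univ _,
          ((plc_eq e hz (hpr l hl)).2 (hz.associated_of_dvd (hpr l hl) hzl)).symm⟩
  have hv7 : v7 ∉ pls := by
    rw [hpls, Finset.mem_image]
    rintro ⟨l, -, hl⟩
    have h1 := (plc_eq e (hpr l.1 l.2) R426.QC.prime_fR).1 hl
    exact hf.h7' l.1 l.2 (Ideal.mem_span_singleton.2 h1.dvd)
  have hval1 : ∀ v ∈ insert v7 pls, cE e (∏ i ∈ I, π i) v = 4 := fun v hv => if_pos ((hmem v).1 hv)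
  have hsub : ∀ v : HeightOneSpectrum (𝓞 K), cE e (∏ i ∈ I, π i) v ≠ 1 → v ∈ insert v7 pls := by
    intro v hv
    by_contra h
    exact hv (if_neg fun h' => h ((hmem v).2 h'))
  refine ⟨(Finset.finite_toSet (insert v7 pls)).subset fun v hv => hsub v hv, ?_⟩
  rw [finprod_eq_prod_of_mulSupport_subset (s := insert v7 pls) _ (fun v hv => hsub v hv),
    Finset.prod_congr rfl hval1, Finset.prod_const, Finset.card_insert_of_notMem hv7, hcard]

end

/-! ### the factorisation of the parameter -/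

lemma zm4 (x : ZMod 4) : x = 0 ∨ x = 1 ∨ x = 2 ∨ x = 3 := by revert x; decide

/-- odd prime elements are normalized up to the sign -/
lemma pn_or {ϖ : RR} (h : Prime ϖ) (h2 : ¬ ϖ ∣ 2) : Pn ϖ ∨ Pn (-ϖ) := by
  have hodd : r4 ϖ ≠ 0 ∧ r4 ϖ ≠ 2 := by
    have key : ¬ aR ∣ ϖ := by
      intro h3
      apply h2
      have h4 := (prime_aR.associated_of_dvd h h3).symm.dvd
      exact h4.trans ⟨Pool.Agent.Y698.cj aR, R426.QC.two_eq⟩
    rw [mem_a] at key
    rw [r4_eq]
    constructor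
    · intro h3
      rw [ZMod.intCast_zmod_eq_zero_iff_dvd] at h3
      omega
    · intro h3
      have h4 : (((cX ϖ + 2 * cY ϖ - 2 : ℤ)) : ZMod 4) = 0 := by
        rw [Int.cast_sub, h3]
        decide
      rw [ZMod.intCast_zmod_eq_zero_iff_dvd] at h4
      omega
  rcases zm4 (r4 ϖ) with h3 | h3 | h3 | h3
  · exact absurd h3 hodd.1
  · exact Or.inl ⟨h, h2, h3⟩
  · exact absurd h3 hodd.2
  · right
    refine ⟨h.neg, fun h4 => h2 ((neg_dvd).1 h4), ?_⟩
    rw [map_neg, h3]
    decide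

/-- squarefree odd elements are products of normalized primes, up to the sign -/
lemma exists_fac (D : RR) : D ≠ 0 → Squarefree D → (∀ z : RR, Prime z → z ∣ D → ¬ z ∣ 2) →
    ∃ S : Finset RR, (∀ ϖ ∈ S, Pn ϖ) ∧ (D = ∏ ϖ ∈ S, ϖ ∨ D = -∏ ϖ ∈ S, ϖ) := by
  classical
  refine UniqueFactorizationMonoid.induction_on_prime D ?_ ?_ ?_
  · intro h
    exact absurd rfl h
  · intro u hu _ _ _
    refine ⟨∅, fun _ h => absurd h (Finset.notMem_empty _), ?_⟩
    rw [Finset.prod_empty]
    exact isUnit_iff.1 hu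
  · intro a p ha hp ih h0 hsq hodd
    have hsqa : Squarefree a := Squarefree.squarefree_of_dvd (Dvd.intro_left _ rfl) hsq
    obtain ⟨S, hS, hprod⟩ := ih ha hsqa fun z hz hza => hodd z hz (hza.mul_left _)
    have hp2 := hodd p hp (Dvd.intro _ rfl)
    obtain ⟨q, hq, hqp⟩ : ∃ q : RR, Pn q ∧ (p = q ∨ p = -q) := by
      rcases pn_or hp hp2 with h1 | h1
      · exact ⟨p, h1, Or.inl rfl⟩
      · exact ⟨-p, h1, Or.inr (neg_neg p).symm⟩
    have hqS : q ∉ S := by
      intro h1
      have h2 : q ∣ a := by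
        rcases hprod with h3 | h3
        · rw [h3]; exact Finset.dvd_prod_of_mem (fun x => x) h1
        · rw [h3, dvd_neg]; exact Finset.dvd_prod_of_mem (fun x => x) h1
      have h3 : q ∣ p := by
        rcases hqp with h4 | h4
        · rw [h4]
        · rw [h4, dvd_neg]
      exact hq.pr.not_isUnit (hsq q (mul_dvd_mul h3 h2))
    refine ⟨insert q S, ?_, ?_⟩
    · intro ϖ hϖ
      rcases Finset.mem_insert.1 hϖ with rfl | h1
      · exact hq
      · exact hS ϖ h1
    · rw [Finset.prod_insert hqS]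
      rcases hqp with h1 | h1 <;> rcases hprod with h2 | h2 <;> rw [h1, h2]
      · exact Or.inl rfl
      · right; ring
      · right; ring
      · left; ring

/-- the normalized primes are determined by their ideals -/
lemma pn_ne {ϖ ϖ' : RR} (h : Pn ϖ) (h' : Pn ϖ') (hne : ϖ ≠ ϖ') : ϖ ∉ sp ϖ' := by
  intro h1
  rw [Ideal.mem_span_singleton] at h1
  have h2 := (h'.pr.associated_of_dvd h.pr h1)
  obtain ⟨u, hu⟩ := h2
  rcases isUnit_iff.1 u.isUnit with h3 | h3
  · rw [h3, mul_one] at hu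
    exact hne hu.symm
  · rw [h3] at hu
    have h4 := congrArg r4 hu
    rw [map_mul, map_neg, map_one, h.r4, h'.r4] at h4
    revert h4
    decide

lemma sign_prod {ι : Type} (π : ι → RR) (T : Finset ι) :
    (∏ i ∈ T, cjp (π i)) = (if ∑ i ∈ T, tp (π i) = 0 then 1 else -1) *
      Pool.Agent.Y698.cj (∏ i ∈ T, π i) := by
  classical
  have h1 : ∀ i ∈ T, cjp (π i) = (if tp (π i) = 0 then 1 else -1) *
      Pool.Agent.Y698.cj (π i) := by
    intro i _
    unfold cjp
    split_ifs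
    · rw [one_mul]
    · rw [neg_one_mul]
  rw [Finset.prod_congr rfl h1, Finset.prod_mul_distrib, map_prod]
  congr 1
  induction T using Finset.induction_on with
  | empty => simp
  | insert a T ha ih =>
    rw [Finset.prod_insert ha, Finset.sum_insert ha, ih (fun i hi => h1 i
      (Finset.mem_insert_of_mem hi))]
    rcases zm2 (tp (π a)) with h | h <;> rcases zm2 (∑ i ∈ T, tp (π i)) with h' | h' <;>
      rw [h, h'] <;> simp (decide := true)

/-- **the parameters are the products over the families** -/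
theorem exists_fs {D J : RR} (hsq : Squarefree (fR * D)) (hJ : D = 1 + 4 * J) :
    ∃ S : Finset RR, Fs S (fun x => x) ∧ D = ∏ ϖ ∈ S, ϖ := by
  have hsqD : Squarefree D := Squarefree.squarefree_of_dvd (Dvd.intro_left _ rfl) hsq
  have hodd : ∀ z : RR, Prime z → z ∣ D → ¬ z ∣ 2 := by
    intro z hz hzD h2
    apply hz.not_isUnit
    have e1 : (1 : RR) = D - 2 * (2 * J) := by rw [hJ]; ring
    exact isUnit_of_dvd_one (by rw [e1]; exact dvd_sub hzD (h2.mul_right _))
  obtain ⟨S, hS, hprod⟩ := exists_fac D hsqD.ne_zero hsqD hodd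
  have hr4D : r4 D = 1 := r4_m4 ⟨J, hJ⟩
  have hr4c : r4 (Pool.Agent.Y698.cj D) = 1 :=
    r4_m4 ⟨Pool.Agent.Y698.cj J, by rw [hJ, map_add, map_mul, map_one, map_ofNat]⟩
  have hr4S : r4 (∏ ϖ ∈ S, ϖ) = 1 := r4_prod fun i hi => (hS i hi).r4
  have hD : D = ∏ ϖ ∈ S, ϖ := by
    rcases hprod with h1 | h1
    · exact h1
    · exfalso
      rw [h1, map_neg, hr4S] at hr4D
      revert hr4D
      decide
  refine ⟨S, ⟨⟨⟨hS, fun i hi j hj hij => pn_ne (hS i hi) (hS j hj) hij⟩, ?_⟩, fun i hi h1 => ?_⟩, hD⟩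
  · have h1 := sign_prod (fun x : RR => x) S
    have h2 : r4 (∏ ϖ ∈ S, cjp ϖ) = 1 := r4_prod fun i hi => (pn_cjp (hS i hi)).r4
    rcases zm2 (∑ ϖ ∈ S, tp ϖ) with h3 | h3
    · exact h3
    · exfalso
      rw [h1, h3, if_neg one_ne_zero, ← hD, map_mul, hr4c, map_neg, map_one] at h2
      revert h2
      decide
  · rw [Ideal.mem_span_singleton] at h1
    have h2 : fR ∣ D := by
      rw [hD]
      exact h1.trans (Finset.dvd_prod_of_mem (fun x => x) hi)
    obtain ⟨c, hc⟩ := h2
    exact R426.QC.prime_fR.not_isUnit (hsq fR ⟨c, by rw [hc]; ring⟩)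

end Pool.Agent.H463.QE
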