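import Pool.Agent.H463.QE.CnvX

/-!
# The order of the torsion group
-/

set_option autoImplicit false
set_option linter.unusedSectionVars false

attribute [-instance] DivisionRing.toRatAlgebra

open NumberField IsDedekindDomain

namespace Pool.Agent.H463.QE

open WithZero WeierstrassCurve
open Pool.Agent.R426.QC Pool.Agent.R426.QD
open Pool.Agent.Y698 Pool.Agent.Y698.SG
open Pool.Agent.Y668 (Wt)
open Pool.Agent.Y682 (IsT MP fg_MP)

/-- the torsion subgroup of a finitely generated abelian group -/
lemma fin_tors (G : Type) [AddCommGroup G] [Module.Finite ℤ G] :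
    Finite (AddCommGroup.torsion G) := by
  have h1 : Module.IsTorsion ℤ (AddSubgroup.toIntSubmodule (AddCommGroup.torsion G)) := by
    rintro ⟨x, hx⟩
    obtain ⟨n, hn, hx'⟩ := (isOfFinAddOrder_iff_nsmul_eq_zero).1 ((AddCommGroup.mem_torsion x).1 hx)
    refine ⟨⟨(n : ℤ), mem_nonZeroDivisors_of_ne_zero (by exact_mod_cast hn.ne')⟩, ?_⟩
    apply Subtype.ext
    show ((n : ℤ) • x : G) = 0
    rw [natCast_zsmul, hx']
  exact Module.finite_of_fg_torsion
    (AddSubgroup.toIntSubmodule (AddCommGroup.torsion G)) h1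

section

variable {F : Type} [Field F] [CharZero F] [DecidableEq F] {w g h : F}

/-- the order of the torsion subgroup -/
theorem WD.tcard (H : WD w g h)
    (hf : Finite (AddCommGroup.torsion (Wt (aw w g) (bw w g)).toAffine.Point)) :
    ∃ m, Odd m ∧ Nat.card (AddCommGroup.torsion (Wt (aw w g) (bw w g)).toAffine.Point) = 4 * m := by
  set G := (Wt (aw w g) (bw w g)).toAffine.Point with hG
  have hval : Function.Injective (fun P : AddCommGroup.torsion G => (P : G)) :=
    Subtype.val_injective
  have hZt : ∀ P ∈ H.Z, P ∈ AddCommGroup.torsion G := by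
    intro P hP
    rw [AddCommGroup.mem_torsion, isOfFinAddOrder_iff_nsmul_eq_zero]
    exact ⟨2, two_pos, by rw [two_nsmul]; exact (H.two P).2 hP⟩
  refine (grp_odd (G := AddCommGroup.torsion G) {P | (P : G) ∈ H.Z} (fun P => ?_) ?_
    (fun Q hQ => ?_)).1
  · show P + P = 0 ↔ (P : G) ∈ H.Z
    rw [← H.two]
    constructor
    · intro h1
      exact congrArg (fun Q : AddCommGroup.torsion G => (Q : G)) h1
    · intro h1
      exact Subtype.ext h1
  · rw [← Set.ncard_image_of_injective _ hval]
    have : (fun P : AddCommGroup.torsion G => (P : G)) '' {P | (P : G) ∈ H.Z} = H.Z := by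
      ext P
      constructor
      · rintro ⟨Q, hQ, rfl⟩
        exact hQ
      · intro hP
        exact ⟨⟨P, hZt P hP⟩, hP, rfl⟩
    rw [this]
    exact H.Zcard
  · apply Subtype.ext
    exact H.nodbl (Q : G) hQ

end

section

variable {L : Type} [Field L] [CharZero L] {j t : L} {W W' : WeierstrassCurve L}
  (S : VchE j t W W') [DecidableEq L]

/-- the isomorphism of the groups of points -/
noncomputable def vEq : W.toAffine.Point ≃+ W'.toAffine.Point :=
  AddEquiv.ofBijective (⟨⟨vFe S, rfl⟩, vFe_add S⟩ : W.toAffine.Point →+ W'.toAffine.Point)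
    ⟨vFe_inj S, vFe_surj S⟩

lemma tors_congr {G G' : Type} [AddCommGroup G] [AddCommGroup G'] (f : G ≃+ G') :
    Nonempty (AddCommGroup.torsion G ≃ AddCommGroup.torsion G') := by
  refine ⟨Equiv.subtypeEquiv f.toEquiv fun x => ?_⟩
  show IsOfFinAddOrder x ↔ IsOfFinAddOrder (f x)
  rw [isOfFinAddOrder_iff_nsmul_eq_zero, isOfFinAddOrder_iff_nsmul_eq_zero]
  refine exists_congr fun n => and_congr_right fun _ => ?_
  rw [← map_nsmul, AddEquiv.map_eq_zero_iff]

end

section

variable {K : Type} [Field K] [NumberField K] (e : RR ≃+* 𝓞 K)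

open scoped Classical in
/-- **the order of the torsion subgroup** -/
theorem card_tors {D J : RR} (hsq : Squarefree (fR * D)) (hJ : D = 1 + 4 * J) :
    Finite (AddCommGroup.torsion (EX K (em e J)).toAffine.Point) ∧
    ∃ m, Odd m ∧ Nat.card (AddCommGroup.torsion (EX K (em e J)).toAffine.Point) = 4 * m := by
  have hD0 : D ≠ 0 := fun h => hsq.ne_zero (by rw [h, mul_zero])
  have hDj : em e D = 1 + 4 * em e J := by
    rw [hJ, map_add, map_mul, map_one, map_ofNat]
  have hDe : (1 + 4 * em e J) ≠ 0 := by rw [← hDj]; exact em_ne e hD0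
  have ha := ema_sq e
  have hn := nsq_D e hsq
  rw [hDj] at hn
  have S := vchK (em e J) (-((1 + 4 * em e J) * eB (em e aR)))
  have hT := isT_E2 (j := em e J) ha hDe
  obtain ⟨φ⟩ := tors_congr (vEq S)
  have hfin : Finite (AddCommGroup.torsion
      (E2 K (em e J) (-((1 + 4 * em e J) * eB (em e aR)))).toAffine.Point) := by
    have _ : Module.Finite ℤ (MP (E2 K (em e J) (-((1 + 4 * em e J) * eB (em e aR))))) := fg_MP hT
    have h1 := fin_tors (MP (E2 K (em e J) (-((1 + 4 * em e J) * eB (em e aR)))))
    exact h1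
  refine ⟨Finite.of_equiv _ φ.symm, ?_⟩
  rw [Nat.card_congr φ]
  rw [E2_Wt ha hDe, cA_aw ha, cB_bw ha] at hfin ⊢
  exact (wd1 ha hDe hn.1 hn.2).tcard hfin

open scoped Classical in
/-- a finite group of points is its torsion subgroup -/
lemma card_tors_fin {W : WeierstrassCurve K} (hf : Finite W.toAffine.Point) :
    Nat.card (AddCommGroup.torsion W.toAffine.Point) = Nat.card W.toAffine.Point := by
  have h1 : AddCommGroup.torsion W.toAffine.Point = ⊤ := by
    rw [eq_top_iff]
    intro x _
    rw [AddCommGroup.mem_torsion]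
    exact isOfFinAddOrder_of_finite x
  rw [h1]
  exact Nat.card_congr AddSubgroup.topEquiv.toEquiv

end

end Pool.Agent.H463.QE
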