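import Pool.Graph.R_seed8.R426.QC.Per
import Pool.Agent.H463.QE.TrsX
import Pool.Agent.H463.QE.TamX
import Pool.Agent.H463.QE.LserX

/-!
# The twists of `X₀(49)` over `ℚ(√-7)` by all `D ≡ 1 mod 4`
-/

set_option autoImplicit false
set_option linter.unusedSectionVars false

attribute [-instance] DivisionRing.toRatAlgebra

open NumberField IsDedekindDomain

namespace Pool.Agent.H463.QE

open WithZero WeierstrassCurve
open Pool.Agent.R426.QC Pool.Agent.R426.QD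
open Pool.Agent.Y698 Pool.Agent.Y698.SG
open Pool.Agent.W192.HK (sp)

/-- the determinant of the set of primes -/
noncomputable def gX (S : Finset RR) : ZMod 2 :=
  Pool.Agent.Y286.SG.gd (mt (pe fun x : RR => x)) (mr (pe fun x : RR => x)) (se S)

/-- the elements of two-power order of a group without elements of order two -/
lemma two_pow_zero {G : Type} [AddCommGroup G] (h : ∀ x : G, 2 • x = 0 → x = 0) (n : ℕ) :
    ∀ x : G, 2 ^ n • x = 0 → x = 0 := by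
  induction n with
  | zero =>
    intro x hx
    rwa [pow_zero, one_smul] at hx
  | succ n ih =>
    intro x hx
    rw [pow_succ, mul_smul] at hx
    exact h x (ih _ hx)

section

variable {K : Type} [Field K] [NumberField K] (e : RR ≃+* 𝓞 K)

/-- the invariants -/
lemma inv_EX (σ : K →+* ℂ) {D J : RR} (hJ : D = 1 + 4 * J) :
    σ (EX K (em e J)).c₄ / 12 = 35 / 4 * σ (em e D) ^ 2 ∧
      σ (EX K (em e J)).c₆ / 216 = 49 / 8 * σ (em e D) ^ 3 := by
  have hDj : em e D = 1 + 4 * em e J := by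
    rw [hJ, map_add, map_mul, map_one, map_ofNat]
  constructor
  · rw [EX_c₄, hDj]
    simp only [map_mul, map_pow, map_ofNat]
    ring
  · have h1 : (EX K (em e J)).c₆ = 1323 * (1 + 4 * em e J) ^ 3 := by
      unfold EX WeierstrassCurve.c₆ WeierstrassCurve.b₆ WeierstrassCurve.b₄ WeierstrassCurve.b₂
      ring
    rw [h1, hDj]
    simp only [map_mul, map_pow, map_ofNat]
    ring

open scoped Classical in
/-- **the main theorem** -/
theorem fullX {D J : RR} (hsq : Squarefree (fR * D)) (hJ : D = 1 + 4 * J) {S : Finset RR}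
    (hf : Fs S (fun x => x)) (hD : D = ∏ ϖ ∈ S, ϖ) :
    (gX S ≠ 0 ↔ (Finite (EX K (em e J)).toAffine.Point ∧
      ∀ (n : ℕ) (x : Pool.Agent.TH841.NF.D.Sha (EX K (em e J))), 2 ^ n • x = 0 → x = 0)) ∧
    ∃ L : ℂ → ℂ, Differentiable ℂ L ∧
      (∀ s : ℂ, 3 / 2 < s.re →
        LSeriesSummable ((fun n : ℤ => (n : ℂ)) ∘ (EX K (em e J)).LFunction) s ∧
          L s = (EX K (em e J)).LSeries s) ∧
      ∀ (σ : K →+* ℂ) (Λ : PeriodPair), Λ.g₂ = σ (EX K (em e J)).c₄ / 12 →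
        Λ.g₃ = σ (EX K (em e J)).c₆ / 216 →
        ∀ (Γ : Type) [LinearOrderedCommGroupWithZero Γ] (w : Valuation ℂ Γ), w 2 < 1 →
          w (L 1 * (Real.sqrt |(discr K : ℝ)| : ℝ) *
            (Nat.card (AddCommGroup.torsion (EX K (em e J)).toAffine.Point) : ℂ) ^ 2 /
            (((2 * |((starRingEnd ℂ) Λ.ω₁ * Λ.ω₂).im| : ℝ) : ℂ) *
              ((∏ᶠ v, cE e D v : ℕ) : ℂ))) ≤ 1 ∧
          (w (L 1 * (Real.sqrt |(discr K : ℝ)| : ℝ) *
            (Nat.card (AddCommGroup.torsion (EX K (em e J)).toAffine.Point) : ℂ) ^ 2 /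
            (((2 * |((starRingEnd ℂ) Λ.ω₁ * Λ.ω₂).im| : ℝ) : ℂ) *
              ((∏ᶠ v, cE e D v : ℕ) : ℂ))) = 1 ↔ gX S ≠ 0) := by
  have hprod : ∏ ϖ ∈ S, ϖ = 1 + 4 * J := by rw [← hD, hJ]
  refine ⟨⟨fun hg => ?_, fun h hg => ?_⟩, ?_⟩
  · obtain ⟨h1, h2⟩ := sha_rankX e hf hg hprod
    exact ⟨h1, two_pow_zero h2⟩
  · refine convX e hf hprod hg ⟨h.1, fun x hx => h.2 1 x ?_⟩
    rwa [pow_one]
  · obtain ⟨F, g1, g2, g3⟩ := val_zX hf.e hf.h7 hf.e.m4
    have hsq' : Squarefree (fR * ∏ ϖ ∈ S, ϖ) := by rw [← hD]; exact hsq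
    refine ⟨fun s => F s * (starRingEnd ℂ) (F ((starRingEnd ℂ) s)),
      g1.mul (Pool.Agent.Y697.MQ.diff_conj g1), fun s hs => lserEX e hf.e hsq' hprod g2 hs, ?_⟩
    intro σ Λ h4 h6 Γ _ w hw
    obtain ⟨i4, i6⟩ := inv_EX e σ hJ
    rw [i4] at h4
    rw [i6] at h6
    obtain ⟨-, t, ht, hcard⟩ := card_tors e hsq hJ
    obtain ⟨-, htam⟩ := cE_prodX e hf
    rw [← hD] at htam
    have hδ : ‖σ (em e D)‖ = ‖((∏ ϖ ∈ S, ϖ : RR) : ℂ)‖ := by
      rw [norm_em e σ D, ← hD]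
    have key := g3 hδ h4 h6 ht Γ w hw
    have e1 : F 1 * (starRingEnd ℂ) (F ((starRingEnd ℂ) 1)) * (Real.sqrt |(discr K : ℝ)| : ℝ) *
            (Nat.card (AddCommGroup.torsion (EX K (em e J)).toAffine.Point) : ℂ) ^ 2 /
            (((2 * |((starRingEnd ℂ) Λ.ω₁ * Λ.ω₂).im| : ℝ) : ℂ) *
              ((∏ᶠ v, cE e D v : ℕ) : ℂ)) = zq (F 1) t Λ S.card := by
      rw [map_one, sqrt_discr7 e, hcard, htam]
      unfold zq
      push_cast
      rfl
    rw [e1]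
    exact key

end

end Pool.Agent.H463.QE
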