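import Pool.Agent.H463.QE.FullX
import Pool.Graph.R_seed8.R426.QC.Fe

/-!
# The matrix of the parameter in the ring of integers
-/

set_option autoImplicit false
set_option linter.unusedSectionVars false

attribute [-instance] DivisionRing.toRatAlgebra

open NumberField IsDedekindDomain

namespace Pool.Agent.H463.QE

open Pool.Agent.R426.QC Pool.Agent.R426.QD
open Pool.Agent.Y698 Pool.Agent.Y698.SG
open Pool.Agent.W192.HK (sp)

open scoped Classical in
/-- `0` if `x` is a square modulo `p` and `1` if it is not -/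
noncomputable def ns {R : Type} [CommRing R] (p x : R) : ZMod 2 :=
  if ∃ y : R, p ∣ y ^ 2 - x then 0 else 1

open scoped Classical in
/-- the matrix -/
noncomputable def MP {R : Type} [CommRing R] (P : Finset R) : Matrix P P (ZMod 2) :=
  Matrix.of fun p q => if p = q then ns (p : R) (-1) + ∑ r ∈ P.erase (p : R), ns r (p : R)
    else ns (q : R) (p : R)

/-- the set of the normalized prime divisors of `(2 a - 1) D` -/
def IsP {R : Type} [CommRing R] (a D : R) (P : Finset R) : Prop :=
  ∀ p : R, p ∈ P ↔ Prime p ∧ p ∣ (2 * a - 1) * D ∧ a ^ 2 ∣ p - 1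

lemma ns_lg {ϖ x : RR} (h : x ∉ sp ϖ) : ns ϖ x = lg (sy ϖ x) := by
  classical
  unfold ns sy
  rw [if_neg h]
  have key : (∃ y : RR, ϖ ∣ y ^ 2 - x) ↔ IsSquare (Ideal.Quotient.mk (sp ϖ) x) := by
    constructor
    · rintro ⟨y, hy⟩
      refine ⟨Ideal.Quotient.mk (sp ϖ) y, ?_⟩
      rw [← map_mul, ← pow_two, eq_comm]
      rw [Ideal.Quotient.eq, Ideal.mem_span_singleton]
      exact hy
    · rintro ⟨d, hd⟩
      obtain ⟨y, rfl⟩ := Ideal.Quotient.mk_surjective d
      refine ⟨y, ?_⟩
      rw [← map_mul, ← pow_two] at hd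
      rw [← Ideal.mem_span_singleton, ← Ideal.Quotient.eq]
      exact hd.symm
  by_cases h1 : IsSquare (Ideal.Quotient.mk (sp ϖ) x)
  · rw [if_pos (key.2 h1), if_pos h1, lg_one]
  · rw [if_neg (fun h2 => h1 (key.1 h2)), if_neg h1, lg_neg_one]

/-- the primes of a family -/
lemma mem_ins {D : RR} {S : Finset RR} (hf : Fs S (fun x => x)) (hD : D = ∏ ϖ ∈ S, ϖ) (q : RR) :
    (q = -fR ∨ q ∈ S) ↔ Prime q ∧ q ∣ (2 * aR - 1) * D ∧ aR ^ 2 ∣ q - 1 := by
  have hfR : fR = 2 * aR - 1 := rfl
  rw [← hfR]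
  constructor
  · rintro (rfl | h)
    · exact ⟨R426.QC.prime_fR.neg, (neg_dvd).2 (Dvd.intro _ rfl), r4_dvd pn_fR.r4⟩
    · have h1 := hf.e.fa.pn q h
      refine ⟨h1.pr, ?_, r4_dvd h1.r4⟩
      rw [hD]
      exact (Finset.dvd_prod_of_mem (fun x => x) h).mul_left _
  · rintro ⟨h1, h2, c, hc⟩
    have hr4 : r4 q = 1 := by
      have h3 : q = 1 + aR ^ 2 * c := by rw [← hc]; ring
      rw [h3, map_add, map_one, map_mul, map_pow, r4_a]
      have : (2 : ZMod 4) ^ 2 = 0 := by decide
      rw [this, zero_mul, add_zero]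
    have key : ∀ p : RR, Pn p → q ∣ p → q = p := by
      intro p hp hqp
      obtain ⟨u, hu⟩ := h1.associated_of_dvd hp.pr hqp
      rcases isUnit_iff.1 u.isUnit with h3 | h3
      · rw [h3, mul_one] at hu
        exact hu
      · rw [h3] at hu
        have h4 := congrArg r4 hu
        rw [map_mul, map_neg, map_one, hr4, hp.r4] at h4
        exact absurd h4 (by decide)
    rcases h1.dvd_or_dvd h2 with h3 | h3
    · left
      exact key _ pn_fR ((dvd_neg).2 h3)
    · right
      rw [hD] at h3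
      obtain ⟨i, hi, hzi⟩ := (h1.dvd_finsetProd_iff _).1 h3
      rw [key i (hf.e.fa.pn i hi) hzi]
      exact hi

open scoped Classical in
/-- **the matrix in the ring of integers** -/
theorem det_MP {R : Type} [CommRing R] (e : RR ≃+* R) {D : RR} {S : Finset RR}
    (hf : Fs S (fun x => x)) (hD : D = ∏ ϖ ∈ S, ϖ) {P : Finset R}
    (hP : IsP (e aR) (e D) P) : (MP P).det = gX S := by
  classical
  have hmem : ∀ q : RR, e q ∈ P ↔ (q = -fR ∨ q ∈ S) := by
    intro q
    rw [mem_ins hf hD, hP]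
    have h1 : (2 * e aR - 1) * e D = e ((2 * aR - 1) * D) := by
      rw [map_mul, map_sub, map_mul, map_one, map_ofNat]
    have h2 : e aR ^ 2 = e (aR ^ 2) := (map_pow e _ _).symm
    have h3 : e q - 1 = e (q - 1) := by rw [map_sub, map_one]
    rw [h1, h2, h3]
    have h4 : ∀ x y : RR, e x ∣ e y ↔ x ∣ y := fun x y => map_dvd_iff e
    rw [h4, h4]
    exact and_congr_left fun _ => (MulEquiv.prime_iff e.toMulEquiv)
  have hnf : (-fR : RR) ∉ S := by
    intro h
    apply hf.h7 _ h
    rw [neg_mem_iff]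
    exact Ideal.mem_span_singleton_self _
  -- the map on the indices
  have hpe : ∀ o : se S, e (pe (fun x : RR => x) (o : Option RR)) ∈ P := by
    rintro ⟨o, ho⟩
    rcases o with _ | i
    · exact (hmem _).2 (Or.inl rfl)
    · exact (hmem _).2 (Or.inr (mem_se.1 ho))
  have hbij : Function.Bijective
      (fun o : se S => (⟨e (pe (fun x : RR => x) (o : Option RR)), hpe o⟩ : P)) := by
    constructor
    · rintro ⟨o, ho⟩ ⟨o', ho'⟩ h
      have h1 : e (pe (fun x : RR => x) o) = e (pe (fun x : RR => x) o') := congrArg Subtype.val h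
      have h2 := e.injective h1
      apply Subtype.ext
      show o = o'
      rcases o with _ | i <;> rcases o' with _ | i'
      · rfl
      · exfalso
        have h3 : -fR = i' := h2
        exact hnf (by rw [h3]; exact mem_se.1 ho')
      · exfalso
        have h3 : i = -fR := h2
        exact hnf (by rw [← h3]; exact mem_se.1 ho)
      · have h3 : i = i' := h2
        rw [h3]
    · rintro ⟨p, hp⟩
      obtain ⟨q, rfl⟩ := e.surjective p
      rcases (hmem q).1 hp with h | h
      · exact ⟨⟨none, none_se⟩, Subtype.ext (congrArg e h.symm)⟩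
      · exact ⟨⟨some q, mem_se.2 h⟩, rfl⟩
  obtain ⟨φ, hφ⟩ : ∃ φ : se S ≃ P, ∀ o, (φ o : R) = e (pe (fun x : RR => x) (o : Option RR)) :=
    ⟨Equiv.ofBijective _ hbij, fun o => rfl⟩
  have hns : ∀ x y : RR, ns (e x) (e y) = ns x y := by
    intro x y
    unfold ns
    have h1 : (∃ z : R, e x ∣ z ^ 2 - e y) ↔ ∃ z : RR, x ∣ z ^ 2 - y := by
      constructor
      · rintro ⟨z, hz⟩
        obtain ⟨z, rfl⟩ := e.surjective z
        refine ⟨z, ?_⟩
        rw [← map_pow, ← map_sub] at hz
        exact (map_dvd_iff e).1 hz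
      · rintro ⟨z, hz⟩
        refine ⟨e z, ?_⟩
        rw [← map_pow, ← map_sub]
        exact (map_dvd_iff e).2 hz
    by_cases h2 : ∃ z : RR, x ∣ z ^ 2 - y
    · rw [if_pos h2, if_pos (h1.2 h2)]
    · rw [if_neg h2, if_neg fun h3 => h2 (h1.1 h3)]
  have hr : ∀ i ∈ se S, ∀ j ∈ se S, i ≠ j →
      mr (pe (fun x : RR => x)) i j = ns (pe (fun x : RR => x) j) (pe (fun x : RR => x) i) := by
    intro i hi j hj hij
    unfold mr
    rw [ns_lg (hf.fa.ne i hi j hj hij)]
  have ht : ∀ i ∈ se S, mt (pe (fun x : RR => x)) i = ns (pe (fun x : RR => x) i) (-1) := by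
    intro i hi
    have h1 := (hf.fa.pn i hi).pr
    unfold mt tp
    rw [ns_lg (neg_one_notin h1)]
  unfold gX Pool.Agent.Y286.SG.gd
  rw [← Matrix.det_submatrix_equiv_self φ]
  congr 1
  ext i j
  unfold MP
  rw [Matrix.submatrix_apply, Matrix.of_apply, Matrix.of_apply]
  by_cases hij : i = j
  · subst hij
    rw [if_pos rfl, if_pos rfl, hφ, ht i i.2]
    have e1 : (-1 : R) = e (-1) := by rw [map_neg, map_one]
    rw [e1, hns]
    congr 1
    symm
    refine Finset.sum_bij (fun k _ => e (pe (fun x : RR => x) k)) ?_ ?_ ?_ ?_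
    · intro k hk
      rw [Finset.mem_erase] at hk ⊢
      refine ⟨fun h => hk.1 ?_, hpe ⟨k, hk.2⟩⟩
      have h2 := hbij.1 (a₁ := ⟨k, hk.2⟩) (a₂ := i) (Subtype.ext h)
      exact congrArg Subtype.val h2
    · intro k hk l hl h
      rw [Finset.mem_erase] at hk hl
      have h2 := hbij.1 (a₁ := ⟨k, hk.2⟩) (a₂ := ⟨l, hl.2⟩) (Subtype.ext h)
      exact congrArg Subtype.val h2
    · intro p hp
      rw [Finset.mem_erase] at hp
      obtain ⟨k, hk⟩ := hbij.2 ⟨p, hp.2⟩
      have h3 : e (pe (fun x : RR => x) (k : Option RR)) = p := congrArg Subtype.val hk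
      refine ⟨k, Finset.mem_erase.2 ⟨fun h => hp.1 ?_, k.2⟩, h3⟩
      rw [← h3, h]
    · intro k hk
      rw [Finset.mem_erase] at hk
      rw [hr i i.2 k hk.2 (Ne.symm hk.1), hns]
  · rw [if_neg (fun h => hij (φ.injective h)), if_neg hij, hφ, hφ, hns,
      hr i i.2 j j.2 (fun h => hij (Subtype.ext h))]

/-- the existence of the set of primes -/
lemma exists_IsP {R : Type} [CommRing R] (e : RR ≃+* R) {D : RR} {S : Finset RR}
    (hf : Fs S (fun x => x)) (hD : D = ∏ ϖ ∈ S, ϖ) : ∃! P : Finset R, IsP (e aR) (e D) P := by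
  classical
  refine ⟨(insert (-fR) S).image e, fun p => ?_, fun P hP => ?_⟩
  · obtain ⟨q, rfl⟩ := e.surjective p
    have h1 : (2 * e aR - 1) * e D = e ((2 * aR - 1) * D) := by
      rw [map_mul, map_sub, map_mul, map_one, map_ofNat]
    have h2 : e aR ^ 2 = e (aR ^ 2) := (map_pow e _ _).symm
    have h3 : e q - 1 = e (q - 1) := by rw [map_sub, map_one]
    rw [h1, h2, h3, map_dvd_iff e, map_dvd_iff e]
    have h4 : e q ∈ (insert (-fR) S).image e ↔ (q = -fR ∨ q ∈ S) := by
      rw [Finset.mem_image]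
      constructor
      · rintro ⟨x, hx, hxq⟩
        rw [← e.injective hxq]
        exact Finset.mem_insert.1 hx
      · intro h
        exact ⟨q, Finset.mem_insert.2 h, rfl⟩
    rw [h4, mem_ins hf hD]
    exact and_congr_left fun _ => (MulEquiv.prime_iff e.toMulEquiv).symm
  · ext p
    rw [hP]
    obtain ⟨q, rfl⟩ := e.surjective p
    have h1 : (2 * e aR - 1) * e D = e ((2 * aR - 1) * D) := by
      rw [map_mul, map_sub, map_mul, map_one, map_ofNat]
    have h2 : e aR ^ 2 = e (aR ^ 2) := (map_pow e _ _).symm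
    have h3 : e q - 1 = e (q - 1) := by rw [map_sub, map_one]
    rw [h1, h2, h3, map_dvd_iff e, map_dvd_iff e]
    have h4 : e q ∈ (insert (-fR) S).image e ↔ (q = -fR ∨ q ∈ S) := by
      rw [Finset.mem_image]
      constructor
      · rintro ⟨x, hx, hxq⟩
        rw [← e.injective hxq]
        exact Finset.mem_insert.1 hx
      · intro h
        exact ⟨q, Finset.mem_insert.2 h, rfl⟩
    rw [h4, mem_ins hf hD]
    exact and_congr_left fun _ => (MulEquiv.prime_iff e.toMulEquiv)

end Pool.Agent.H463.QE
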