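import Pool.Agent.H463.QE.Det
import Pool.Graph.R_seed8.R426.QD.Cnt

/-!
# The weighted sums modulo the primes above two
-/

set_option autoImplicit false
set_option linter.unusedSectionVars false

open Filter
open scoped Topology PeriodPair

namespace Pool.Agent.H463.QE

open Pool.Agent.R426.QC Pool.Agent.R426.QD
open Pool.Agent.Y698 Pool.Agent.Y698.SG
open H667R3 Pool.Agent.W192.HK Pool.Agent.TH936.CM Pool.Agent.TH936.PU

variable {L : PeriodPair} {Ω : ℂ} {Γ : Type*} [LinearOrderedCommGroupWithZero Γ]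
  {v : Valuation ℂ Γ}

lemma r4_zero {x : RR} (h : r4 x = 0) : aR ^ 2 ∣ x := by
  rw [r4_eq, ZMod.intCast_zmod_eq_zero_iff_dvd] at h
  obtain ⟨m, hm⟩ := h
  have hm' : (cX x : RR) + 2 * (cY x : RR) = 4 * (m : RR) := by
    exact_mod_cast congrArg (fun n : ℤ => (n : RR)) hm
  have e := Pool.Agent.Y279.SG.dec x
  refine ⟨(cY x : RR) + (1 - aR) ^ 2 * (m : RR), ?_⟩
  conv_lhs => rw [e]
  have h4 : aR ^ 2 * (1 - aR) ^ 2 = 4 := by
    linear_combination (aR ^ 2 - aR - 2) * aR_sq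
  linear_combination hm' - (cY x : RR) * aR_sq - (m : RR) * h4

/-- the factors of the recursion -/
lemma rd_fac (hv : v al < 1) {ϖ : RR} (h : Pn ϖ) {κ : ℂ} (hκ : κ = 1 ∨ κ = -1) :
    Rd v (((ϖ : ℂ) - κ) / 2) (lg κ) := by
  have t2 := v_two_lt hv
  have h1 : aR ^ 2 ∣ ϖ - 1 := r4_zero (by rw [map_sub, map_one, h.r4, sub_self])
  obtain ⟨c, hc⟩ := h1
  have h2 : (ϖ : ℂ) - 1 = al ^ 2 * (c : ℂ) := by
    have := congrArg (fun r : RR => (r : ℂ)) hc
    push_cast at this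
    rw [aR_coe] at this
    exact this
  have h3 : Rd v (((ϖ : ℂ) - 1) / 2) 0 := by
    rw [Rd.zero_iff, h2, map_div₀, map_mul, map_pow, v_two hv]
    have h4 : v al ≠ 0 := (Valuation.ne_zero_iff v).2 (by
      intro h0
      have := al_mul_bl
      rw [h0, zero_mul] at this
      exact two_ne_zero this.symm)
    have h5 : v al ^ 2 * v (c : ℂ) / v al = v al * v (c : ℂ) := by
      rw [pow_two]
      field_simp
    rw [h5]
    exact mul_lt_one_of_lt_of_le hv (v_RR hv c)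
  rcases hκ with rfl | rfl
  · rw [lg_one]
    exact h3
  · rw [lg_neg_one]
    have e : ((ϖ : ℂ) - -1) / 2 = ((ϖ : ℂ) - 1) / 2 + 1 := by ring
    rw [e]
    have := Rd.add t2 h3 (Rd.one (v := v))
    rwa [zero_add] at this

/-- the types -/
noncomputable def mt {ι : Type} (π : ι → RR) (i : ι) : ZMod 2 := tp (π i)

/-- **the weighted sums** -/
theorem rd_Bd {ι : Type} [DecidableEq ι] {N : RR} {W : ℂ → ℂ} (hv : v al < 1)
    (hW : Ds L Ω N (fun c : RR => (c : ℂ)) W) (hL : IsLat L RR Ω) (hodd : ∀ z, W (-z) = -W z)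
    (hW1 : ∀ z, (N : ℂ) * z ∈ L.lattice → z ∉ L.lattice → Rd v (W z) 1)
    {π : ι → RR} {S0 : Finset ι} (hS0 : Fa S0 π) (hN : ∏ i ∈ S0, π i ∣ N)
    (S : Finset ι) (hSS : S ⊆ S0) (hne : S.Nonempty) :
    Rd v (Bd Ω W (∏ i ∈ S, π i) (fun m => ∏ i ∈ S, sy (π i) m) / 2 ^ S.card)
      (Pool.Agent.Y286.SG.gd (mt π) (mr π) S) := by
  have t2 := v_two_lt hv
  have h00 : Bd Ω W (∏ i ∈ (∅ : Finset ι), π i) (fun m => ∏ i ∈ (∅ : Finset ι), sy (π i) m) = 0 := by
    refine Bd_even hW hL hodd (by simp) ?_ ?_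
    · intro a b _
      simp
    · intro x
      simp
  induction S using Finset.strongInduction with
  | H S ih =>
    have hS := hS0.mono hSS
    have hNS : ∏ i ∈ S, π i ∣ N := (Finset.prod_dvd_prod_of_subset S S0 π hSS).trans hN
    have h2 := Bd_subsets hW hL S hS hNS
    rw [← Finset.add_sum_erase _ _ (Finset.mem_powerset_self S), Finset.sdiff_self,
      Finset.prod_empty, one_mul] at h2
    set a := Bd Ω W (∏ i ∈ S, π i) (fun m => ∏ i ∈ S, sy (π i) m) with ha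
    set Y := Bd Ω W (∏ i ∈ S, π i) (fun m => ∏ i ∈ S, hc (π i) m) with hY
    have hvY : Rd v Y (∏ i ∈ S, tp (π i)) := rd_hc hL hv hW1 hS hne hNS
    have h20 : (2 : ℂ) ^ S.card ≠ 0 := pow_ne_zero _ two_ne_zero
    set t : Finset ι → ℂ := fun A =>
      (∏ i ∈ S \ A, (((π i : ℂ) - ∏ j ∈ A, sy (π j) (π i)) / 2)) *
      (Bd Ω W (∏ i ∈ A, π i) (fun m => ∏ i ∈ A, sy (π i) m) / 2 ^ A.card) with ht
    have ht1 : ∀ A ∈ S.powerset.erase S, (∏ i ∈ S \ A, ((π i : ℂ) -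
        ∏ j ∈ A, sy (π j) (π i))) *
        Bd Ω W (∏ i ∈ A, π i) (fun m => ∏ i ∈ A, sy (π i) m) =
        (2 ^ S.card) * t A := by
      intro A hA
      rw [Finset.mem_erase, Finset.mem_powerset] at hA
      have hcs : S.card = (S \ A).card + A.card := (Finset.card_sdiff_add_card_eq_card hA.2).symm
      rw [ht]
      beta_reduce
      rw [Finset.prod_div_distrib, Finset.prod_const, hcs, pow_add]
      field_simp
    rw [Finset.sum_congr rfl ht1, ← Finset.mul_sum] at h2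
    have h3 : a / 2 ^ S.card = Y + -∑ A ∈ S.powerset.erase S, t A := by
      have : a = 2 ^ S.card * Y - (2 ^ S.card) * ∑ A ∈ S.powerset.erase S, t A := by
        linear_combination h2
      rw [this]
      field_simp
      ring
    have h4 : Pool.Agent.Y286.SG.gd (mt π) (mr π) S = ∏ i ∈ S, tp (π i) +
        ∑ A ∈ S.powerset.erase S,
        (∏ i ∈ S \ A, ∑ j ∈ A, mr π i j) * Pool.Agent.Y286.SG.gd (mt π) (mr π) A := by
      have h5 := rec_tree (mt π) (mr π) S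
      rw [← Finset.add_sum_erase _ _ (Finset.mem_powerset_self S), Finset.sdiff_self,
        Finset.prod_empty, mul_one] at h5
      have h6 : ∀ x : ZMod 2, x + x = 0 := by decide
      have h7 : ∑ A ∈ S.powerset.erase S,
        (∏ i ∈ S \ A, ∑ j ∈ A, mr π i j) * Pool.Agent.Y286.SG.gd (mt π) (mr π) A =
        ∑ A ∈ S.powerset.erase S,
          Pool.Agent.Y286.SG.gd (mt π) (mr π) A * ∏ i ∈ S \ A, ∑ j ∈ A, mr π i j :=
        Finset.sum_congr rfl fun A _ => mul_comm _ _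
      have h8 : ∏ i ∈ S, tp (π i) = ∏ i ∈ S, mt π i := rfl
      rw [h7, h8]
      linear_combination h5 - h6 (∑ A ∈ S.powerset.erase S,
          Pool.Agent.Y286.SG.gd (mt π) (mr π) A * ∏ i ∈ S \ A, ∑ j ∈ A, mr π i j)
    rw [h3, h4]
    refine Rd.add t2 hvY (Rd.neg t2 (Rd.sum t2 fun A hA => ?_))
    rw [Finset.mem_erase, Finset.mem_powerset] at hA
    rw [ht]
    beta_reduce
    rcases A.eq_empty_or_nonempty with rfl | hAne
    · rw [h00, zero_div, mul_zero, Finset.sdiff_empty]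
      obtain ⟨i, hi⟩ := hne
      have e : ∏ i ∈ S, ∑ j ∈ (∅ : Finset ι), mr π i j = 0 :=
        Finset.prod_eq_zero hi Finset.sum_empty
      rw [e, zero_mul, Rd.zero_iff, map_zero]
      exact zero_lt_one
    · refine Rd.mul (Rd.prod fun i hi => ?_)
        (ih A (Finset.ssubset_iff_subset_ne.2 ⟨hA.2, hA.1⟩) (hA.2.trans hSS) hAne)
      rw [Finset.mem_sdiff] at hi
      have h9 := sgn_prod (s := A) (f := fun j => sy (π j) (π i)) fun j hj =>
        sy_sgn (hS.ne i hi.1 j (hA.2 hj) (fun h => hi.2 (h ▸ hj)))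
      have h10 : ∑ j ∈ A, mr π i j = lg (∏ j ∈ A, sy (π j) (π i)) := h9.2.symm
      rw [h10]
      exact rd_fac hv (hS.pn i hi.1) h9.1

/-- the valuations -/
theorem v_Bd {ι : Type} [DecidableEq ι] {N : RR} {W : ℂ → ℂ} (hv : v al < 1)
    (hW : Ds L Ω N (fun c : RR => (c : ℂ)) W) (hL : IsLat L RR Ω) (hodd : ∀ z, W (-z) = -W z)
    (hW1 : ∀ z, (N : ℂ) * z ∈ L.lattice → z ∉ L.lattice → Rd v (W z) 1)
    {π : ι → RR} {S : Finset ι} (hS : Fa S π) (hN : ∏ i ∈ S, π i ∣ N) (hne : S.Nonempty) :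
    (Pool.Agent.Y286.SG.gd (mt π) (mr π) S ≠ 0 →
      v (Bd Ω W (∏ i ∈ S, π i) (fun m => ∏ i ∈ S, sy (π i) m)) = v 2 ^ S.card) ∧
    (Pool.Agent.Y286.SG.gd (mt π) (mr π) S = 0 →
      v (Bd Ω W (∏ i ∈ S, π i) (fun m => ∏ i ∈ S, sy (π i) m)) < v 2 ^ S.card) := by
  have h := rd_Bd hv hW hL hodd hW1 hS hN S (Finset.Subset.refl S) hne
  have h20 : v 2 ^ S.card ≠ 0 := pow_ne_zero _ ((Valuation.ne_zero_iff v).2 two_ne_zero)
  constructor
  · intro hg
    have hg1 := (zm2 _).resolve_left hg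
    rw [hg1, Rd.one_iff] at h
    set b := Bd Ω W (∏ i ∈ S, π i) (fun m => ∏ i ∈ S, sy (π i) m) with hb
    have h2 : v (b / 2 ^ S.card) = 1 := by
      have e : b / 2 ^ S.card = 1 + (b / 2 ^ S.card - 1) := by ring
      rw [e, Valuation.map_add_eq_of_lt_left v (by rw [map_one]; exact h), map_one]
    rw [map_div₀, map_pow] at h2
    exact (div_eq_one_iff_eq h20).1 h2
  · intro hg
    rw [hg, Rd.zero_iff, map_div₀, map_pow] at h
    rwa [div_lt_one₀ (zero_lt_iff.2 h20)] at h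

end Pool.Agent.H463.QE
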