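import Pool.Agent.H463.QE.SolX

/-!
# Everywhere locally soluble classes, general twists
-/

set_option autoImplicit false
set_option linter.unusedSectionVars false

attribute [-instance] DivisionRing.toRatAlgebra

open NumberField IsDedekindDomain

namespace Pool.Agent.H463.QE

open WithZero
open Pool.Agent.R426.QC Pool.Agent.R426.QD
open Pool.Agent.Y698 Pool.Agent.Y698.SG
open Pool.Agent.W192.HK (sp)
open Pool.Agent.Y682 (vv vv_coe charZero_adic exists_sqrt exists_sqrt')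
open Pool.Agent.R426.QC.Cv (LocI)

lemma sy_sqr {ϖ x : RR} (h : sy ϖ x = 1) : ¬ ϖ ∣ x ∧ ∃ y : RR, ϖ ∣ y ^ 2 - x := by
  have h1 : x ∉ sp ϖ := by
    intro h1
    unfold sy at h
    rw [if_pos h1] at h
    exact zero_ne_one h
  refine ⟨fun h2 => h1 (Ideal.mem_span_singleton.2 h2), ?_⟩
  unfold sy at h
  rw [if_neg h1] at h
  by_cases h2 : IsSquare (Ideal.Quotient.mk (sp ϖ) x)
  · obtain ⟨d, hd⟩ := h2
    obtain ⟨y, rfl⟩ := Ideal.Quotient.mk_surjective d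
    refine ⟨y, ?_⟩
    rw [← map_mul, ← pow_two] at hd
    rw [← Ideal.mem_span_singleton, ← Ideal.Quotient.eq]
    exact hd.symm
  · rw [if_neg h2] at h
    norm_num at h

lemma fs_sub {ι : Type} {S T : Finset ι} {π : ι → RR} (hf : Fs S π) (hT : T ⊆ S) :
    r4 (∏ i ∈ T, π i) = 1 ∧ (r4 (cj (∏ i ∈ T, π i)) = 1 ∨ r4 (cj (∏ i ∈ T, π i)) = -1) ∧
      ∏ i ∈ T, π i ≠ 0 := by
  refine ⟨r4_prod fun i hi => (hf.e.fa.pn i (hT hi)).r4, ?_,
    Finset.prod_ne_zero_iff.2 fun i hi => (hf.e.fa.pn i (hT hi)).pr.ne_zero⟩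
  have h1 : r4 (cj (∏ i ∈ T, ps (π i))) = 1 := by
    rw [map_prod]
    refine r4_prod fun i hi => ?_
    rw [cj_ps]
    exact (pn_cjp (hf.e.fa.pn i (hT hi))).r4
  rcases prod_ps_sign T π with h2 | h2
  · rw [h2] at h1
    exact Or.inl h1
  · rw [h2, map_neg, map_neg] at h1
    right
    rw [← h1, neg_neg]

section

variable {K : Type} [Field K] [NumberField K] (e : RR ≃+* 𝓞 K)

/-- **the classes with local points everywhere** -/
theorem sol_allX {ι : Type} [DecidableEq ι] {S T : Finset ι} {π : ι → RR} (hf : Fs S π)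
    (hT : T ⊆ S) (h1 : ∀ i ∈ S, i ∉ T → sy (π i) (∏ j ∈ T, π j) = 1)
    (h2 : ∀ i ∈ T, sy (π i) (-fR * ∏ j ∈ S \ T, π j) = 1)
    (h3 : sy fR (∏ j ∈ T, π j) = 1) (v : HeightOneSpectrum (𝓞 K)) :
    LocI K (v.adicCompletion K) (cA (em e aR) (em e (∏ i ∈ S, π i)))
      (cB (em e aR) (em e (∏ i ∈ S, π i))) (em e (∏ i ∈ T, π i)) := by
  obtain ⟨r1, r2, hd0⟩ := fs_sub hf hT
  have hD0 : ∏ i ∈ S, π i ≠ 0 := hf.sqf.ne_zero
  obtain ⟨z, hz, rfl⟩ := exists_plc e v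
  -- square roots
  have hsq : ∀ {z : RR} (hz : Prime z), ¬ z ∣ 2 → sy z (∏ j ∈ T, π j) = 1 →
      LocI K ((plc e hz).adicCompletion K) (cA (em e aR) (em e (∏ i ∈ S, π i)))
        (cB (em e aR) (em e (∏ i ∈ S, π i))) (em e (∏ i ∈ T, π i)) := by
    intro z hz h2' h
    obtain ⟨h4, y, hy⟩ := sy_sqr h
    obtain ⟨s, hs⟩ := sqrt_res e hz h2' h4 hy
    exact sol_sqE e _ hd0 hs
  by_cases hz2 : z ∣ 2
  · have h4 : z ∣ aR * cj aR := by rwa [← R426.QC.two_eq]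
    rcases hz.dvd_or_dvd h4 with h5 | h5
    · have h6 : plc e hz = plc e prime_aR :=
        (plc_eq e hz prime_aR).2 (hz.associated_of_dvd prime_aR h5)
      rw [h6]
      exact sol_aX e r1 hf.e.m4 hd0 hD0 prime_aR
    · have h6 : plc e hz = plc e prime_cja :=
        (plc_eq e hz prime_cja).2 (hz.associated_of_dvd prime_cja h5)
      rw [h6]
      exact sol_bX e r2 hf.e.m4 hd0 hD0 prime_cja
  by_cases hz7 : z ∣ fR
  · have h6 : plc e hz = plc e R426.QC.prime_fR :=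
      (plc_eq e hz _).2 (hz.associated_of_dvd R426.QC.prime_fR hz7)
    rw [h6]
    exact hsq _ two_fR h3
  by_cases hzD : z ∣ ∏ i ∈ S, π i
  · obtain ⟨i, hi, h5⟩ := (hz.dvd_finsetProd_iff _).1 hzD
    have hpi := hf.e.fa.pn i hi
    have h6 : plc e hz = plc e hpi.pr := (plc_eq e hz _).2 (hz.associated_of_dvd hpi.pr h5)
    rw [h6]
    by_cases hiT : i ∈ T
    · obtain ⟨h4, y, hy⟩ := sy_sqr (h2 i hiT)
      obtain ⟨s, hs⟩ := sqrt_res e hpi.pr hpi.od h4 hy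
      refine loc_tor (ema_sq e) (s := s * pk e (plc e hpi.pr) (∏ j ∈ T, π j))
        (pk_ne e (plc e hpi.pr) hd0) (em_ne e hD0) ?_
      rw [mul_pow, hs, ← Finset.prod_sdiff hT]
      unfold pk
      simp only [map_neg, map_mul, em_fR]
      ring
    · exact hsq hpi.pr hpi.od (h1 i hi hiT)
  · refine sol_goodE e hz hz2 (fun h4 => hzD (h4.trans (Finset.prod_dvd_prod_of_subset _ _ _ hT)))
      fun h4 => ?_
    rcases hz.dvd_or_dvd h4 with h5 | h5
    · exact hz7 h5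
    · exact hzD h5

/-- the combinatorial form -/
theorem sol_gdX {ι : Type} [DecidableEq ι] {S : Finset ι} {π : ι → RR} (hf : Fs S π)
    (hg : Pool.Agent.Y286.SG.gd (mt (pe π)) (mr (pe π)) (se S) = 0) :
    ∃ T : Finset ι, T ⊆ S ∧ T.Nonempty ∧ ∀ v : HeightOneSpectrum (𝓞 K),
      LocI K (v.adicCompletion K) (cA (em e aR) (em e (∏ i ∈ S, π i)))
        (cB (em e aR) (em e (∏ i ∈ S, π i))) (em e (∏ i ∈ T, π i)) := by
  rw [← gd_tr hf.sr] at hg
  obtain ⟨T', hT', hne, hn, g1, g2⟩ := lin_ex hf.sr.tr hg none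
  obtain ⟨T, hTd⟩ : ∃ T : Finset ι, T = S.filter fun i => some i ∈ T' := ⟨_, rfl⟩
  have hT : T ⊆ S := by rw [hTd]; exact Finset.filter_subset _ _
  have hmem : ∀ i, i ∈ T ↔ some i ∈ T' := by
    intro i
    rw [hTd, Finset.mem_filter]
    exact ⟨fun h => h.2, fun h => ⟨mem_se.1 (hT' h), h⟩⟩
  have sumT : ∀ f : Option ι → ZMod 2, ∑ o ∈ T', f o = ∑ i ∈ T, f (some i) := by
    intro f
    have h1 : ∑ o ∈ T', f o = ∑ o ∈ se S, (if o ∈ T' then f o else 0) := by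
      rw [← Finset.sum_filter]
      congr 1
      ext o
      rw [Finset.mem_filter]
      exact ⟨fun h => ⟨hT' h, h⟩, fun h => h.2⟩
    rw [h1, se_sumZ, if_neg hn, zero_add]
    have h2 : ∀ i ∈ S, (if some i ∈ T' then f (some i) else 0) =
        if i ∈ T then f (some i) else 0 := by
      intro i _
      by_cases h3 : i ∈ T
      · rw [if_pos ((hmem i).1 h3), if_pos h3]
      · rw [if_neg (fun h => h3 ((hmem i).2 h)), if_neg h3]
    rw [Finset.sum_congr rfl h2, ← Finset.sum_filter]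
    congr 1
    ext i
    rw [Finset.mem_filter]
    exact ⟨fun h => h.2, fun h => ⟨hT h, h⟩⟩
  have sumC : ∀ f : Option ι → ZMod 2, ∑ o ∈ se S \ T', f o =
      f none + ∑ i ∈ S \ T, f (some i) := by
    intro f
    have h1 : ∑ o ∈ se S \ T', f o + ∑ o ∈ T', f o = ∑ o ∈ se S, f o :=
      Finset.sum_sdiff hT'
    have h2 : ∑ i ∈ S \ T, f (some i) + ∑ i ∈ T, f (some i) = ∑ i ∈ S, f (some i) :=
      Finset.sum_sdiff hT
    rw [sumT, se_sumZ, ← h2] at h1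
    linear_combination h1
  have hprod : ∀ {ϖ : RR}, Pn ϖ → ∀ U : Finset ι, (∀ j ∈ U, π j ∉ sp ϖ) →
      (∏ j ∈ U, sy ϖ (π j) = 1 ∨ ∏ j ∈ U, sy ϖ (π j) = -1) ∧
        lg (∏ j ∈ U, sy ϖ (π j)) = ∑ j ∈ U, lg (sy ϖ (π j)) := fun _ U h =>
    sgn_prod fun j hj => sy_sgn (h j hj)
  refine ⟨T, hT, ?_, fun v => sol_allX e hf hT (fun i hi hiT => ?_) (fun i hiT => ?_) ?_ v⟩
  · obtain ⟨o, ho⟩ := hne
    rcases o with _ | i
    · exact absurd ho hn
    · exact ⟨i, (hmem i).2 ho⟩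
  · have h1 := g1 (some i) (mem_se.2 hi) fun h => hiT ((hmem i).2 h)
    rw [sumT] at h1
    have hpi := hf.e.fa.pn i hi
    have hnm : ∀ j ∈ T, π j ∉ sp (π i) := fun j hj =>
      hf.e.fa.ne j (hT hj) i hi (fun h => hiT (h ▸ hj))
    obtain ⟨h2, h3⟩ := hprod hpi T hnm
    rw [Pn.syprod hpi]
    refine eq_of_lg h2 (Or.inl rfl) ?_
    rw [h3, lg_one, ← h1]
    rfl
  · have hi := hT hiT
    have h1 := g2 (some i) (mem_se.2 hi) ((hmem i).1 hiT)
    rw [sumC] at h1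
    have hpi := hf.e.fa.pn i hi
    have hnm : ∀ j ∈ S \ T, π j ∉ sp (π i) := fun j hj => by
      rw [Finset.mem_sdiff] at hj
      exact hf.e.fa.ne j hj.1 i hi (fun h => hj.2 (h ▸ hiT))
    obtain ⟨h2, h3⟩ := hprod hpi (S \ T) hnm
    have hsf : sy (π i) (-fR) = 1 ∨ sy (π i) (-fR) = -1 := sy_sgn (by
      rw [neg_mem_iff]
      exact hf.h7' i hi)
    rw [hpi.mul, Pn.syprod hpi]
    refine eq_of_lg (sgn_mul hsf h2) (Or.inl rfl) ?_
    rw [lg_mul hsf h2, h3, lg_one, ← h1]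
    rfl
  · have h1 := g1 none none_se hn
    rw [sumT] at h1
    have hnm : ∀ j ∈ T, π j ∉ sp (-fR) := fun j hj => by
      rw [show sp (-fR) = sp fR from Ideal.span_singleton_neg fR]
      exact hf.h7 j (hT hj)
    obtain ⟨h2, h3⟩ := hprod pn_fR T hnm
    rw [← sy_negm, Pn.syprod pn_fR]
    refine eq_of_lg h2 (Or.inl rfl) ?_
    rw [h3, lg_one, ← h1]
    rfl

end

end Pool.Agent.H463.QE
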