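import Pool.Graph.R_seed8.Y542.SGT.Tor
import Pool.Graph.R_seed8.R426.QC.Cvb
import Pool.Graph.R_seed8.R426.QC.Shr

/-!
# Points of finite order on `y² = x (x - w) (x - w g⁴)`, `g⁴ + h⁴ = 1`
-/

set_option autoImplicit false
set_option linter.unusedSectionVars false

namespace Pool.Agent.H463.QE

open WeierstrassCurve Pool.Agent.Y668
open Pool.Agent.Y542.SGT (ns_of fin_iso)

/-- finite groups in which no element of order two is a double -/
lemma grp_odd {G : Type} [AddCommGroup G] [Finite G] (Z : Set G) (hZ : ∀ P : G, P + P = 0 ↔ P ∈ Z)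
    (hc : Z.ncard = 4) (h : ∀ Q : G, Q + Q ∈ Z → Q + Q = 0) :
    (∃ m, Odd m ∧ Nat.card G = 4 * m) ∧ ∀ P : G, ∃ T ∈ Z, ∃ Q, P = T + (Q + Q) := by
  let f : G →+ G := AddMonoidHom.id _ + AddMonoidHom.id _
  have hfa : ∀ Q, f Q = Q + Q := fun Q => rfl
  have hker : (f.ker : Set G) = Z := by
    ext Q
    simp only [SetLike.mem_coe, AddMonoidHom.mem_ker, hfa]
    exact hZ Q
  have hcard : Nat.card f.ker = 4 := by
    have : Nat.card f.ker = Nat.card (f.ker : Set G) := rfl
    rw [this, hker, Nat.card_coe_set_eq, hc]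
  have hidx : Nat.card G = 4 * Nat.card f.range := by
    have h1 := f.ker.card_mul_index
    rw [AddSubgroup.index_ker, hcard] at h1
    exact h1.symm
  have hcap : ∀ R : G, R ∈ f.range → R + R = 0 → R = 0 := by
    rintro R ⟨Q, hQ⟩ hR
    rw [hfa] at hQ
    rw [← hQ] at hR ⊢
    exact h Q ((hZ _).1 hR)
  refine ⟨⟨Nat.card f.range, ?_, hidx⟩, fun P => ?_⟩
  · rw [← Nat.not_even_iff_odd, even_iff_two_dvd]
    intro h2
    have _ : Fact (Nat.Prime 2) := ⟨Nat.prime_two⟩
    obtain ⟨x, hx⟩ := exists_prime_addOrderOf_dvd_card' (G := f.range) 2 h2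
    have h3 : (2 : ℕ) • x = 0 := by rw [← hx]; exact addOrderOf_nsmul_eq_zero x
    have h4 : (x : G) + (x : G) = 0 := by
      have h5 := congrArg (fun y : f.range => (y : G)) h3
      simpa [two_nsmul] using h5
    have h5 := hcap x x.2 h4
    have h6 : x = 0 := Subtype.ext h5
    rw [h6, addOrderOf_zero] at hx
    norm_num at hx
  · let φ : f.ker × f.range → G := fun p => (p.1 : G) + (p.2 : G)
    have hinj : Function.Injective φ := by
      rintro ⟨a, b⟩ ⟨a', b'⟩ hab
      have h1 : (a : G) + (b : G) = (a' : G) + (b' : G) := hab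
      have h2 : (b : G) - (b' : G) = (a' : G) - (a : G) := by
        rw [sub_eq_sub_iff_add_eq_add, add_comm]
        rw [h1]
        try rfl
      have h3 : (b : G) - (b' : G) = 0 := by
        apply hcap _ (f.range.sub_mem b.2 b'.2)
        rw [h2]
        exact f.ker.sub_mem a'.2 a.2
      have h4 : (b : G) = b' := sub_eq_zero.1 h3
      rw [h4] at h1
      have h5 : (a : G) = a' := add_right_cancel h1
      exact Prod.ext (Subtype.ext h5) (Subtype.ext h4)
    have hb := hinj.bijective_of_nat_card_le (by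
      rw [Nat.card_prod, hcard, hidx])
    obtain ⟨⟨a, b⟩, hab⟩ := hb.2 P
    obtain ⟨Q, hQ⟩ := b.2
    refine ⟨a, ?_, Q, ?_⟩
    · rw [← hker]
      exact a.2
    · rw [← hab, ← hfa, hQ]

variable {F : Type} [Field F] [CharZero F]

/-- the data -/
structure WD (w g h : F) : Prop where
  w0 : w ≠ 0
  g0 : g ≠ 0
  h0 : h ≠ 0
  gh : g ^ 4 + h ^ 4 = 1
  nw : ¬ IsSquare w
  nw' : ¬ IsSquare (-w)

/-- the coefficients -/
def aw (w g : F) : F := -(w * (1 + g ^ 4))

/-- the coefficients -/
def bw (w g : F) : F := w ^ 2 * g ^ 4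

variable {w g h : F}

lemma WD.b0 (H : WD w g h) : bw w g ≠ 0 := mul_ne_zero (pow_ne_zero 2 H.w0) (pow_ne_zero 4 H.g0)

lemma WD.d0 (H : WD w g h) : (aw w g) ^ 2 - 4 * bw w g ≠ 0 := by
  have h1 : (aw w g) ^ 2 - 4 * bw w g = (w * h ^ 4) ^ 2 := by
    have h2 : h ^ 4 = 1 - g ^ 4 := by linear_combination H.gh
    unfold aw bw
    rw [h2]
    ring
  rw [h1]
  exact pow_ne_zero 2 (mul_ne_zero H.w0 (pow_ne_zero 4 H.h0))

lemma WD.fac {x : F} : x ^ 3 + aw w g * x ^ 2 + bw w g * x = x * (x - w) * (x - w * g ^ 4) := by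
  unfold aw bw
  ring

/-- the points of order two -/
noncomputable def WD.pt (H : WD w g h) (x : F) (hx : x * (x - w) * (x - w * g ^ 4) = 0) :
    (Wt (aw w g) (bw w g)).toAffine.Point :=
  Affine.Point.some x 0 (ns_of H.b0 H.d0 (by
    have : x ^ 3 + aw w g * x ^ 2 + bw w g * x = 0 := by
      unfold aw bw
      linear_combination hx
    rw [this]
    ring))

/-- the set of the points of order dividing two -/
noncomputable def WD.Z (H : WD w g h) : Set (Wt (aw w g) (bw w g)).toAffine.Point :=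
  {0, H.pt 0 (by ring), H.pt w (by ring), H.pt (w * g ^ 4) (by ring)}

lemma WD.g1 (H : WD w g h) : g ^ 4 ≠ 1 := by
  intro h1
  have h2 := H.gh
  rw [h1] at h2
  exact H.h0 (pow_eq_zero_iff (n := 4) (by norm_num) |>.1 (by linear_combination h2))

lemma WD.pt_ne (H : WD w g h) {x x' : F} (hx : x * (x - w) * (x - w * g ^ 4) = 0)
    (hx' : x' * (x' - w) * (x' - w * g ^ 4) = 0) (hne : x ≠ x') : H.pt x hx ≠ H.pt x' hx' := by
  intro h1
  unfold WD.pt at h1
  exact hne ((Affine.Point.some.injEq _ _ _ _ _ _).mp h1).1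

lemma WD.Zcard (H : WD w g h) : H.Z.ncard = 4 := by
  have hw := H.w0
  have hg : w * g ^ 4 ≠ 0 := mul_ne_zero H.w0 (pow_ne_zero 4 H.g0)
  have hwg : w ≠ w * g ^ 4 := by
    intro h1
    apply H.g1
    have h2 : w * (g ^ 4 - 1) = 0 := by linear_combination -h1
    rcases mul_eq_zero.1 h2 with h3 | h3
    · exact absurd h3 hw
    · exact sub_eq_zero.1 h3
  have hz : ∀ x hx, (0 : (Wt (aw w g) (bw w g)).toAffine.Point) ≠ H.pt x hx := fun x hx h1 =>
    Affine.Point.some_ne_zero _ h1.symm
  unfold WD.Z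
  rw [Set.ncard_insert_of_notMem, Set.ncard_insert_of_notMem, Set.ncard_pair]
  · exact H.pt_ne _ _ hwg
  · rw [Set.mem_insert_iff, Set.mem_singleton_iff]
    rintro (h1 | h1)
    · exact H.pt_ne _ _ hw.symm h1
    · exact H.pt_ne _ _ hg.symm h1
  · rw [Set.mem_insert_iff, Set.mem_insert_iff, Set.mem_singleton_iff]
    rintro (h1 | h1 | h1) <;> exact hz _ _ h1

variable [DecidableEq F]

/-- the points of order dividing two -/
lemma WD.two (H : WD w g h) (P : (Wt (aw w g) (bw w g)).toAffine.Point) :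
    P + P = 0 ↔ P ∈ H.Z := by
  constructor
  · intro h1
    cases P with
    | zero => exact Or.inl rfl
    | some x y hn =>
      right
      have h2 : (Affine.Point.some x y hn : (Wt (aw w g) (bw w g)).toAffine.Point) =
          -Affine.Point.some x y hn := eq_neg_of_add_eq_zero_left h1
      rw [Affine.Point.neg_some] at h2
      have h3 : y = (Wt (aw w g) (bw w g)).toAffine.negY x y := by
        simpa using h2
      have h4 : y = 0 := by
        simp only [Affine.negY, Wt] at h3
        have h2' : (2 : F) * y = 0 := by linear_combination h3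
        exact (mul_eq_zero.1 h2').resolve_left two_ne_zero
      subst h4
      have h5 := Wt_eqn.mp hn.1
      have h6 : x * (x - w) * (x - w * g ^ 4) = 0 := by
        rw [WD.fac] at h5
        linear_combination -h5
      rcases mul_eq_zero.1 h6 with h7 | h7
      · rcases mul_eq_zero.1 h7 with h8 | h8
        · subst h8
          exact Or.inl rfl
        · obtain rfl : x = w := sub_eq_zero.1 h8
          exact Or.inr (Or.inl rfl)
      · obtain rfl : x = w * g ^ 4 := sub_eq_zero.1 h7
        exact Or.inr (Or.inr rfl)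
  · have key : ∀ x hx, H.pt x hx + H.pt x hx = 0 := by
      intro x hx
      have h1 : H.pt x hx = -H.pt x hx := by
        unfold WD.pt
        rw [Affine.Point.neg_some]
        congr 1
        simp [Affine.negY, Wt]
      nth_rewrite 2 [h1]
      exact add_neg_cancel _
    rintro (h1 | h1 | h1 | h1)
    · rw [h1]; exact add_zero 0
    · rw [h1]; exact key _ _
    · rw [h1]; exact key _ _
    · rw [h1]; exact key _ _

lemma al_pt (H : WD w g h) {x : F} (hx : x * (x - w) * (x - w * g ^ 4) = 0) (hx0 : x ≠ 0) :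
    al (aw w g) (bw w g) (H.pt x hx) = x := by
  unfold WD.pt
  rw [al_some, if_neg hx0]

/-- the points of order two are not doubles -/
lemma WD.nodbl (H : WD w g h) (Q : (Wt (aw w g) (bw w g)).toAffine.Point) (hQ : Q + Q ∈ H.Z) :
    Q + Q = 0 := by
  have hsq : ∀ x : F, x ≠ 0 → al (aw w g) (bw w g) (Q + Q) = x → IsSquare x := by
    intro x hx h1
    obtain ⟨r, hr⟩ := al_add (two_ne_zero (α := F)) Q Q
    rw [h1] at hr
    have h3 : al (aw w g) (bw w g) Q ≠ 0 := al_ne H.b0 Q
    refine ⟨r / al (aw w g) (bw w g) Q, ?_⟩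
    field_simp
    linear_combination hr
  rcases hQ with h1 | h1 | h1 | h1
  · exact h1
  · exfalso
    cases Q with
    | zero =>
      have h2 : (0 : (Wt (aw w g) (bw w g)).toAffine.Point) + 0 = H.pt 0 (by ring) := h1
      rw [add_zero] at h2
      exact Affine.Point.some_ne_zero _ h2.symm
    | some x y hn =>
      have e0 := Wt_eqn.mp hn.1
      have hx0 : x ≠ 0 := by
        rintro rfl
        have hy : y = 0 := by
          have : y ^ 2 = 0 := by rw [e0]; ring
          exact pow_eq_zero_iff two_ne_zero |>.1 this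
        subst hy
        have h3 : (Affine.Point.some 0 0 hn : (Wt (aw w g) (bw w g)).toAffine.Point) =
            H.pt 0 (by ring) := rfl
        rw [h3] at h1
        have h4 := (H.two (H.pt 0 (by ring))).2 (Or.inr (Or.inl rfl))
        rw [h4] at h1
        exact Affine.Point.some_ne_zero _ h1.symm
      -- `Q = T - Q`
      have h2 : (Affine.Point.some x y hn : (Wt (aw w g) (bw w g)).toAffine.Point) =
          H.pt 0 (by ring) + -Affine.Point.some x y hn := by
        rw [← h1]
        abel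
      rw [Affine.Point.neg_some] at h2
      unfold WD.pt at h2
      rw [Affine.Point.add_of_X_ne (Ne.symm hx0)] at h2
      have h3 := ((Affine.Point.some.injEq _ _ _ _ _ _).mp h2).1
      rw [Affine.slope_of_X_ne (Ne.symm hx0)] at h3
      have h4 : x ^ 2 = (w * g ^ 2) ^ 2 := by
        simp only [Affine.addX, Affine.negY, Wt] at h3
        have h5 : x * x ^ 2 = x * (w * g ^ 2) ^ 2 := by
          have h6 : bw w g = (w * g ^ 2) ^ 2 := by unfold bw; ring
          rw [← h6]
          field_simp at h3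
          linear_combination h3 + e0
        exact mul_left_cancel₀ hx0 h5
      rw [WD.fac] at e0
      have hg2 : g ^ 2 ≠ 1 := fun h5 => H.g1 (by
        have : g ^ 4 = (g ^ 2) ^ 2 := by ring
        rw [this, h5, one_pow])
      have hg2' : g ^ 2 ≠ -1 := fun h5 => H.g1 (by
        have : g ^ 4 = (g ^ 2) ^ 2 := by ring
        rw [this, h5]
        ring)
      rcases sq_eq_sq_iff_eq_or_eq_neg.1 h4 with h5 | h5
      · apply H.nw'
        have h7 : w * g ^ 2 * (1 - g ^ 2) ≠ 0 :=
          mul_ne_zero (mul_ne_zero H.w0 (pow_ne_zero 2 H.g0)) (sub_ne_zero.2 (Ne.symm hg2))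
        refine ⟨y / (w * g ^ 2 * (1 - g ^ 2)), ?_⟩
        rw [h5] at e0
        have h8 : y * y = -w * ((w * g ^ 2 * (1 - g ^ 2)) * (w * g ^ 2 * (1 - g ^ 2))) := by
          linear_combination e0
        rw [div_mul_div_comm, h8, mul_div_assoc, div_self (mul_ne_zero h7 h7), mul_one]
      · apply H.nw'
        have h7 : w * g ^ 2 * (1 + g ^ 2) ≠ 0 :=
          mul_ne_zero (mul_ne_zero H.w0 (pow_ne_zero 2 H.g0)) (fun h8 => hg2' (by
            linear_combination h8))
        refine ⟨y / (w * g ^ 2 * (1 + g ^ 2)), ?_⟩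
        rw [h5] at e0
        have h8 : y * y = -w * ((w * g ^ 2 * (1 + g ^ 2)) * (w * g ^ 2 * (1 + g ^ 2))) := by
          linear_combination e0
        rw [div_mul_div_comm, h8, mul_div_assoc, div_self (mul_ne_zero h7 h7), mul_one]
  · exfalso
    apply H.nw
    exact hsq w H.w0 (by rw [h1]; exact al_pt H _ H.w0)
  · exfalso
    apply H.nw
    have h2 : w * g ^ 4 ≠ 0 := mul_ne_zero H.w0 (pow_ne_zero 4 H.g0)
    obtain ⟨r, hr⟩ := hsq (w * g ^ 4) h2 (by rw [h1]; exact al_pt H _ h2)
    have hg0 := H.g0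
    refine ⟨r / g ^ 2, ?_⟩
    field_simp
    linear_combination hr

/-- **the order of the group of points** -/
theorem WD.card (H : WD w g h) (hf : Finite (Wt (aw w g) (bw w g)).toAffine.Point) :
    ∃ m, Odd m ∧ Nat.card (Wt (aw w g) (bw w g)).toAffine.Point = 4 * m :=
  (grp_odd H.Z H.two H.Zcard H.nodbl).1

/-- **the classes of the points** -/
theorem WD.cls (H : WD w g h) (hf : Finite (Wt (aw w g) (bw w g)).toAffine.Point) {X Y d r : F}
    (hX : X ≠ 0) (hY : Y ^ 2 = X ^ 3 + aw w g * X ^ 2 + bw w g * X) (hd : X = d * r ^ 2) :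
    IsSquare d ∨ IsSquare (d * w) := by
  have hn := ns_of H.b0 H.d0 hY
  obtain ⟨T, hT, Q, hQ⟩ := (grp_odd H.Z H.two H.Zcard H.nodbl).2 (Affine.Point.some X Y hn)
  have hal : al (aw w g) (bw w g) (Affine.Point.some X Y hn) = X := by
    rw [al_some]
    simp [hX]
  have hr : r ≠ 0 := by
    rintro rfl
    apply hX
    rw [hd]; ring
  have hg0 := H.g0
  have hw0 := H.w0
  obtain ⟨s, hs⟩ := al_add (two_ne_zero (α := F)) T (Q + Q)
  obtain ⟨s', hs'⟩ := al_add (two_ne_zero (α := F)) Q Q
  rw [← hQ, hal, hd] at hs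
  have hA := al_ne H.b0 Q
  have hB := al_ne H.b0 (Q + Q)
  have hC := al_ne H.b0 T
  -- `d * al T` is a square
  have key : IsSquare (d * al (aw w g) (bw w g) T) := by
    have hs'0 : s' ≠ 0 := by
      rintro rfl
      rw [mul_zero] at hs'
      exact mul_ne_zero hB (mul_ne_zero hA hA) hs'
    refine ⟨s * al (aw w g) (bw w g) Q / (r * s'), ?_⟩
    have h1 : s * al (aw w g) (bw w g) Q / (r * s') * (s * al (aw w g) (bw w g) Q / (r * s')) =
        (s * s) * (al (aw w g) (bw w g) Q * al (aw w g) (bw w g) Q) / (r ^ 2 * (s' * s')) := by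
      field_simp
    rw [h1, ← hs, ← hs']
    field_simp
  rcases hT with h1 | h1 | h1 | h1
  · left
    rw [h1, al_zero, mul_one] at key
    exact key
  · left
    have h2 : al (aw w g) (bw w g) T = bw w g := by
      rw [h1]
      unfold WD.pt
      rw [al_some, if_pos rfl]
    rw [h2] at key
    obtain ⟨q, hq⟩ := key
    refine ⟨q / (w * g ^ 2), ?_⟩
    unfold bw at hq
    field_simp
    linear_combination hq
  · right
    rw [h1, al_pt H _ hw0] at key
    exact key
  · right
    rw [h1, al_pt H _ (mul_ne_zero hw0 (pow_ne_zero 4 hg0))] at key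
    obtain ⟨q, hq⟩ := key
    refine ⟨q / g ^ 2, ?_⟩
    field_simp
    linear_combination hq

end Pool.Agent.H463.QE
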