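import Pool.Graph.R_seed8.R426.QC.Shx
import Pool.Agent.H463.QE.TorX
import Pool.Agent.H463.QE.SogX

/-!
# The converse: the order of the group of points and the elements of order two in Sha
-/

set_option autoImplicit false
set_option linter.unusedSectionVars false

attribute [-instance] DivisionRing.toRatAlgebra

open NumberField IsDedekindDomain

namespace Pool.Agent.H463.QE

open WithZero
open Pool.Agent.R426.QC Pool.Agent.R426.QD
open Pool.Agent.Y698 Pool.Agent.Y698.SG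
open Pool.Agent.W192.HK (sp)
open Pool.Agent.Y668 (Wt)
open Pool.Agent.R426.QC.Cv (LocI WF coc coc_coc coc_two t_COB)
open Pool.Agent.Y542.SGT (fin_iso)

section alg

variable {F : Type} [Field F] [CharZero F] {a D : F}

lemma cA_aw (ha : a ^ 2 = a - 2) : cA a D = aw (D * (2 * a - 1)) a := by
  unfold cA aw
  have h1 : eA a = eB a + (2 * a - 1) := by rw [← eA_sub ha]; ring
  rw [h1]
  unfold eB
  ring

lemma cB_bw (ha : a ^ 2 = a - 2) : cB a D = bw (D * (2 * a - 1)) a := by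
  rw [cB_eq ha]
  unfold bw
  ring

lemma cA_aw' (ha : a ^ 2 = a - 2) :
    -2 * cA a D = aw (-(D * (2 * a - 1)) * (1 - a) ^ 2) (1 - a) := by
  have h1 : -2 * cA a D = D * (2 * a - 1) * (1 - a) ^ 2 + D * (2 * a - 1) * (1 - a) ^ 6 := by
    unfold cA eA eB
    linear_combination (D * (2 * a - 1) * (-a ^ 4 + 5 * a ^ 3 - 2 * a ^ 2 + 0 * a + 0)) * ha
  rw [h1]
  unfold aw
  ring

lemma cB_bw' : cA a D ^ 2 - 4 * cB a D =
    bw (-(D * (2 * a - 1)) * (1 - a) ^ 2) (1 - a) := by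
  rw [cD_eq]
  unfold eA bw
  ring

lemma isSq_mul_sq {x y : F} (hy : y ≠ 0) (h : IsSquare (x * y ^ 2)) : IsSquare x := by
  obtain ⟨r, hr⟩ := h
  refine ⟨r / y, ?_⟩
  field_simp
  linear_combination hr

/-- the data of the two curves -/
lemma wd1 (ha : a ^ 2 = a - 2) (hD : D ≠ 0) (h1 : ¬ IsSquare (D * (2 * a - 1)))
    (h2 : ¬ IsSquare (-(D * (2 * a - 1)))) : WD (D * (2 * a - 1)) a (1 - a) where
  w0 := mul_ne_zero hD (s_ne ha)
  g0 := a_ne ha
  h0 := a_ne (ha_conj ha)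
  gh := by
    linear_combination (2 * a ^ 2 - 2 * a) * ha
  nw := h1
  nw' := h2

lemma wd2 (ha : a ^ 2 = a - 2) (hD : D ≠ 0) (h1 : ¬ IsSquare (D * (2 * a - 1)))
    (h2 : ¬ IsSquare (-(D * (2 * a - 1)))) :
    WD (-(D * (2 * a - 1)) * (1 - a) ^ 2) (1 - a) a where
  w0 := mul_ne_zero (neg_ne_zero.2 (mul_ne_zero hD (s_ne ha))) (pow_ne_zero 2 (a_ne (ha_conj ha)))
  g0 := a_ne (ha_conj ha)
  h0 := a_ne ha
  gh := by
    linear_combination (2 * a ^ 2 - 2 * a) * ha
  nw := fun h => h2 (isSq_mul_sq (a_ne (ha_conj ha)) h)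
  nw' := fun h => h1 (isSq_mul_sq (a_ne (ha_conj ha)) (by
    convert h using 1
    ring))

end alg

/-- the shifted model -/
lemma E2_Wt {F : Type} [Field F] [NumberField F] {a j : F} (ha : a ^ 2 = a - 2) (hD : (1 + 4 * j) ≠ 0) :
    E2 F j (-((1 + 4 * j) * eB a)) = Wt (cA a (1 + 4 * j)) (cB a (1 + 4 * j)) := by
  have hT := isT_E2 ha hD
  unfold Wt
  ext
  · exact hT.h1
  · exact hT.h2
  · exact hT.h3
  · exact hT.h4
  · exact hT.h6


section

variable {K : Type} [Field K] [NumberField K] (e : RR ≃+* 𝓞 K)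

/-- elements of odd valuation are not squares -/
lemma nsq {v : HeightOneSpectrum (𝓞 K)} {x : K} (h : v.valuation K x = exp (-1 : ℤ)) :
    ¬ IsSquare x := by
  rintro ⟨y, rfl⟩
  have hy : y ≠ 0 := by
    rintro rfl
    rw [mul_zero, map_zero] at h
    exact exp_ne_zero h.symm
  obtain ⟨m, hm⟩ := vexp (w := v.valuation K) hy
  rw [map_mul, hm, ← exp_add, exp_inj] at h
  omega

lemma nsq_D {D : RR} (hsq : Squarefree (fR * D)) : ¬ IsSquare (em e D * (2 * em e aR - 1)) ∧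
    ¬ IsSquare (-(em e D * (2 * em e aR - 1))) := by
  have h1 : (plc e R426.QC.prime_fR).valuation K (em e (fR * D)) = exp (-1 : ℤ) :=
    val_sqf e R426.QC.prime_fR hsq (Dvd.intro _ rfl)
  have h2 : em e (fR * D) = em e D * (2 * em e aR - 1) := by
    rw [map_mul, em_fR, mul_comm]
  rw [h2] at h1
  exact ⟨nsq h1, nsq (by rw [Valuation.map_neg]; exact h1)⟩

/-- **the order of the group of points** -/
theorem card_pts {D J : RR} (hsq : Squarefree (fR * D)) (hJ : D = 1 + 4 * J)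
    (hf : Finite (EX K (em e J)).toAffine.Point) :
    ∃ m, Odd m ∧ Nat.card (EX K (em e J)).toAffine.Point = 4 * m := by
  classical
  have hD0 : D ≠ 0 := fun h => hsq.ne_zero (by rw [h, mul_zero])
  have hDj : em e D = 1 + 4 * em e J := by
    rw [hJ, map_add, map_mul, map_one, map_ofNat]
  have hDe : (1 + 4 * em e J) ≠ 0 := by rw [← hDj]; exact em_ne e hD0
  have ha := ema_sq e
  have hn := nsq_D e hsq
  rw [hDj] at hn
  have S := vchK (em e J) (-((1 + 4 * em e J) * eB (em e aR)))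
  have hb : Function.Bijective (vFe S) := ⟨vFe_inj S, vFe_surj S⟩
  have hc := Nat.card_congr (Equiv.ofBijective _ hb)
  rw [hc]
  rw [E2_Wt ha hDe, cA_aw ha, cB_bw ha]
  have hf2 : Finite (E2 K (em e J) (-((1 + 4 * em e J) * eB (em e aR)))).toAffine.Point :=
    Finite.of_equiv _ (Equiv.ofBijective _ hb)
  rw [E2_Wt ha hDe, cA_aw ha, cB_bw ha] at hf2
  exact (wd1 ha hDe hn.1 hn.2).card hf2

/-- **the converse** -/
theorem convX {ι : Type} [DecidableEq ι] {S : Finset ι} {π : ι → RR} (hf : Fs S π)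
    {J : RR} (hJ : ∏ i ∈ S, π i = 1 + 4 * J)
    (hg : Pool.Agent.Y286.SG.gd (mt (pe π)) (mr (pe π)) (se S) = 0) :
    ¬ (Finite (EX K (em e J)).toAffine.Point ∧
      ∀ x : Pool.Agent.TH841.NF.D.Sha (EX K (em e J)), 2 • x = 0 → x = 0) := by
  classical
  rintro ⟨hfin, hsha⟩
  obtain ⟨T, hT, hne, hloc⟩ := sol_gdX e hf hg
  obtain ⟨D, hDd⟩ : ∃ D : RR, D = ∏ i ∈ S, π i := ⟨_, rfl⟩
  rw [← hDd] at hloc hJ
  have hsq7 : Squarefree (fR * D) := by rw [hDd]; exact hf.sqf7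
  have hsqD : Squarefree D := by rw [hDd]; exact hf.sqf
  have hD0 : D ≠ 0 := hsqD.ne_zero
  have hDj : em e D = 1 + 4 * em e J := by
    rw [hJ, map_add, map_mul, map_one, map_ofNat]
  have hDe : (1 + 4 * em e J) ≠ 0 := by rw [← hDj]; exact em_ne e hD0
  have ha := ema_sq e
  have hn := nsq_D e hsq7
  rw [hDj] at hn hloc
  obtain ⟨d, hd⟩ : ∃ d : RR, d = ∏ i ∈ T, π i := ⟨_, rfl⟩
  rw [← hd] at hloc
  have hd0 : d ≠ 0 := by rw [hd]; exact (fs_sub hf hT).2.2
  -- the two curves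
  have hW1 := wd1 ha hDe hn.1 hn.2
  have hW2 := wd2 ha hDe hn.1 hn.2
  have hb0 : cB (em e aR) (1 + 4 * em e J) ≠ 0 := by rw [cB_bw ha]; exact hW1.b0
  have hd00 : cA (em e aR) (1 + 4 * em e J) ^ 2 - 4 * cB (em e aR) (1 + 4 * em e J) ≠ 0 := by
    rw [cB_bw']; exact hW2.b0
  have S' := vchK (em e J) (-((1 + 4 * em e J) * eB (em e aR)))
  have hf2 : Finite (E2 K (em e J) (-((1 + 4 * em e J) * eB (em e aR)))).toAffine.Point :=
    Finite.of_equiv _ (Equiv.ofBijective _ ⟨vFe_inj S', vFe_surj S'⟩)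
  rw [E2_Wt ha hDe] at hf2
  have hf3 := fin_iso hb0 hd00 hf2
  -- the cocycle
  have hcoc : Pool.Agent.TH841.NF.D.IsShaCoc
      (WF (cA (em e aR) (1 + 4 * em e J)) (cB (em e aR) (1 + 4 * em e J)))
      (coc K hb0 (em e d)) := by
    refine ⟨coc_coc hb0 _, fun v => Cv.Lot.t_LOT hb0 _ _ (hloc v), fun v => ?_⟩
    refine Cv.Lot.t_LOT hb0 _ _ ?_
    rw [← hDj]
    exact sol_inf e v hd0
  have hcob := cob_of_sha (em e J) (-((1 + 4 * em e J) * eB (em e aR))) (E2_Wt ha hDe) hsha hcoc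
    (coc_two hb0 _)
  -- the valuations
  obtain ⟨i, hi⟩ := hne
  have hpi := hf.e.fa.pn i (hT hi)
  have hsqd : Squarefree d := by
    rw [hd]
    exact Squarefree.squarefree_of_dvd (Finset.prod_dvd_prod_of_subset _ _ _ hT) hf.sqf
  have nd : ¬ IsSquare (em e d) := nsq (val_sqf e hpi.pr hsqd (by
    rw [hd]; exact Finset.dvd_prod_of_mem π hi))
  have nw : ¬ IsSquare (em e d * (-((1 + 4 * em e J) * (2 * em e aR - 1)))) := by
    have hfd : ¬ fR ∣ d := by
      intro h1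
      have h2 : fR ∣ D := by
        rw [hDd]
        exact h1.trans (by rw [hd]; exact Finset.prod_dvd_prod_of_subset _ _ _ hT)
      obtain ⟨c, hc⟩ := h2
      exact R426.QC.prime_fR.not_isUnit (hsq7 fR ⟨c, by rw [hc]; ring⟩)
    have h1 : (plc e R426.QC.prime_fR).valuation K (em e (fR * (-(d * D)))) = exp (-1 : ℤ) := by
      refine val_mul1 e R426.QC.prime_fR rfl ?_
      rw [dvd_neg]
      intro h2
      rcases R426.QC.prime_fR.dvd_or_dvd h2 with h3 | h3
      · exact hfd h3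
      · obtain ⟨c, hc⟩ := h3
        exact R426.QC.prime_fR.not_isUnit (hsq7 fR ⟨c, by rw [hc]; ring⟩)
    have h2 : em e (fR * (-(d * D))) =
        em e d * (-((1 + 4 * em e J) * (2 * em e aR - 1))) := by
      rw [map_mul, map_neg, map_mul, em_fR, hDj]
      ring
    rw [h2] at h1
    exact nsq h1
  rcases t_COB hb0 (em_ne e hd0) hcob with h | h | h
  · exact nd h
  · apply nd
    rw [cD_eq] at h
    refine isSq_mul_sq (mul_ne_zero hDe ?_) h
    unfold eA
    exact mul_ne_zero (s_ne ha) (pow_ne_zero 4 (a_ne (ha_conj ha)))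
  · obtain ⟨X, Y, r, hX, hY, hXd⟩ := h
    simp only [Algebra.algebraMap_self_apply] at hY hXd
    rw [cA_aw' ha, cB_bw'] at hf3
    have hY' : Y ^ 2 = X ^ 3 + aw (-((1 + 4 * em e J) * (2 * em e aR - 1)) * (1 - em e aR) ^ 2)
        (1 - em e aR) * X ^ 2 +
        bw (-((1 + 4 * em e J) * (2 * em e aR - 1)) * (1 - em e aR) ^ 2) (1 - em e aR) * X := by
      rw [← cA_aw' ha, ← cB_bw', hY]
      ring
    rcases hW2.cls hf3 hX hY' hXd with h1 | h1
    · exact nd h1
    · apply nw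
      refine isSq_mul_sq (a_ne (ha_conj ha)) ?_
      convert h1 using 1
      ring

end

end Pool.Agent.H463.QE
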