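import Pool.Graph.R_seed8.Y286.SG.RecA

/-!
# A second recursion for the determinants over the field with two elements
-/

set_option autoImplicit false

namespace Pool.Agent.H463.QE

open Finset
open Pool.Agent.Y286.SG

variable {ι : Type} [DecidableEq ι]

/-- coefficients -/
def cp (S A : Finset ι) (i : S) : Option S → ZMod 2
  | none => if (i : ι) ∈ A then 1 else 0
  | some j => if (j : ι) ∈ A then 1 else 0

/-- the matrix -/
def NB (c : ι → ZMod 2) (r : ι → ι → ZMod 2) (S A : Finset ι) : Matrix S S (ZMod 2) :=
  Matrix.of fun i : S => ∑ o : Option S, cp S A i o • rw' c r S i o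

theorem det_NB_expand (c : ι → ZMod 2) (r : ι → ι → ZMod 2) (S A : Finset ι) :
    (NB c r S A).det = ∑ f : S → Option S, (∏ i, cp S A i (f i)) *
      (Matrix.of fun i : S => rw' c r S i (f i)).det := by
  have h := (Matrix.detRowAlternating (n := S) (R := ZMod 2)).toMultilinearMap.map_sum
    (fun (i : S) (o : Option S) => cp S A i o • rw' c r S i o)
  have h2 : (NB c r S A).det = (Matrix.detRowAlternating (n := S) (R := ZMod 2)).toMultilinearMap
    (fun i : S => ∑ o : Option S, cp S A i o • rw' c r S i o) := rfl
  rw [h2, h]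
  refine Finset.sum_congr rfl fun f _ => ?_
  rw [MultilinearMap.map_smul_univ]
  rfl

theorem sum_cp_zero (S : Finset ι) (f : S → Option S) (j0 : S) (h : ∀ i, f i ≠ some j0)
    (h0 : f j0 ≠ none) :
    ∑ A ∈ S.powerset, ∏ i, cp S A i (f i) = 0 := by
  refine Finset.sum_involution (fun A _ => if (j0 : ι) ∈ A then A.erase j0 else insert (j0 : ι) A)
    ?_ ?_ ?_ ?_
  · intro A _
    have : ∀ i, cp S A i (f i) =
        cp S (if (j0 : ι) ∈ A then A.erase j0 else insert (j0 : ι) A) i (f i) := by
      intro i
      rcases hfi : f i with _ | j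
      · have hne : (i : ι) ≠ j0 := by
          intro e
          have : i = j0 := Subtype.ext e
          rw [this] at hfi
          exact h0 hfi
        unfold cp
        by_cases hA : (j0 : ι) ∈ A
        · rw [if_pos hA]
          simp [hne]
        · rw [if_neg hA]
          simp [hne]
      · have hne : (j : ι) ≠ j0 := by
          intro e
          exact h i (by rw [hfi, Subtype.ext e])
        unfold cp
        by_cases hA : (j0 : ι) ∈ A
        · rw [if_pos hA]
          simp [hne]
        · rw [if_neg hA]
          simp [hne]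
    rw [Finset.prod_congr rfl fun i _ => this i]
    exact add_self_two _
  · intro A _ _ heq
    by_cases hA : (j0 : ι) ∈ A
    · rw [if_pos hA] at heq
      have : (j0 : ι) ∈ A.erase j0 := by rw [heq]; exact hA
      exact Finset.notMem_erase _ _ this
    · rw [if_neg hA] at heq
      exact hA (by rw [← heq]; exact Finset.mem_insert_self _ _)
  · intro A hA
    rw [Finset.mem_powerset] at hA ⊢
    by_cases h' : (j0 : ι) ∈ A
    · rw [if_pos h']
      exact (Finset.erase_subset _ _).trans hA
    · rw [if_neg h']
      exact Finset.insert_subset j0.2 hA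
  · intro A _
    by_cases h' : (j0 : ι) ∈ A
    · simp only [if_pos h', Finset.notMem_erase, if_false]
      exact Finset.insert_erase h'
    · simp only [if_neg h', Finset.mem_insert_self, if_true]
      exact Finset.erase_insert h'

theorem det_rows_zero' (c : ι → ZMod 2) (r : ι → ι → ZMod 2) (S : Finset ι)
    (f : S → Option S) (hf : ∀ j, f j ≠ none → ∃ i, f i = some j) {j1 : S} (h1 : f j1 ≠ none) :
    (Matrix.of fun i : S => rw' c r S i (f i)).det = 0 := by
  classical
  set U : Finset S := Finset.univ.filter fun j => f j ≠ none with hU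
  set T : Finset S := Finset.univ.filter fun j => ∃ i, f i = some j with hT
  have hUT : U ⊆ T := by
    intro j hj
    rw [hU, Finset.mem_filter] at hj
    rw [hT, Finset.mem_filter]
    exact ⟨Finset.mem_univ _, hf j hj.2⟩
  have hTU : T ⊆ U.image (fun i => (f i).getD i) := by
    intro j hj
    rw [hT, Finset.mem_filter] at hj
    obtain ⟨i, hi⟩ := hj.2
    rw [Finset.mem_image]
    refine ⟨i, ?_, by rw [hi]; rfl⟩
    rw [hU, Finset.mem_filter]
    exact ⟨Finset.mem_univ _, by rw [hi]; exact Option.some_ne_none j⟩
  have hcard : T.card ≤ U.card := (Finset.card_le_card hTU).trans Finset.card_image_le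
  have hEq : U = T := Finset.eq_of_subset_of_card_le hUT hcard
  rw [← Matrix.exists_mulVec_eq_zero_iff]
  refine ⟨fun k => if k ∈ U then 1 else 0, ?_, ?_⟩
  · intro h
    have h2 := congrFun h j1
    have h3 : j1 ∈ U := by
      rw [hU, Finset.mem_filter]
      exact ⟨Finset.mem_univ _, h1⟩
    simp only [if_pos h3, Pi.zero_apply] at h2
    exact one_ne_zero h2
  · funext i
    simp only [Matrix.mulVec, dotProduct, Matrix.of_apply, Pi.zero_apply, mul_ite, mul_one,
      mul_zero]
    rcases hfi : f i with _ | j
    · have hi : i ∉ U := by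
        rw [hU, Finset.mem_filter]
        exact fun h => h.2 hfi
      refine Finset.sum_eq_zero fun k _ => ?_
      unfold rw'
      by_cases hk : k = i
      · rw [hk, if_neg hi]
      · simp [hk]
    · have hi : i ∈ U := by
        rw [hU, Finset.mem_filter]
        exact ⟨Finset.mem_univ _, by rw [hfi]; exact Option.some_ne_none j⟩
      have hj : j ∈ U := by
        rw [hEq, hT, Finset.mem_filter]
        exact ⟨Finset.mem_univ _, i, hfi⟩
      by_cases hji : j = i
      · refine Finset.sum_eq_zero fun k _ => ?_
        unfold rw'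
        simp [hji]
      · have e : ∀ k : S, (if k ∈ U then rw' c r S i (some j) k else 0) =
            (if k = i then r i j else 0) + (if k = j then r i j else 0) := by
          intro k
          unfold rw'
          simp only [if_neg hji]
          by_cases hki : k = i
          · rw [hki, if_pos hi]
          · by_cases hkj : k = j
            · rw [hkj, if_pos hj]
            · simp [hki, hkj]
        rw [Finset.sum_congr rfl fun k _ => e k, Finset.sum_add_distrib,
          Finset.sum_ite_eq' Finset.univ i, Finset.sum_ite_eq' Finset.univ j]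
        simp only [Finset.mem_univ, if_true]
        exact add_self_two _

theorem sum_det_NB (c : ι → ZMod 2) (r : ι → ι → ZMod 2) (S : Finset ι) :
    ∑ A ∈ S.powerset, (NB c r S A).det = ∏ i ∈ S, c i := by
  classical
  have h1 : ∑ A ∈ S.powerset, (NB c r S A).det =
      ∑ f : S → Option S, (∑ A ∈ S.powerset, ∏ i, cp S A i (f i)) *
        (Matrix.of fun i : S => rw' c r S i (f i)).det := by
    rw [Finset.sum_congr rfl fun A _ => det_NB_expand c r S A, Finset.sum_comm]
    refine Finset.sum_congr rfl fun f _ => ?_
    rw [Finset.sum_mul]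
  rw [h1, Finset.sum_eq_single (fun _ => none)]
  · have h2 : ∑ A ∈ S.powerset, ∏ i : S, cp S A i none = 1 := by
      rw [Finset.sum_eq_single S]
      · refine Finset.prod_eq_one fun i _ => ?_
        unfold cp
        rw [if_pos i.2]
      · intro A hA hne
        rw [Finset.mem_powerset] at hA
        obtain ⟨x, hx, hxA⟩ : ∃ x ∈ S, x ∉ A := by
          by_contra hcon
          push Not at hcon
          exact hne (Finset.Subset.antisymm hA hcon)
        refine Finset.prod_eq_zero (Finset.mem_univ (⟨x, hx⟩ : S)) ?_
        unfold cp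
        rw [if_neg hxA]
      · intro h
        exact absurd (Finset.mem_powerset_self S) h
    have h3 : (Matrix.of fun i : S => rw' c r S i none) = Matrix.diagonal (fun i : S => c i) := by
      ext i k
      show (if k = i then c i else 0) = Matrix.diagonal (fun i : S => c i) i k
      by_cases h : k = i
      · rw [if_pos h, h, Matrix.diagonal_apply_eq]
      · rw [if_neg h, Matrix.diagonal_apply_ne _ (Ne.symm h)]
    rw [h2, one_mul, h3, Matrix.det_diagonal, Finset.prod_coe_sort S (fun i => c i)]
  · intro f _ hf
    obtain ⟨j1, hj1⟩ : ∃ j, f j ≠ none := by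
      by_contra hcon
      push Not at hcon
      exact hf (funext hcon)
    by_cases h : ∀ j, f j ≠ none → ∃ i, f i = some j
    · rw [det_rows_zero' c r S f h hj1, mul_zero]
    · push Not at h
      obtain ⟨j0, h0, hj0⟩ := h
      rw [sum_cp_zero S f j0 hj0 h0, zero_mul]
  · intro h
    exact absurd (Finset.mem_univ _) h

theorem NB_diag (c : ι → ZMod 2) (r : ι → ι → ZMod 2) {S A : Finset ι} (hA : A ⊆ S) (i : S) :
    NB c r S A i i = (if (i : ι) ∈ A then c i else 0) + ∑ k ∈ A.erase i, r i k := by
  unfold NB
  rw [Matrix.of_apply, Finset.sum_apply, Fintype.sum_option]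
  congr 1
  · simp [cp, rw']
  · have h1 : ∑ j : S, (cp S A i (some j) • rw' c r S i (some j)) i
        = ∑ j : S, if (j : ι) ∈ A.erase i then r i j else 0 := by
      refine Finset.sum_congr rfl fun j _ => ?_
      simp only [cp, rw', Pi.smul_apply, smul_eq_mul, Finset.mem_erase, ne_eq]
      by_cases hji : j = i
      · subst hji; simp
      · have hji' : (j : ι) ≠ i := fun e => hji (Subtype.ext e)
        by_cases hjA : (j : ι) ∈ A
        · simp [hji, hji', hjA, Ne.symm hji]
        · simp [hjA]
    rw [h1, Finset.sum_coe_sort S (fun j => if j ∈ A.erase (i : ι) then r i j else 0),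
      Finset.sum_ite_mem]
    congr 1
    rw [Finset.inter_eq_right]
    exact (Finset.erase_subset _ _).trans hA

theorem NB_off (c : ι → ZMod 2) (r : ι → ι → ZMod 2) {S A : Finset ι} {i k : S} (hik : k ≠ i) :
    NB c r S A i k = if (k : ι) ∈ A then r i k else 0 := by
  unfold NB
  rw [Matrix.of_apply, Finset.sum_apply, Fintype.sum_option]
  have h0 : (cp S A i none • rw' c r S i none) k = 0 := by simp [rw', hik]
  rw [h0, zero_add, Finset.sum_eq_single k]
  · simp only [cp, rw', Pi.smul_apply, smul_eq_mul, if_neg hik]
    by_cases hkA : (k : ι) ∈ A <;> simp [hkA]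
  · intro j _ hjk
    simp only [cp, rw', Pi.smul_apply, smul_eq_mul]
    by_cases hji : j = i
    · simp [hji]
    · simp [hji, hik, Ne.symm hjk]
  · intro h
    exact absurd (Finset.mem_univ k) h

theorem det_NB (c : ι → ZMod 2) (r : ι → ι → ZMod 2) {S A : Finset ι} (hA : A ⊆ S) :
    (NB c r S A).det = gd c r A * ∏ i ∈ S \ A, ∑ j ∈ A, r i j := by
  rw [Matrix.twoBlockTriangular_det' (NB c r S A) (fun i : S => (i : ι) ∈ A)]
  · congr 1
    · -- the block of A
      let e : A ≃ {i : S // (i : ι) ∈ A} :=
        { toFun := fun a => ⟨⟨a, hA a.2⟩, a.2⟩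
          invFun := fun i => ⟨i.1.1, i.2⟩
          left_inv := fun a => rfl
          right_inv := fun i => rfl }
      rw [← Matrix.det_submatrix_equiv_self e]
      unfold gd
      congr 1
      ext i j
      show NB c r S A ⟨i, hA i.2⟩ ⟨j, hA j.2⟩ =
        (if i = j then c i + ∑ k ∈ A.erase (i : ι), r i k else r i j)
      by_cases hij : i = j
      · subst hij
        rw [if_pos rfl, NB_diag c r hA]
        simp only [if_pos i.2]
      · rw [if_neg hij]
        have hne : (⟨(j : ι), hA j.2⟩ : S) ≠ ⟨(i : ι), hA i.2⟩ := by
          intro h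
          exact hij (Subtype.ext (congrArg Subtype.val h).symm)
        have := NB_off c r (A := A) hne
        rw [if_pos j.2] at this
        exact this
    · -- the diagonal block
      have h1 : Matrix.toSquareBlockProp (NB c r S A) (fun i : S => ¬ (i : ι) ∈ A)
          = Matrix.diagonal (fun i : {i : S // ¬ (i : ι) ∈ A} => ∑ j ∈ A, r i.1 j) := by
        ext i j
        rw [Matrix.toSquareBlockProp_def, Matrix.of_apply]
        by_cases hij : i = j
        · subst hij
          rw [Matrix.diagonal_apply_eq, NB_diag c r hA, Finset.erase_eq_of_notMem i.2,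
            if_neg i.2, zero_add]
        · rw [Matrix.diagonal_apply_ne _ hij]
          have hne : j.1 ≠ i.1 := fun h => hij (Subtype.ext h.symm)
          rw [NB_off c r hne, if_neg j.2]
      rw [h1, Matrix.det_diagonal]
      symm
      refine Finset.prod_bij' (fun i hi => (⟨⟨i, (Finset.mem_sdiff.mp hi).1⟩,
        (Finset.mem_sdiff.mp hi).2⟩ : {i : S // ¬ (i : ι) ∈ A})) (fun i _ => (i.1 : ι))
        (fun _ _ => Finset.mem_univ _) (fun i _ => Finset.mem_sdiff.mpr ⟨i.1.2, i.2⟩)
        (fun _ _ => rfl) (fun _ _ => rfl) (fun _ _ => rfl)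
  · intro i hi j hj
    have hne : j ≠ i := fun h => hj (h ▸ hi)
    rw [NB_off c r hne, if_neg hj]

/-- **the second recursion** -/
theorem rec_tree (c : ι → ZMod 2) (r : ι → ι → ZMod 2) (S : Finset ι) :
    ∑ A ∈ S.powerset, gd c r A * ∏ i ∈ S \ A, ∑ j ∈ A, r i j = ∏ i ∈ S, c i := by
  rw [← sum_det_NB c r S]
  refine Finset.sum_congr rfl fun A hA => ?_
  rw [det_NB c r (Finset.mem_powerset.mp hA)]

end Pool.Agent.H463.QE
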