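import Pool.Graph.R_seed8.R426.QC.Hc
import Pool.Graph.R_seed8.R426.QD.Cnt

/-!
# The quadratic characters of the ideals of `ℤ[(1 + √-7) / 2]`, general twists
-/

set_option autoImplicit false
set_option linter.unusedSectionVars false

open Filter
open scoped Topology PeriodPair

namespace Pool.Agent.H463.QE

open Pool.Agent.R426.QC Pool.Agent.R426.QD
open Pool.Agent.Y698 Pool.Agent.Y698.SG
open H667R3 Pool.Agent.W192.HK Pool.Agent.TH936.CM Pool.Agent.TH936.PU
open Pool.Agent.W192.CM (nu)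

variable {ι : Type} {S : Finset ι} {π : ι → RR}

/-- the families whose product is `1` modulo `4` -/
structure FaE (S : Finset ι) (π : ι → RR) : Prop where
  fa : Fa S π
  even : ∑ i ∈ S, tp (π i) = 0

lemma FaE.neg (hS : FaE S π) : ∏ i ∈ S, sy (π i) (-1) = 1 :=
  prod_neg (fun i hi => (hS.fa.pn i hi).pr) hS.even

lemma FaE.mul (hS : FaE S π) (x y : RR) :
    ∏ i ∈ S, sy (π i) (x * y) = (∏ i ∈ S, sy (π i) x) * ∏ i ∈ S, sy (π i) y := by
  rw [← Finset.prod_mul_distrib]
  exact Finset.prod_congr rfl fun i hi => (hS.fa.pn i hi).mul x y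

lemma FaE.neg' (hS : FaE S π) (x : RR) : ∏ i ∈ S, sy (π i) (-x) = ∏ i ∈ S, sy (π i) x := by
  rw [← neg_one_mul x, hS.mul, hS.neg, one_mul]

lemma FaE.one (hS : FaE S π) : ∏ i ∈ S, sy (π i) 1 = 1 :=
  Finset.prod_eq_one fun i hi => sy_oneO (hS.fa.pn i hi).pr

lemma FaE.xs (hS : FaE S π) (g : RR) : ∏ i ∈ S, Xs (π i) (sp g) = ∏ i ∈ S, sy (π i) g := by
  unfold Xs
  have h1 : sp (Submodule.IsPrincipal.generator (sp g)) = sp g :=
    Submodule.IsPrincipal.span_singleton_generator _
  rcases sp_eq h1 with h2 | h2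
  · rw [h2]
  · rw [h2, hS.neg']

lemma pn_two {ϖ : RR} (h : Pn ϖ) : (2 : RR) ∉ sp ϖ := by
  rw [Ideal.mem_span_singleton]
  exact h.od

/-- there are nonsquares -/
lemma exists_nonsqX {ϖ : RR} (h : Pn ϖ) : ∃ x : RR, x ∉ sp ϖ ∧ sy ϖ x = -1 := by
  have hmax := maximal_sp h.pr.irreducible
  have hf := fin_quot h.pr.ne_zero
  let _ : Fintype (RR ⧸ sp ϖ) := Fintype.ofFinite _
  let _ : Field (RR ⧸ sp ϖ) := Ideal.Quotient.field _
  have h2 : ringChar (RR ⧸ sp ϖ) ≠ 2 := by
    intro h2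
    have h3 : ((2 : ℕ) : RR ⧸ sp ϖ) = 0 := by
      rw [← h2]
      exact ringChar.Nat.cast_ringChar
    apply pn_two h
    rw [← Ideal.Quotient.eq_zero_iff_mem]
    have h4 : Ideal.Quotient.mk (sp ϖ) (2 : RR) = ((2 : ℕ) : RR ⧸ sp ϖ) := by
      rw [map_ofNat]
      norm_num
    rw [h4, h3]
  obtain ⟨y, hy⟩ := FiniteField.exists_nonsquare h2
  obtain ⟨x, rfl⟩ := Ideal.Quotient.mk_surjective y
  have hx : x ∉ sp ϖ := by
    intro hx
    apply hy
    rw [Ideal.Quotient.eq_zero_iff_mem.2 hx]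
    exact ⟨0, by ring⟩
  refine ⟨x, hx, ?_⟩
  unfold sy
  rw [if_neg hx, if_neg hy]

lemma sy_ne {ϖ x : RR} (h : x ∉ sp ϖ) : sy ϖ x ≠ 0 := by
  intro h0
  exact h ((sy_zero_iff).1 h0)

/-- **the product of the characters** -/
theorem prod_XsX [DecidableEq ι] (hS : FaE S π) (hne : S.Nonempty) :
    HC 0 (sp (∏ i ∈ S, π i)) (fun I => ∏ i ∈ S, Xs (π i) I) := by
  refine ⟨?_, ?_, ?_, ?_, ?_⟩
  · rw [Ne, Ideal.span_singleton_eq_bot]
    exact hS.fa.prod_ne
  · intro I J
    obtain ⟨g, rfl⟩ := exists_gen I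
    obtain ⟨g', rfl⟩ := exists_gen J
    beta_reduce
    rw [Ideal.span_singleton_mul_span_singleton, hS.xs, hS.xs, hS.xs, hS.mul]
  · intro I
    obtain ⟨g, rfl⟩ := exists_gen I
    beta_reduce
    rw [hS.xs, Finset.prod_eq_zero_iff, Ideal.span_singleton_eq_bot,
      Ideal.isCoprime_span_singleton_iff]
    constructor
    · rintro ⟨i, hi, h1⟩
      right
      intro h2
      have h3 : IsCoprime g (π i) := h2.of_isCoprime_of_dvd_right (Finset.dvd_prod_of_mem π hi)
      rw [sy_zero_iff, Ideal.mem_span_singleton] at h1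
      exact (hS.fa.pn i hi).pr.not_isUnit (h3.isUnit_of_dvd' h1 dvd_rfl)
    · intro h1
      by_contra hcon
      push Not at hcon
      have h2 : ∀ i ∈ S, IsCoprime g (π i) := by
        intro i hi
        have h3 := hcon i hi
        rw [Ne, sy_zero_iff, Ideal.mem_span_singleton] at h3
        exact ((hS.fa.pn i hi).pr.irreducible.coprime_iff_not_dvd.2 h3).symm
      rcases h1 with rfl | h1
      · obtain ⟨i, hi⟩ := hne
        exact hcon i hi (sy_zero_iff.2 (Submodule.zero_mem _))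
      · exact h1 (IsCoprime.prod_right h2)
  · intro α _ h1
    beta_reduce
    rw [hS.xs, pow_zero]
    refine Finset.prod_eq_one fun i hi => ?_
    rw [sy_per (π i) α 1 ?_, sy_oneO (hS.fa.pn i hi).pr]
    exact (Ideal.span_singleton_le_span_singleton.2 (Finset.dvd_prod_of_mem π hi)) h1
  · intro q' hq'
    obtain ⟨d, rfl⟩ := exists_gen q'
    have hdvd : d ∣ ∏ i ∈ S, π i := Ideal.span_singleton_le_span_singleton.1 hq'.le
    obtain ⟨c, hc⟩ := hdvd
    obtain ⟨i, hi, hid⟩ : ∃ i ∈ S, ¬ π i ∣ d := by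
      by_contra hcon
      push Not at hcon
      have h2 : ∏ i ∈ S, π i ∣ d := by
        refine Finset.prod_dvd_of_coprime ?_ hcon
        intro i hi j hj hij
        exact fa_cop hS.fa hi hj hij
      exact absurd (Ideal.span_singleton_le_span_singleton.2 h2) (not_le_of_gt hq')
    obtain ⟨x, hx, hsx⟩ := exists_nonsqX (hS.fa.pn i hi)
    have hcop : IsCoprime (∏ j ∈ S.erase i, π j) (π i) := by
      refine IsCoprime.prod_left fun j hj => ?_
      rw [Finset.mem_erase] at hj
      exact fa_cop hS.fa hj.2 hi hj.1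
    obtain ⟨a, b, hab⟩ := hcop
    set P := ∏ j ∈ S.erase i, π j with hP
    -- `α = 1` modulo `P`, `α = x` modulo `π i`
    set α : RR := x * (a * P) + b * π i with hα
    have h1 : α - 1 ∈ sp P := by
      rw [Ideal.mem_span_singleton]
      exact ⟨(x - 1) * a, by rw [hα]; linear_combination hab⟩
    have h2 : α - x ∈ sp (π i) := by
      rw [Ideal.mem_span_singleton]
      exact ⟨(1 - x) * b, by rw [hα]; linear_combination x * hab⟩
    have hsα : ∀ j ∈ S, sy (π j) α = if j = i then -1 else 1 := by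
      intro j hj
      split_ifs with hji
      · rw [hji, sy_per (π i) α x h2, hsx]
      · rw [sy_per (π j) α 1 ?_, sy_oneO (hS.fa.pn j hj).pr]
        exact (Ideal.span_singleton_le_span_singleton.2
          (Finset.dvd_prod_of_mem π (Finset.mem_erase.2 ⟨hji, hj⟩))) h1
    have hX : ∏ j ∈ S, sy (π j) α = -1 := by
      rw [Finset.prod_congr rfl hsα, Finset.prod_ite_eq' S i, if_pos hi]
    have hα0 : α ≠ 0 := by
      intro h0
      have h3 := hsα i hi
      rw [if_pos rfl, h0, (sy_zero_iff).2 (Submodule.zero_mem _)] at h3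
      norm_num at h3
    refine ⟨α, hα0, ?_, ?_, ?_⟩
    · have h4 : d ∣ P := by
        have h5 : IsCoprime d (π i) :=
          ((hS.fa.pn i hi).pr.irreducible.coprime_iff_not_dvd.2 hid).symm
        refine h5.dvd_of_dvd_mul_left ?_
        rw [hP, Finset.mul_prod_erase S π hi, hc]
        exact dvd_mul_right _ _
      exact (Ideal.span_singleton_le_span_singleton.2 h4) h1
    · rw [Ideal.isCoprime_span_singleton_iff]
      refine IsCoprime.prod_right fun j hj => ?_
      refine ((hS.fa.pn j hj).pr.irreducible.coprime_iff_not_dvd.2 fun h3 => ?_).symm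
      have h4 := hsα j hj
      rw [(sy_zero_iff).2 (Ideal.mem_span_singleton.2 h3)] at h4
      split_ifs at h4 <;> norm_num at h4
    · beta_reduce
      rw [hS.xs, hX, pow_zero]
      norm_num

end Pool.Agent.H463.QE
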