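import Pool.Agent.H463.QE.OkX

/-!
# Infinitely many parameters with an arbitrary number of prime factors
-/

set_option autoImplicit false
set_option linter.unusedSectionVars false

attribute [-instance] DivisionRing.toRatAlgebra

open NumberField IsDedekindDomain

namespace Pool.Agent.H463.QE

open Pool.Agent.R426.QC Pool.Agent.R426.QD
open Pool.Agent.Y698 Pool.Agent.Y698.SG
open Pool.Agent.Y279.SG (sy_eq red int_sq mk_int_of cXY_cj nR_dvd unit_of_nR nR_int dvd_coord qch_eq)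
open Pool.Agent.W192.HK (sp)

/-- inert prime numbers `≡ 1 mod 4` -/
structure Iq (q : ℕ) : Prop where
  i : In q
  m : q % 4 = 1

lemma Iq.pn {q : ℕ} (h : Iq q) : Pn (q : RR) := by
  have hp : Prime (q : RR) := (irr_inert h.i.pr h.i.ns).prime
  refine ⟨hp, fun h2 => ?_, ?_⟩
  · have h3 := nR_dvd (y := (q : RR)) (x := 2) (Ideal.mem_span_singleton.2 h2)
    have h4 : nR (2 : RR) = 4 := by
      have : (2 : RR) = ((2 : ℕ) : RR) := by push_cast; rfl
      rw [this, nR_nat]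
      norm_num
    rw [nR_nat, h4] at h3
    have h5 : (q : ℤ) ^ 2 ≤ 4 := Int.le_of_dvd (by norm_num) h3
    have h6 := h.i.pr.two_le
    have h7 := h.m
    have h8 : 5 ≤ q := by
      by_contra h9
      interval_cases q <;> omega
    have h9 : (5 : ℤ) ≤ q := by exact_mod_cast h8
    nlinarith
  · rw [map_natCast]
    have h1 := h.m
    have h2 : (((q : ℤ) - 1 : ℤ) : ZMod 4) = 0 := by
      rw [ZMod.intCast_zmod_eq_zero_iff_dvd]
      omega
    rw [Int.cast_sub, Int.cast_one, sub_eq_zero] at h2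
    exact_mod_cast h2

lemma Iq.tp {q : ℕ} (h : Iq q) : tp (q : RR) = 0 := by
  have h1 : Pm (q : RR) := ⟨h.pn.pr, by
    have h2 := h.m
    refine ⟨((q / 4 : ℕ) : RR), ?_⟩
    have h3 : q = 1 + 4 * (q / 4) := by omega
    exact_mod_cast congrArg (fun n : ℕ => (n : RR)) h3⟩
  exact tp_pm h1

lemma Iq.ne7 {q : ℕ} (h : Iq q) : (q : RR) ∉ sp fR := by
  intro h1
  have h3 := nR_dvd (y := fR) (x := (q : RR)) h1
  rw [nR_fR, nR_nat] at h3
  have h4 : (7 : ℤ) ∣ (q : ℤ) := Int.Prime.dvd_pow' (by norm_num) h3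
  have h5 : 7 ∣ q := by exact_mod_cast h4
  exact h.i.seven ((Nat.prime_dvd_prime_iff_eq (by norm_num) h.i.pr).1 h5).symm

lemma iq_inj {q q' : ℕ} (h : (q : RR) = (q' : RR)) : q = q' := by
  have h1 := congrArg nR h
  rw [nR_nat, nR_nat] at h1
  have h2 : q ^ 2 = q' ^ 2 := by exact_mod_cast h1
  exact Nat.pow_left_injective (n := 2) (by norm_num) h2

/-- the family of inert primes -/
lemma fs_iq {T : Finset ℕ} (hT : ∀ q ∈ T, Iq q) :
    Fs (T.image (Nat.cast : ℕ → RR)) (fun x => x) := by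
  classical
  have hpn : ∀ ϖ ∈ T.image (Nat.cast : ℕ → RR), Pn ϖ ∧ tp ϖ = 0 ∧ ϖ ∉ sp fR := by
    intro ϖ hϖ
    obtain ⟨q, hq, rfl⟩ := Finset.mem_image.1 hϖ
    exact ⟨(hT q hq).pn, (hT q hq).tp, (hT q hq).ne7⟩
  exact ⟨⟨⟨fun i hi => (hpn i hi).1, fun i hi j hj hij => pn_ne (hpn i hi).1 (hpn j hj).1 hij⟩,
    Finset.sum_eq_zero fun i hi => (hpn i hi).2.1⟩, fun i hi => (hpn i hi).2.2⟩

/-- the determinant -/
theorem gX_iq {T : Finset ℕ} (hT : ∀ q ∈ T, Iq q) : gX (T.image (Nat.cast : ℕ → RR)) ≠ 0 := by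
  classical
  intro h0
  have hf := fs_iq hT
  unfold gX at h0
  obtain ⟨T', hT', hne, hn, -, g2⟩ := lin_ex hf.sr h0 none
  obtain ⟨o, ho⟩ := hne
  rcases o with _ | i
  · exact hn ho
  have hi := mem_se.1 (hT' ho)
  have h1 := g2 (some i) (hT' ho) ho
  rw [← Finset.add_sum_erase _ _ (Finset.mem_sdiff.2 ⟨none_se, hn⟩)] at h1
  obtain ⟨q, hq, rfl⟩ := Finset.mem_image.1 hi
  have h2 : mr (pe fun x : RR => x) (some (q : RR)) none = 1 := by
    show lg (sy (-fR) (q : RR)) = 1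
    rw [sy_negm, sy_fR, (hT q hq).i.e7, lg_neg_one]
  rw [h2, Finset.sum_eq_zero, add_zero] at h1
  · exact one_ne_zero h1
  · intro u hu
    rw [Finset.mem_erase, Finset.mem_sdiff] at hu
    rcases u with _ | j
    · exact absurd rfl hu.1
    have hj := mem_se.1 hu.2.1
    obtain ⟨q', hq', rfl⟩ := Finset.mem_image.1 hj
    have hne : (q : RR) ≠ (q' : RR) := fun h => hu.2.2 (by rw [← h]; exact ho)
    show lg (sy (q' : RR) (q : RR)) = 0
    have h3 : (q : RR) ∉ sp (q' : RR) := pn_ne (hT q hq).pn (hT q' hq').pn hne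
    have h4 : IsSquare (Ideal.Quotient.mk (sp (q' : RR)) (q : RR)) := by
      have := (hT q' hq').i.int_sq (q : ℤ)
      rwa [Int.cast_natCast] at this
    unfold sy
    rw [if_neg h3, if_pos h4, lg_one]

lemma prod_iq (T : Finset ℕ) : ∏ ϖ ∈ T.image (Nat.cast : ℕ → RR), ϖ = ((∏ q ∈ T, q : ℕ) : RR) := by
  classical
  rw [Finset.prod_image fun x _ y _ h => iq_inj h]
  push_cast
  rfl

lemma nsq37 : ¬ IsSquare (3 : ZMod 7) := by decide

/-- there are infinitely many such primes -/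
lemma inf_iq : {q : ℕ | Iq q}.Infinite := by
  have h17 : IsUnit ((17 : ℕ) : ZMod 28) := by decide
  refine (Nat.infinite_setOfPred_prime_and_eq_mod h17).mono ?_
  rintro q ⟨hq, hm⟩
  have hm' : q % 28 = 17 := by
    have h1 := (ZMod.natCast_eq_natCast_iff q 17 28).1 hm
    exact h1
  have hF : Fact q.Prime := ⟨hq⟩
  have hF7 : Fact (Nat.Prime 7) := ⟨by norm_num⟩
  refine ⟨⟨hq, by rintro rfl; norm_num at hm', fun hs => ?_⟩, by omega⟩
  have h4 : q % 4 = 1 := by omega
  have h7 : q ≠ 2 := by rintro rfl; norm_num at hm'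
  have hneg : IsSquare (-1 : ZMod q) := ZMod.exists_sq_eq_neg_one_iff.2 (by omega)
  have hs7 : IsSquare ((7 : ℕ) : ZMod q) := by
    have h8 := hs.mul hneg
    have h9 : (-7 : ZMod q) * -1 = ((7 : ℕ) : ZMod q) := by push_cast; ring
    rwa [h9] at h8
  have h10 := (ZMod.exists_sq_eq_prime_iff_of_mod_four_eq_one (p := q) (q := 7) h4
    (by norm_num)).1 hs7
  have h11 : ((q : ℕ) : ZMod 7) = 3 := by
    have : q % 7 = 3 := by omega
    rw [← ZMod.natCast_mod, this]
    rfl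
  rw [h11] at h10
  exact nsq37 h10

/-- **infinitely many parameters with `k` prime factors** -/
theorem inf_X (k : ℕ) (hk : 1 ≤ k) : {J : RR | ∃ S : Finset RR, S.card = k ∧
    Fs S (fun x => x) ∧ 1 + 4 * J = ∏ ϖ ∈ S, ϖ ∧ gX S ≠ 0}.Infinite := by
  classical
  obtain ⟨T0, hT0, hc0⟩ := inf_iq.exists_subset_card_eq (k - 1)
  have hinf : ({q : ℕ | Iq q} \ (T0 : Set ℕ)).Infinite := inf_iq.sdiff (Finset.finite_toSet T0)
  have hT0' : ∀ q ∈ T0, Iq q := fun q hq => hT0 (Finset.mem_coe.2 hq)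
  have hmod : ∀ T : Finset ℕ, (∀ q ∈ T, Iq q) → (∏ q ∈ T, q) % 4 = 1 := by
    intro T hT
    induction T using Finset.induction_on with
    | empty => simp
    | insert a T ha ih =>
      rw [Finset.prod_insert ha, Nat.mul_mod, ih fun q hq => hT q (Finset.mem_insert_of_mem hq),
        (hT a (Finset.mem_insert_self _ _)).m]
  have key : ∀ q ∈ ({q : ℕ | Iq q} \ (T0 : Set ℕ)), ∀ p ∈ insert q T0, Iq p := by
    intro q hq p hp
    rcases Finset.mem_insert.1 hp with rfl | h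
    · exact hq.1
    · exact hT0' p h
  refine Set.infinite_of_injOn_mapsTo
    (f := fun q : ℕ => (((∏ p ∈ insert q T0, p) / 4 : ℕ) : RR)) ?_ ?_ hinf
  · intro q hq q' hq' h
    have h1 : (∏ p ∈ insert q T0, p) / 4 = (∏ p ∈ insert q' T0, p) / 4 := iq_inj h
    have h2 := hmod _ (key q hq)
    have h3 := hmod _ (key q' hq')
    have h4 : (∏ p ∈ insert q T0, p) = ∏ p ∈ insert q' T0, p := by omega
    have n1 : q ∉ T0 := fun h => hq.2 (Finset.mem_coe.2 h)
    have n2 : q' ∉ T0 := fun h => hq'.2 (Finset.mem_coe.2 h)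
    rw [Finset.prod_insert n1, Finset.prod_insert n2] at h4
    have h5 : 0 < ∏ p ∈ T0, p := Finset.prod_pos fun p hp => (hT0' p hp).i.pr.pos
    exact Nat.eq_of_mul_eq_mul_right h5 h4
  · intro q hq
    have n1 : q ∉ T0 := fun h => hq.2 (Finset.mem_coe.2 h)
    refine ⟨(insert q T0).image (Nat.cast : ℕ → RR), ?_, fs_iq (key q hq), ?_, gX_iq (key q hq)⟩
    · rw [Finset.card_image_of_injective _ fun x y h => iq_inj h, Finset.card_insert_of_notMem n1,
        hc0]
      omega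
    · rw [prod_iq]
      have h2 := hmod _ (key q hq)
      have h3 : 1 + 4 * ((∏ p ∈ insert q T0, p) / 4) = ∏ p ∈ insert q T0, p := by omega
      have h4 := congrArg (fun n : ℕ => (n : RR)) h3
      simp only [Nat.cast_add, Nat.cast_mul, Nat.cast_one, Nat.cast_ofNat] at h4
      exact h4

end Pool.Agent.H463.QE
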