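import Pool.Graph.R_seed8.R426.QC.Sel
import Pool.Graph.R_seed8.Y286.SG.RecA

/-!
# Linear algebra for the descent
-/

set_option autoImplicit false
set_option linter.unusedSectionVars false

namespace Pool.Agent.H463.QE

open Pool.Agent.Y286.SG (gd)
open Pool.Agent.Y697.PP (Mt ker_of_det)

variable {V : Type} [DecidableEq V]

/-- the relations given by the reciprocity law -/
structure Sr (t : V → ZMod 2) (r : V → V → ZMod 2) (S : Finset V) : Prop where
  sy : ∀ i ∈ S, ∀ j ∈ S, i ≠ j → r j i = r i j + t i * t j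
  od : ∑ i ∈ S, t i = 1

variable {t : V → ZMod 2} {r : V → V → ZMod 2} {S : Finset V}

lemma add_self2 (x : ZMod 2) : x + x = 0 := by revert x; decide

lemma mul_self2 (x : ZMod 2) : x * x = x := by revert x; decide

lemma Sr.tr (h : Sr t r S) : Sr t (fun i j => r j i) S := by
  refine ⟨fun i hi j hj hij => ?_, h.od⟩
  show r i j = r j i + t i * t j
  rw [h.sy i hi j hj hij, add_assoc, add_self2, add_zero]

lemma gd_Mt' (c : V → ZMod 2) (r : V → V → ZMod 2) (S : Finset V) :
    gd c r S = (Mt r c S).det := by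
  unfold gd
  congr 1
  ext i j
  rw [Matrix.of_apply]
  unfold Mt
  by_cases h : i = j
  · rw [if_pos h, if_pos h.symm]
  · rw [if_neg h, if_neg (Ne.symm h)]

lemma gd_tr (h : Sr t r S) : gd t (fun i j => r j i) S = gd t r S := by
  unfold gd
  rw [← Matrix.det_transpose]
  congr 1
  ext i j
  rw [Matrix.transpose_apply, Matrix.of_apply, Matrix.of_apply]
  by_cases hij : i = j
  · subst hij
    rw [if_pos rfl, if_pos rfl]
    have h2 : ∀ k ∈ S.erase (i : V), r k i = r i k + t i * t k := by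
      intro k hk
      rw [Finset.mem_erase] at hk
      exact h.sy i i.2 k hk.2 (Ne.symm hk.1)
    rw [Finset.sum_congr rfl h2, Finset.sum_add_distrib, ← Finset.mul_sum]
    have h3 : ∑ k ∈ S.erase (i : V), t k = 1 - t i := by
      rw [← h.od, ← Finset.add_sum_erase S t i.2]
      ring
    rw [h3]
    have h4 : ∀ x : ZMod 2, x * (1 - x) = 0 := by decide
    rw [h4, add_zero]
  · rw [if_neg (Ne.symm hij), if_neg hij]

/-- the symmetrised row sums -/
lemma Sr.row (h : Sr t r S) {i : V} (hi : i ∈ S) : ∑ u ∈ S, (r i u + r u i) = 0 := by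
  rw [← Finset.add_sum_erase S _ hi, add_self2, zero_add]
  have h2 : ∀ k ∈ S.erase i, r i k + r k i = t i * t k := by
    intro k hk
    rw [Finset.mem_erase] at hk
    rw [h.sy i hi k hk.2 (Ne.symm hk.1), ← add_assoc, add_self2, zero_add]
  rw [Finset.sum_congr rfl h2, ← Finset.mul_sum]
  have h3 : ∑ k ∈ S.erase i, t k = 1 - t i := by
    rw [← h.od, ← Finset.add_sum_erase S t hi]
    ring
  rw [h3]
  have h4 : ∀ x : ZMod 2, x * (1 - x) = 0 := by decide
  exact h4 _

/-- the sum of all the equations -/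
lemma Sr.all (h : Sr t r S) (x : V → ZMod 2) :
    ∑ i ∈ S, ∑ u ∈ S, r i u * (x i + x u) = 0 := by
  have h1 : ∑ i ∈ S, ∑ u ∈ S, r i u * (x i + x u) =
      ∑ i ∈ S, ∑ u ∈ S, r i u * x i + ∑ i ∈ S, ∑ u ∈ S, r i u * x u := by
    rw [← Finset.sum_add_distrib]
    refine Finset.sum_congr rfl fun i _ => ?_
    rw [← Finset.sum_add_distrib]
    exact Finset.sum_congr rfl fun u _ => mul_add _ _ _
  have h2 : ∑ i ∈ S, ∑ u ∈ S, r i u * x u = ∑ i ∈ S, ∑ u ∈ S, r u i * x i := Finset.sum_comm
  rw [h1, h2, ← Finset.sum_add_distrib]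
  refine Finset.sum_eq_zero fun i hi => ?_
  rw [← Finset.sum_add_distrib]
  have h3 : ∑ u ∈ S, (r i u * x i + r u i * x i) = (∑ u ∈ S, (r i u + r u i)) * x i := by
    rw [Finset.sum_mul]
    exact Finset.sum_congr rfl fun u _ => by ring
  rw [h3, h.row hi, zero_mul]

/-- the last equation -/
lemma Sr.last (h : Sr t r S) {o : V} (ho : o ∈ S) {x : V → ZMod 2}
    (hx : ∀ i ∈ S, i ≠ o → ∑ u ∈ S, r i u * (x i + x u) = 0) :
    ∑ u ∈ S, r o u * (x o + x u) = 0 := by
  have h1 := h.all x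
  rw [← Finset.add_sum_erase S _ ho] at h1
  rw [Finset.sum_eq_zero (s := S.erase o) (fun i hi => by
    rw [Finset.mem_erase] at hi
    exact hx i hi.2 hi.1), add_zero] at h1
  exact h1

/-- the rows of the transposed matrix -/
lemma Sr.rowT (h : Sr t r S) (x : V → ZMod 2) {v : V} (hv : v ∈ S) :
    ∑ u ∈ S, r u v * (x v + x u) = ∑ u ∈ S, r v u * (x v + x u) +
      t v * (x v + ∑ u ∈ S, t u * x u) := by
  have h1 : ∀ u ∈ S, r u v * (x v + x u) = r v u * (x v + x u) + t v * (t u * x v + t u * x u) := by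
    intro u hu
    by_cases huv : u = v
    · rw [huv, ← mul_add (t v), add_self2, mul_zero, mul_zero, mul_zero, add_zero]
    · rw [h.sy v hv u hu (Ne.symm huv)]
      ring
  rw [Finset.sum_congr rfl h1, Finset.sum_add_distrib, ← Finset.mul_sum, Finset.sum_add_distrib,
    ← Finset.sum_mul, h.od, one_mul]

/-- **the solutions are constant** -/
theorem lin_const (h : Sr t r S) (hg : gd t r S ≠ 0) (x : V → ZMod 2)
    (hx : ∀ i ∈ S, ∑ u ∈ S, r i u * (x i + x u) = 0) : ∃ s : ZMod 2, ∀ i ∈ S, x i = s := by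
  rw [← gd_tr h, gd_Mt'] at hg
  obtain ⟨s, hs⟩ : ∃ s, s = ∑ u ∈ S, t u * x u := ⟨_, rfl⟩
  have key := ker_of_det (fun i j => r j i) t hg (fun i => x i + s) (fun v hv => by
    have e1 : ∑ u ∈ S, r u v * ((x v + s) + (x u + s)) = ∑ u ∈ S, r u v * (x v + x u) := by
      refine Finset.sum_congr rfl fun u _ => ?_
      have : (x v + s) + (x u + s) = x v + x u := by
        have := add_self2 s
        linear_combination this
      rw [this]
    show t v * (x v + s) + ∑ u ∈ S, r u v * ((x v + s) + (x u + s)) = 0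
    rw [e1, h.rowT x hv, hx v hv, zero_add, ← hs]
    exact add_self2 _)
  refine ⟨s, fun i hi => ?_⟩
  have h1 : x i + s = 0 := key i hi
  have h2 := add_self2 s
  linear_combination h1 - h2

/-- the indicator function -/
def ind (T : Finset V) (i : V) : ZMod 2 := if i ∈ T then 1 else 0

lemma ind_row {T : Finset V} (hT : T ⊆ S) (r : V → V → ZMod 2) {i : V} :
    ∑ u ∈ S, r i u * (ind T i + ind T u) =
      if i ∈ T then ∑ u ∈ S \ T, r i u else ∑ u ∈ T, r i u := by
  rw [← Finset.sum_sdiff hT]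
  have hz : (1 : ZMod 2) + 1 = 0 := by decide
  by_cases hi : i ∈ T
  · rw [if_pos hi]
    have e1 : ∑ u ∈ S \ T, r i u * (ind T i + ind T u) = ∑ u ∈ S \ T, r i u := by
      refine Finset.sum_congr rfl fun u hu => ?_
      unfold ind
      rw [if_pos hi, if_neg (Finset.mem_sdiff.1 hu).2, add_zero, mul_one]
    have e2 : ∑ u ∈ T, r i u * (ind T i + ind T u) = 0 := by
      refine Finset.sum_eq_zero fun u hu => ?_
      unfold ind
      rw [if_pos hi, if_pos hu, hz, mul_zero]
    rw [e1, e2, add_zero]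
  · rw [if_neg hi]
    have e1 : ∑ u ∈ S \ T, r i u * (ind T i + ind T u) = 0 := by
      refine Finset.sum_eq_zero fun u hu => ?_
      unfold ind
      rw [if_neg hi, if_neg (Finset.mem_sdiff.1 hu).2, add_zero, mul_zero]
    have e2 : ∑ u ∈ T, r i u * (ind T i + ind T u) = ∑ u ∈ T, r i u := by
      refine Finset.sum_congr rfl fun u hu => ?_
      unfold ind
      rw [if_neg hi, if_pos hu, zero_add, mul_one]
    rw [e1, e2, zero_add]

/-- **the combinatorial condition**, one direction -/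
theorem lin_triv (h : Sr t r S) (hg : gd t r S ≠ 0) {o : V} (ho : o ∈ S) {T : Finset V}
    (hT : T ⊆ S) (h1 : ∀ i ∈ S, i ≠ o → i ∉ T → ∑ j ∈ T, r i j = 0)
    (h2 : ∀ i ∈ S, i ≠ o → i ∈ T → ∑ j ∈ S \ T, r i j = 0) : T = ∅ ∨ T = S := by
  have hx : ∀ i ∈ S, i ≠ o → ∑ u ∈ S, r i u * (ind T i + ind T u) = 0 := by
    intro i hi hio
    rw [ind_row hT]
    by_cases hiT : i ∈ T
    · rw [if_pos hiT]
      exact h2 i hi hio hiT
    · rw [if_neg hiT]
      exact h1 i hi hio hiT
  have hl := h.last ho hx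
  obtain ⟨s, hs⟩ := lin_const h hg (ind T) fun i hi => by
    by_cases hio : i = o
    · rw [hio]; exact hl
    · exact hx i hi hio
  have hzo : ∀ y : ZMod 2, y = 0 ∨ y = 1 := by decide
  rcases hzo s with h3 | h3
  · left
    refine Finset.eq_empty_of_forall_notMem fun i hi => ?_
    have h4 := hs i (hT hi)
    unfold ind at h4
    rw [if_pos hi, h3] at h4
    exact one_ne_zero h4
  · right
    refine Finset.Subset.antisymm hT fun i hi => ?_
    by_contra hiT
    have h4 := hs i hi
    unfold ind at h4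
    rw [if_neg hiT, h3] at h4
    exact zero_ne_one h4

/-- **the combinatorial condition**, the other direction -/
theorem lin_ex (h : Sr t r S) (hg : gd t r S = 0) (o : V) :
    ∃ T : Finset V, T ⊆ S ∧ T.Nonempty ∧ o ∉ T ∧ (∀ i ∈ S, i ∉ T → ∑ j ∈ T, r i j = 0) ∧
      ∀ i ∈ S, i ∈ T → ∑ j ∈ S \ T, r i j = 0 := by
  rw [← gd_tr h, gd_Mt', ← Matrix.exists_mulVec_eq_zero_iff] at hg
  obtain ⟨v, hv0, hv⟩ := hg
  obtain ⟨x, hx⟩ : ∃ x : V → ZMod 2, x = fun i => if hi : i ∈ S then v ⟨i, hi⟩ else 0 := ⟨_, rfl⟩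
  have hxv : ∀ i : S, x i = v i := by
    intro i
    rw [hx]
    simp
  -- the equations
  have heq : ∀ i ∈ S, t i * x i + ∑ u ∈ S, r u i * (x i + x u) = 0 := by
    intro i hi
    have h1 := congrFun hv ⟨i, hi⟩
    simp only [Matrix.mulVec, dotProduct, Pi.zero_apply] at h1
    rw [← Finset.add_sum_erase _ _ (Finset.mem_univ (⟨i, hi⟩ : S))] at h1
    have e1 : Mt (fun i j => r j i) t S ⟨i, hi⟩ ⟨i, hi⟩ = t i + ∑ y ∈ S.erase i, r y i := by
      unfold Mt; rw [if_pos rfl]
    have e2 : ∑ y ∈ (Finset.univ : Finset S).erase ⟨i, hi⟩,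
        Mt (fun i j => r j i) t S ⟨i, hi⟩ y * v y = ∑ y ∈ S.erase i, r y i * x y := by
      refine Finset.sum_bij (fun y _ => (y : V)) ?_ ?_ ?_ ?_
      · intro y hy
        rw [Finset.mem_erase] at hy ⊢
        exact ⟨fun h => hy.1 (Subtype.ext h), y.2⟩
      · intro y _ z _ hyz
        exact Subtype.ext hyz
      · intro y hy
        rw [Finset.mem_erase] at hy
        exact ⟨⟨y, hy.2⟩, Finset.mem_erase.2 ⟨fun h => hy.1 (congrArg Subtype.val h),
          Finset.mem_univ _⟩, rfl⟩
      · intro y hy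
        unfold Mt
        rw [if_neg (Finset.ne_of_mem_erase hy), ← hxv]
    rw [e1, e2, ← hxv ⟨i, hi⟩] at h1
    rw [← Finset.add_sum_erase S _ hi, add_self2, mul_zero, zero_add]
    have e3 : ∑ u ∈ S.erase i, r u i * (x i + x u) =
        (∑ y ∈ S.erase i, r y i) * x i + ∑ y ∈ S.erase i, r y i * x y := by
      rw [Finset.sum_mul, ← Finset.sum_add_distrib]
      exact Finset.sum_congr rfl fun u _ => mul_add _ _ _
    rw [e3]
    linear_combination h1
  obtain ⟨s, hs⟩ : ∃ s, s = ∑ u ∈ S, t u * x u := ⟨_, rfl⟩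
  have heq2 : ∀ i ∈ S, ∑ u ∈ S, r i u * (x i + x u) = t i * s := by
    intro i hi
    have h1 := heq i hi
    rw [h.rowT x hi, ← hs] at h1
    have h2 := add_self2 (t i * x i)
    have h3 := add_self2 (t i * s)
    linear_combination h1 - h2 - h3
  have hs0 : s = 0 := by
    have h1 := h.all x
    rw [Finset.sum_congr rfl heq2, ← Finset.sum_mul, h.od, one_mul] at h1
    exact h1
  have hzo : ∀ y : ZMod 2, y = 0 ∨ y = 1 := by decide
  have hL : ∀ i ∈ S, ∑ u ∈ S, r i u * (x i + x u) = 0 := by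
    intro i hi
    rw [heq2 i hi, hs0, mul_zero]
  -- the two supports
  have hfin : ∀ c : ZMod 2, x o ≠ c → (∃ i ∈ S, x i = c) →
      ∃ T : Finset V, T ⊆ S ∧ T.Nonempty ∧ o ∉ T ∧ (∀ i ∈ S, i ∉ T → ∑ j ∈ T, r i j = 0) ∧
      ∀ i ∈ S, i ∈ T → ∑ j ∈ S \ T, r i j = 0 := by
    rintro c hoc ⟨i0, hi0, hc0⟩
    obtain ⟨T, hT⟩ : ∃ T, T = S.filter fun i => x i = c := ⟨_, rfl⟩
    have hTS : T ⊆ S := by rw [hT]; exact Finset.filter_subset _ _
    have hmem : ∀ i ∈ S, (i ∈ T ↔ x i = c) := fun i hi => by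
      rw [hT, Finset.mem_filter]
      exact ⟨fun h => h.2, fun h => ⟨hi, h⟩⟩
    have hind : ∀ i ∈ S, ∀ u ∈ S, ind T i + ind T u = x i + x u := by
      intro i hi u hu
      have key : ∀ j ∈ S, ind T j = x j + (c + 1) := by
        intro j hj
        unfold ind
        by_cases h1 : j ∈ T
        · rw [if_pos h1, (hmem j hj).1 h1, ← add_assoc, add_self2, zero_add]
        · rw [if_neg h1]
          have h2 : x j ≠ c := fun h => h1 ((hmem j hj).2 h)
          rcases hzo c with h4 | h4 <;> rcases hzo (x j) with h5 | h5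
          · exact absurd (h5.trans h4.symm) h2
          · rw [h4, h5]; decide
          · rw [h4, h5]; decide
          · exact absurd (h5.trans h4.symm) h2
      rw [key i hi, key u hu]
      have := add_self2 (c + 1)
      linear_combination this
    refine ⟨T, hTS, ⟨i0, (hmem i0 hi0).2 hc0⟩, fun ho => ?_, fun i hi hiT => ?_, fun i hi hiT => ?_⟩
    · exact hoc ((hmem o (hTS ho)).1 ho)
    · have h1 := ind_row hTS r (i := i)
      rw [if_neg hiT, Finset.sum_congr rfl (fun u hu => by rw [hind i hi u hu]), hL i hi] at h1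
      exact h1.symm
    · have h1 := ind_row hTS r (i := i)
      rw [if_pos hiT, Finset.sum_congr rfl (fun u hu => by rw [hind i hi u hu]), hL i hi] at h1
      exact h1.symm
  rcases hzo (x o) with h1 | h1
  · refine hfin 1 (by rw [h1]; exact zero_ne_one) ?_
    by_contra hcon
    push Not at hcon
    apply hv0
    funext i
    rw [← hxv i]
    exact (hzo (x i)).resolve_right (hcon i i.2)
  · refine hfin 0 (by rw [h1]; exact one_ne_zero) ?_
    by_contra hcon
    push Not at hcon
    have h2 : s = 1 := by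
      rw [hs, ← h.od]
      refine Finset.sum_congr rfl fun i hi => ?_
      rw [(hzo (x i)).resolve_left (hcon i hi), mul_one]
    rw [hs0] at h2
    exact zero_ne_one h2

end Pool.Agent.H463.QE
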