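import Pool.Graph.R_seed8.R426.QC.Slf
import Pool.Graph.R_seed8.R426.QC.Slt
import Pool.Agent.H463.QE.ShrX

/-!
# Local points, general twists
-/

set_option autoImplicit false
set_option linter.unusedSectionVars false

attribute [-instance] DivisionRing.toRatAlgebra

open NumberField IsDedekindDomain

namespace Pool.Agent.H463.QE

open WithZero
open Pool.Agent.R426.QC Pool.Agent.R426.QD
open Pool.Agent.Y698 Pool.Agent.Y698.SG
open Pool.Agent.W192.HK (sp)
open Pool.Agent.Y682 (vv vv_coe charZero_adic exists_sqrt exists_sqrt')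
open Pool.Agent.R426.QC.Cv (LocI)

lemma cl6X {d : RR} (h : r4 d = 1) : e6 d = 1 ∨ e6 d = 5 := by
  obtain ⟨c, hc⟩ := r4_dvd h
  have h1 : e6 d = 1 + 4 * e6 c := by
    have h2 : d = 1 + aR ^ 2 * c := by rw [← hc]; ring
    rw [h2, map_add, map_one, map_mul, map_pow, e6_a]
    congr 2
  rw [h1]
  have : ∀ y : ZMod 8, 1 + 4 * y = 1 ∨ 1 + 4 * y = 5 := by decide
  exact this _

lemma e3_four {x : RR} (h : e3 x = 4) : cj aR ^ 2 ∣ x := by
  have h1 : e3 (x - 4) = 0 := by rw [map_sub, h, map_ofNat]; decide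
  obtain ⟨c, hc⟩ := e3_zero h1
  refine ⟨cj aR * c + aR ^ 2, ?_⟩
  linear_combination hc + four_eq

/-- odd elements modulo the cube of the conjugate of `α` -/
lemma cl3X {d : RR} (h : r4 (cj d) = 1 ∨ r4 (cj d) = -1) :
    e3 d = 1 ∨ e3 d = 3 ∨ e3 d = 5 ∨ e3 d = 7 := by
  have key : ∀ x : RR, r4 (cj x) = 1 → e3 x = 1 ∨ e3 x = 5 := by
    intro x hx
    obtain ⟨c, hc⟩ := r4_cjdvd hx
    have h1 : e3 x = 1 + 4 * e3 c := by
      have h2 : x = 1 + cj aR ^ 2 * c := by rw [← hc]; ring
      rw [h2, map_add, map_one, map_mul, map_pow, e3_b]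
      congr 2
    rw [h1]
    have : ∀ y : ZMod 8, 1 + 4 * y = 1 ∨ 1 + 4 * y = 5 := by decide
    exact this _
  rcases h with h | h
  · rcases key d h with h1 | h1
    · exact Or.inl h1
    · exact Or.inr (Or.inr (Or.inl h1))
  · have h2 : r4 (cj (-d)) = 1 := by rw [map_neg, map_neg, h, neg_neg]
    rcases key _ h2 with h1 | h1
    · right; right; right
      rw [map_neg] at h1
      have : e3 d = -1 := by rw [← h1, neg_neg]
      rw [this]; decide
    · right; left
      rw [map_neg] at h1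
      have : e3 d = -5 := by rw [← h1, neg_neg]
      rw [this]; decide

section

variable {K : Type} [Field K] [NumberField K] (e : RR ≃+* 𝓞 K)

/-- the place `α` -/
lemma sol_aX {d D : RR} (hd : r4 d = 1) (hD : ∃ J : RR, D = 1 + 4 * J)
    (hd0 : d ≠ 0) (hD0 : D ≠ 0) (hz : Prime aR) :
    LocI K ((plc e hz : HeightOneSpectrum (𝓞 K)).adicCompletion K) (cA (em e aR) (em e D))
      (cB (em e aR) (em e D)) (em e d) := by
  have := charZero_adic (plc e hz : HeightOneSpectrum (𝓞 K))
  have h2 : aR ∣ (2 : RR) := ⟨cj aR, by rw [R426.QC.cj_aR]; linear_combination aR_sq⟩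
  have hsq : ∀ c : RR, e6 c = 1 → ∃ s : (plc e hz : HeightOneSpectrum (𝓞 K)).adicCompletion K,
      s ^ 2 = pk e (plc e hz) c := fun c hc => sqrt_two e hz h2 (e6_zero (by
    rw [map_sub, map_one, hc, sub_self]))
  rcases cl6X hd with h5 | h5
  · obtain ⟨s, hs⟩ := hsq d h5
    exact sol_sqE e _ hd0 hs
  rcases cl6 hD with h6 | h6
  · obtain ⟨s, hs⟩ := hsq (-(D * fR * d)) (by
      rw [map_neg, map_mul, map_mul, h5, h6, e6_f]
      decide)
    refine loc_tor (ema_sq e) (s := s) (pk_ne e (plc e hz) hd0) (em_ne e hD0) ?_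
    rw [hs]
    unfold pk
    simp only [map_neg, map_mul, em_fR]
    ring
  · obtain ⟨y', hy'⟩ := e6_four (x := d + D * fR * cj aR ^ 2) (by
      rw [map_add, map_mul, map_mul, map_pow, h5, h6, e6_f, e6_b]
      decide)
    have hodd : e6 y' = 1 ∨ e6 y' = 3 ∨ e6 y' = 5 ∨ e6 y' = 7 := by
      have h7 := congrArg e6 hy'
      rw [map_add, map_mul, map_mul, map_pow, h5, h6, e6_f, e6_b, map_mul, map_pow, e6_a] at h7
      revert h7
      generalize e6 y' = t
      revert t
      decide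
    obtain ⟨s, hs⟩ := hsq (d * y' * (y' - 4 * (D * fR))) (by
      rw [map_mul, map_mul, map_sub, map_mul, map_mul, h5, h6, e6_f, map_ofNat]
      rcases hodd with h | h | h | h <;> rw [h] <;> decide)
    refine loc_r (ema_sq e) (r := 1) (z := s * pk e (plc e hz) (aR ^ 2))
      (pk_ne e (plc e hz) hd0) one_ne_zero ?_
    have h8 : d + D * fR * cj aR ^ 6 = aR ^ 2 * (y' - 4 * (D * fR)) := by
      have e1 : cj aR ^ 4 = 1 - aR ^ 4 := by
        rw [R426.QC.cj_aR]
        linear_combination (2 * aR ^ 2 - 2 * aR) * aR_sq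
      linear_combination hy' + (D * fR * cj aR ^ 2) * e1 + (D * fR * aR ^ 2) * four_eq
    have h9 : pk e (plc e hz) (d + D * fR * cj aR ^ 2) * pk e (plc e hz) (d + D * fR * cj aR ^ 6) *
        pk e (plc e hz) d =
        pk e (plc e hz) (d * y' * (y' - 4 * (D * fR))) * pk e (plc e hz) (aR ^ 2) ^ 2 := by
      unfold pk
      rw [h8, hy']
      simp only [map_mul, map_pow]
      ring
    rw [mul_pow, hs, ← h9]
    unfold pk
    simp only [map_add, map_mul, map_pow, em_fR, em_cja]
    ring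

/-- the place `ᾱ` -/
lemma sol_bX {d D : RR} (hd : r4 (cj d) = 1 ∨ r4 (cj d) = -1) (hD : ∃ J : RR, D = 1 + 4 * J)
    (hd0 : d ≠ 0) (hD0 : D ≠ 0) (hz : Prime (cj aR)) :
    LocI K ((plc e hz : HeightOneSpectrum (𝓞 K)).adicCompletion K) (cA (em e aR) (em e D))
      (cB (em e aR) (em e D)) (em e d) := by
  have := charZero_adic (plc e hz : HeightOneSpectrum (𝓞 K))
  have h2 : cj aR ∣ (2 : RR) := ⟨aR, by rw [R426.QC.cj_aR]; linear_combination aR_sq⟩
  have hsq : ∀ c : RR, e3 c = 1 → ∃ s : (plc e hz : HeightOneSpectrum (𝓞 K)).adicCompletion K,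
      s ^ 2 = pk e (plc e hz) c := fun c hc => sqrt_two e hz h2 (e3_zero (by
    rw [map_sub, map_one, hc, sub_self]))
  -- the class of the point of order two
  have htor : e3 (-(D * fR * d)) = 1 →
      LocI K ((plc e hz : HeightOneSpectrum (𝓞 K)).adicCompletion K) (cA (em e aR) (em e D))
      (cB (em e aR) (em e D)) (em e d) := by
    intro h
    obtain ⟨s, hs⟩ := hsq _ h
    refine loc_tor (ema_sq e) (s := s) (pk_ne e (plc e hz) hd0) (em_ne e hD0) ?_
    rw [hs]
    unfold pk
    simp only [map_neg, map_mul, em_fR]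
    ring
  -- the other class
  have hoth : (e3 d = 3 ∨ e3 d = 7) → e3 (d + D * fR) = 4 →
      LocI K ((plc e hz : HeightOneSpectrum (𝓞 K)).adicCompletion K) (cA (em e aR) (em e D))
      (cB (em e aR) (em e D)) (em e d) := by
    intro hdd h
    obtain ⟨y, hy⟩ := e3_four h
    have hodd : e3 y = 1 ∨ e3 y = 3 ∨ e3 y = 5 ∨ e3 y = 7 := by
      have h7 := congrArg e3 hy
      rw [h, map_mul, map_pow, e3_b] at h7
      revert h7
      generalize e3 y = t
      revert t
      decide
    have h8 : (8 : RR) = aR ^ 3 * cj aR ^ 3 := eight_eq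
    obtain ⟨k, hk⟩ : ∃ k : RR, e3 (y + d * aR ^ 3 * cj aR * (k + 2 * k ^ 2)) = 1 := by
      have e3n : ∀ n : ℕ, e3 (n : RR) = (n : ZMod 8) := fun n => map_natCast e3 n
      rcases hodd with h1 | h1 | h1 | h1
      · refine ⟨((0 : ℕ) : RR), ?_⟩
        simp only [map_add, map_mul, map_pow, e3n, e3_a, e3_b, h1, map_ofNat]
        rcases hdd with h2 | h2 <;> rw [h2] <;> decide
      · refine ⟨((3 : ℕ) : RR), ?_⟩
        simp only [map_add, map_mul, map_pow, e3n, e3_a, e3_b, h1, map_ofNat]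
        rcases hdd with h2 | h2 <;> rw [h2] <;> decide
      · refine ⟨((2 : ℕ) : RR), ?_⟩
        simp only [map_add, map_mul, map_pow, e3n, e3_a, e3_b, h1, map_ofNat]
        rcases hdd with h2 | h2 <;> rw [h2] <;> decide
      · refine ⟨((1 : ℕ) : RR), ?_⟩
        simp only [map_add, map_mul, map_pow, e3n, e3_a, e3_b, h1, map_ofNat]
        rcases hdd with h2 | h2 <;> rw [h2] <;> decide
    obtain ⟨m, hm⟩ : ∃ m : RR, m = y + d * aR ^ 3 * cj aR * (k + 2 * k ^ 2) := ⟨_, rfl⟩
    rw [← hm] at hk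
    have k1 : d * (1 + 4 * k) ^ 2 + D * fR = cj aR ^ 2 * m := by
      rw [hm]
      linear_combination hy + (d * (k + 2 * k ^ 2)) * h8
    obtain ⟨s, hs⟩ := hsq (d * m * (d * (1 + 4 * k) ^ 2 + D * fR * cj aR ^ 4)) (by
      simp only [map_add, map_mul, map_pow, map_one, map_ofNat, e3_b, hk]
      generalize e3 k = t
      generalize e3 D = x
      generalize e3 fR = z
      rcases hdd with h2 | h2 <;> rw [h2] <;> revert t x z <;> decide)
    have hr0 : (1 : RR) + 4 * k ≠ 0 := by
      intro h0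
      have h9 := congrArg e3 h0
      rw [map_add, map_one, map_mul, map_ofNat, map_zero] at h9
      revert h9
      generalize e3 k = t
      revert t
      decide
    refine loc_r (ema_sq e) (r := pk e (plc e hz) (cj aR * (1 + 4 * k)))
      (z := s * pk e (plc e hz) (cj aR ^ 3)) (pk_ne e (plc e hz) hd0)
      (pk_ne e (plc e hz) (mul_ne_zero hz.ne_zero hr0)) ?_
    have k3 : d * (cj aR * (1 + 4 * k)) ^ 2 + D * fR * cj aR ^ 2 = cj aR ^ 4 * m := by
      linear_combination (cj aR ^ 2) * k1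
    have k4 : d * (cj aR * (1 + 4 * k)) ^ 2 + D * fR * cj aR ^ 6 =
        cj aR ^ 2 * (d * (1 + 4 * k) ^ 2 + D * fR * cj aR ^ 4) := by ring
    have h9 : pk e (plc e hz) (d * (cj aR * (1 + 4 * k)) ^ 2 + D * fR * cj aR ^ 2) *
        pk e (plc e hz) (d * (cj aR * (1 + 4 * k)) ^ 2 + D * fR * cj aR ^ 6) *
          pk e (plc e hz) d =
        pk e (plc e hz) (d * m * (d * (1 + 4 * k) ^ 2 + D * fR * cj aR ^ 4)) *
          pk e (plc e hz) (cj aR ^ 3) ^ 2 := by
      rw [k3, k4]
      unfold pk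
      simp only [map_mul, map_pow]
      ring
    rw [mul_pow, hs, ← h9]
    unfold pk
    simp only [map_add, map_mul, map_pow, map_one, map_ofNat, em_fR, em_cja]
    ring
  rcases cl3X hd with h5 | h5 | h5 | h5
  · obtain ⟨s, hs⟩ := hsq d h5
    exact sol_sqE e _ hd0 hs
  · rcases cl3 hD with h6 | h6
    · exact htor (by rw [map_neg, map_mul, map_mul, h5, h6, e3_f]; decide)
    · exact hoth (Or.inl h5) (by rw [map_add, map_mul, h5, h6, e3_f]; decide)
  · obtain ⟨s, hs⟩ := hsq (d * (64 * d + D * fR) * (4 * aR ^ 4 * d + D * fR)) (by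
      rw [map_mul, map_mul, map_add, map_add, map_mul, map_mul, map_mul, map_mul, map_pow, h5,
        e3_f, e3_a, map_ofNat, map_ofNat]
      rcases cl3 hD with h | h <;> rw [h] <;> decide)
    have h8r : pk e (plc e hz) (8 * cj aR) ≠ 0 := pk_ne e (plc e hz) (mul_ne_zero (by
      intro h
      have := congrArg (fun x : RR => (x : ℂ)) h
      have h88 : ((8 : RR) : ℂ) = 8 := rfl
      simp only [h88] at this
      simp at this) hz.ne_zero)
    refine loc_r (ema_sq e) (r := pk e (plc e hz) (8 * cj aR))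
      (z := s * pk e (plc e hz) (cj aR ^ 4)) (pk_ne e (plc e hz) hd0) h8r ?_
    have k1 : d * (8 * cj aR) ^ 2 + D * fR * cj aR ^ 2 = cj aR ^ 2 * (64 * d + D * fR) := by ring
    have k2 : d * (8 * cj aR) ^ 2 + D * fR * cj aR ^ 6 =
        cj aR ^ 6 * (4 * aR ^ 4 * d + D * fR) := by
      have e1 : (16 : RR) = aR ^ 4 * cj aR ^ 4 := by
        have := four_eq
        linear_combination (4 + aR ^ 2 * cj aR ^ 2) * this
      linear_combination (4 * d * cj aR ^ 2) * e1
    have h9 : pk e (plc e hz) (d * (8 * cj aR) ^ 2 + D * fR * cj aR ^ 2) *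
        pk e (plc e hz) (d * (8 * cj aR) ^ 2 + D * fR * cj aR ^ 6) * pk e (plc e hz) d =
        pk e (plc e hz) (d * (64 * d + D * fR) * (4 * aR ^ 4 * d + D * fR)) *
          pk e (plc e hz) (cj aR ^ 4) ^ 2 := by
      rw [k1, k2]
      unfold pk
      simp only [map_mul, map_pow]
      ring
    rw [mul_pow, hs, ← h9]
    unfold pk
    simp only [map_add, map_mul, map_pow, em_fR, em_cja]
    ring
  · rcases cl3 hD with h6 | h6
    · exact hoth (Or.inr h5) (by rw [map_add, map_mul, h5, h6, e3_f]; decide)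
    · exact htor (by rw [map_neg, map_mul, map_mul, h5, h6, e3_f]; decide)

end

end Pool.Agent.H463.QE
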