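import Pool.Agent.H463.QE.Bw
import Pool.Agent.H463.QE.HcX
import Pool.Graph.R_seed8.R426.QC.Val

/-!
# The central values of the twists by all the numbers `≡ 1 mod 4`
-/

set_option autoImplicit false
set_option linter.unusedSectionVars false

open Filter
open scoped Topology PeriodPair

namespace Pool.Agent.H463.QE

open Pool.Agent.R426.QC Pool.Agent.R426.QD
open Pool.Agent.Y698 Pool.Agent.Y698.SG
open H667R3 Pool.Agent.W192.HK Pool.Agent.TH936.CM Pool.Agent.TH936.PU
open Pool.Agent.W192.CM (nu)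

variable {L : PeriodPair} {Ω : ℂ} {Γ : Type*} [LinearOrderedCommGroupWithZero Γ]
  {v : Valuation ℂ Γ}

/-! ### the level -/

lemma cop_bR {ϖ : RR} (h : Pn ϖ) : IsCoprime Pool.Agent.Y698.bR ϖ := by
  refine ((h.pr.irreducible.coprime_iff_not_dvd).2 fun h1 => h.od ?_).symm
  rw [← aR_mul_bR]
  exact h1.mul_left _

lemma exists_Lv {N : RR} (hN : N ≠ 0) (hb : IsCoprime Pool.Agent.Y698.bR N) :
    ∃ m, R426.QD.Lv N m := by
  have f1 := fin_quot hN
  have hu : IsUnit (Ideal.Quotient.mk (sp N) Pool.Agent.Y698.bR) := by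
    obtain ⟨a, b, hab⟩ := hb
    refine IsUnit.of_mul_eq_one (Ideal.Quotient.mk (sp N) a) ?_
    rw [← map_mul, ← map_one (Ideal.Quotient.mk (sp N)), Ideal.Quotient.mk_eq_mk_iff_sub_mem,
      Ideal.mem_span_singleton']
    exact ⟨-b, by linear_combination -hab⟩
  obtain ⟨u, hu⟩ := hu
  have h1 : IsOfFinOrder u := isOfFinOrder_of_finite u
  refine ⟨orderOf u, hb, h1.orderOf_pos, ?_⟩
  rw [← Ideal.Quotient.mk_eq_mk_iff_sub_mem, map_pow, map_one, ← hu]
  have h2 := congrArg Units.val (pow_orderOf_eq_one u)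
  rw [Units.val_pow_eq_pow_val] at h2
  exact h2

lemma v_pn (hv : v al < 1) {ϖ : RR} (h : Pn ϖ) : v (ϖ : ℂ) = 1 := by
  have h1 : aR ^ 2 ∣ ϖ - 1 := r4_zero (by rw [map_sub, map_one, h.r4, sub_self])
  obtain ⟨c, hc⟩ := h1
  have h2 : (ϖ : ℂ) = 1 + al ^ 2 * (c : ℂ) := by
    have := congrArg (fun r : RR => (r : ℂ)) hc
    push_cast at this
    rw [aR_coe] at this
    linear_combination this
  rw [h2, Valuation.map_add_eq_of_lt_left v, map_one]
  rw [map_one, map_mul, map_pow]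
  exact mul_lt_one_of_lt_of_le (pow_lt_one₀ zero_le hv two_ne_zero) (v_RR hv c)

/-! ### the two kinds of sums -/

lemma Bd_neg {W : ℂ → ℂ} (hodd : ∀ z, W (-z) = -W z) (n : RR) (hn : n ≠ 0)
    (φ : RR → ℂ) : Bd Ω W (-n) φ = -Bd Ω W n φ := by
  have key : ∀ (I J : Ideal RR) (f : RR → ℂ), I = J →
      (∑ᶠ x : RR ⧸ I, f x.out) = ∑ᶠ x : RR ⧸ J, f x.out := by
    rintro I _ f rfl
    rfl
  have f1 := fin_quot hn
  let _ : Fintype (RR ⧸ sp n) := Fintype.ofFinite _
  unfold Bd
  rw [key (sp (-n)) (sp n) (fun x => φ x * W (Ω * x / ((-n : RR) : ℂ)))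
    (Ideal.span_singleton_neg n), finsum_eq_sum_of_fintype, finsum_eq_sum_of_fintype,
    ← Finset.sum_neg_distrib]
  refine Finset.sum_congr rfl fun x _ => ?_
  have e : Ω * (x.out : ℂ) / ((-n : RR) : ℂ) = -(Ω * (x.out : ℂ) / (n : ℂ)) := by
    push_cast
    rw [div_neg]
  rw [e, hodd]
  ring

theorem Bg_Bd {N : RR} {m : ℕ} (hN : R426.QD.Lv N m) (hL : IsLat L RR Ω) [Fintype (RR ⧸ sp fR)]
    {T : ℂ} (hT : Tendsto (fun δ : ℝ => GG Ω δ 1) (𝓝[>] 0) (𝓝 T)) {n : RR} (hn0 : n ≠ 0)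
    (hn : IsCoprime fR n) (hNn : fR * n ∣ N) {φ : RR → ℂ} (hφ : Pe n φ)
    (hm : ∀ x, φ (x * fR) = φ fR * φ x) :
    Bd Ω (Wm L Ω m) (fR * n) (fun x => φ x * e7 x) = φ fR * e7 n * (2 * Bg L Ω T n φ) := by
  have hfn0 : fR * n ≠ 0 := mul_ne_zero fR_ne hn0
  have f1 := fin_quot hn0
  have f3 := fin_quot hfn0
  let _ : Fintype (RR ⧸ sp n) := Fintype.ofFinite _
  let _ : Fintype (RR ⧸ sp (fR * n)) := Fintype.ofFinite _
  have hf0 := coe_ne fR_ne
  have hn0' := coe_ne hn0
  have hper : Pe (fR * n) (fun x => φ x * e7 x) :=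
    (hφ.mono (Dvd.intro_left _ rfl)).mul (fun x y h =>
      e7_per ((Ideal.span_singleton_le_span_singleton.2 (Dvd.intro _ rfl)) h))
  have hterm : ∀ x y : RR, x - y ∈ sp (fR * n) →
      φ x * e7 x * Wm L Ω m (Ω * x / ((fR * n : RR) : ℂ)) =
      φ y * e7 y * Wm L Ω m (Ω * y / ((fR * n : RR) : ℂ)) := by
    intro x y h
    have h1 : φ x * e7 x = φ y * e7 y := hper x y h
    rw [h1]
    congr 1
    apply Wm_per hL
    have h1 := (div_mem_iff hL hfn0 (x - y)).2 h
    convert h1 using 1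
    push_cast
    ring
  rw [Bd_eq, sum_rep _ (bij_crt hn) (fun x : RR => φ x * e7 x *
    Wm L Ω m (Ω * x / ((fR * n : RR) : ℂ))) hterm, Fintype.sum_prod_type, Bg_eq, Finset.mul_sum,
    Finset.mul_sum]
  refine Finset.sum_congr rfl fun x _ => ?_
  have hG := Wm_G hN hL hT hn0 hn hNn x.out
  have e0 : φ fR * e7 n * (2 * (φ x.out * Gv L Ω T (Ω * x.out / (n : ℂ)))) =
      φ fR * e7 n * φ x.out * (2 * Gv L Ω T (Ω * x.out / (n : ℂ))) := by ring
  rw [e0, hG, Finset.mul_sum]
  refine Finset.sum_congr rfl fun y _ => ?_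
  have h1 : φ (x.out * fR + y.out * n) = φ fR * φ x.out := by
    rw [← hm]
    apply hφ
    rw [add_sub_cancel_left, Ideal.mem_span_singleton']
    exact ⟨y.out, rfl⟩
  have h2 : e7 (x.out * fR + y.out * n) = e7 n * e7 y.out := by
    rw [← e7_mul]
    apply e7_per
    rw [Ideal.mem_span_singleton']
    exact ⟨x.out, by ring⟩
  have e1 : Ω * ((x.out * fR + y.out * n : RR) : ℂ) / ((fR * n : RR) : ℂ) =
      Ω * y.out / fR + Ω * x.out / n := by
    push_cast
    field_simp
    ring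
  rw [h1, h2, e1]
  ring

/-! ### the family with `√-7` -/

/-- the family with `-√-7` -/
noncomputable def pe {ι : Type} (π : ι → RR) : Option ι → RR
  | none => -fR
  | some i => π i

/-- the set with the index of `-√-7` -/
def se {ι : Type} (S : Finset ι) : Finset (Option ι) := Finset.insertNone S

lemma se_prod {ι : Type} (S : Finset ι) (f : Option ι → RR) :
    ∏ i ∈ se S, f i = f none * ∏ i ∈ S, f (some i) := by
  unfold se
  exact Finset.prod_insertNone f S

lemma se_prodC {ι : Type} (S : Finset ι) (f : Option ι → ℂ) :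
    ∏ i ∈ se S, f i = f none * ∏ i ∈ S, f (some i) := by
  unfold se
  exact Finset.prod_insertNone f S

lemma se_card {ι : Type} (S : Finset ι) : (se S).card = S.card + 1 := by
  unfold se
  exact Finset.card_insertNone S

lemma fa_se {ι : Type} {S : Finset ι} {π : ι → RR} (hS : Fa S π)
    (h7 : ∀ i ∈ S, π i ∉ sp fR) (h7' : ∀ i ∈ S, fR ∉ sp (π i)) : Fa (se S) (pe π) := by
  constructor
  · rintro (_ | i) hi
    · exact pn_fR
    · exact hS.pn i (by unfold se at hi; rw [Finset.mem_insertNone] at hi; exact hi i rfl)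
  · have hmem : ∀ i, some i ∈ se S → i ∈ S := by
      intro i hi
      unfold se at hi
      rw [Finset.mem_insertNone] at hi
      exact hi i rfl
    rintro (_ | i) hi (_ | j) hj hij
    · exact absurd rfl hij
    · show -fR ∉ sp (π j)
      rw [neg_mem_iff]
      exact h7' j (hmem j hj)
    · show π i ∉ sp (-fR)
      rw [show sp (-fR) = sp fR from Ideal.span_singleton_neg fR]
      exact h7 i (hmem i hi)
    · exact hS.ne i (hmem i hi) j (hmem j hj) (fun h => hij (by rw [h]))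

lemma tp_fR : tp (-fR) = 1 := (p3_fR.negp).tp

/-- **the central values** -/
theorem valX {ι : Type} [DecidableEq ι] {S : Finset ι} {π : ι → RR} (hS : FaE S π)
    (h7 : ∀ i ∈ S, π i ∉ sp fR) (hJ : ∃ u : RR, ∏ i ∈ S, π i = 1 + 4 * u) :
    ∃ F : ℂ → ℂ, Differentiable ℂ F ∧
    (∀ z : ℂ, 3 / 2 < z.re → HasSum (fun I : Ideal RR =>
      psi I * (∏ i ∈ S, Xs (π i) I) * (nm I : ℂ) ^ (-z)) (F z)) ∧
    ∀ (Γ : Type) [LinearOrderedCommGroupWithZero Γ] (v : Valuation ℂ Γ) (L : PeriodPair) (Ω : ℂ),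
      LD L Ω → v al < 1 →
      (Pool.Agent.Y286.SG.gd (mt (pe π)) (mr (pe π)) (se S) ≠ 0 →
        v 2 * v ((starRingEnd ℂ) (F 1) / Ω) = v 2 ^ S.card) ∧
      (Pool.Agent.Y286.SG.gd (mt (pe π)) (mr (pe π)) (se S) = 0 →
        v 2 * v ((starRingEnd ℂ) (F 1) / Ω) < v 2 ^ S.card) := by
  classical
  rcases S.eq_empty_or_nonempty with rfl | hne
  · obtain ⟨F, g1, g2, g3, g4⟩ := val_triv
    refine ⟨F, g1, fun z hz => ?_, fun Γ _ v L Ω hL hv => ⟨fun _ => ?_, fun h0 => ?_⟩⟩
    · simpa using g2 z hz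
    · rw [Finset.card_empty, pow_zero]
      exact g4 Γ v L Ω hL hv
    · exfalso
      have h1 := rec_tree (mt (pe π)) (mr (pe π)) (se (∅ : Finset ι))
      have e : se (∅ : Finset ι) = {none} := by
        unfold se
        rfl
      rw [e] at h0 h1
      have e2 : ({none} : Finset (Option ι)).powerset = {∅, {none}} := by
        rfl
      rw [e2, Finset.sum_pair (Finset.singleton_ne_empty _).symm] at h1
      simp only [Finset.sdiff_self, Finset.prod_empty, h0, zero_mul, add_zero, Finset.sdiff_empty,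
        Finset.prod_singleton, Finset.sum_empty, mul_zero] at h1
      have h2 : mt (pe π) none = 1 := tp_fR
      rw [h2] at h1
      exact zero_ne_one h1
  · have h7' : ∀ i ∈ S, fR ∉ sp (π i) := by
      intro i hi h1
      apply h7 i hi
      rw [Ideal.mem_span_singleton] at h1 ⊢
      exact ((hS.fa.pn i hi).pr.irreducible.associated_of_dvd R426.QC.prime_fR.irreducible h1).symm.dvd
    have hHC := prod_XsX hS hne
    have hcop : IsCoprime fR (∏ i ∈ S, π i) := by
      refine IsCoprime.prod_right fun i hi => ?_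
      refine (R426.QC.prime_fR.irreducible.coprime_iff_not_dvd).2 fun h1 => h7 i hi ?_
      rw [Ideal.mem_span_singleton]
      exact h1
    have hgo : Go (∏ i ∈ S, π i) := ⟨⟨hS.fa.prod_ne, hcop⟩, hJ⟩
    obtain ⟨i0, hi0⟩ := hne
    have htop : sp (∏ i ∈ S, π i) ≠ ⊤ := by
      intro h
      rw [Ideal.span_singleton_eq_top] at h
      exact (hS.fa.pn i0 hi0).pr.not_isUnit
        (isUnit_of_dvd_unit (Finset.dvd_prod_of_mem π hi0) h)
    have hsgn7 : ∏ i ∈ S, sy (π i) fR = 1 ∨ ∏ i ∈ S, sy (π i) fR = -1 :=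
      (sgn_prod (s := S) (f := fun i => sy (π i) fR) fun i hi => sy_sgn (h7' i hi)).1
    obtain ⟨F, g1, g2, g3⟩ := val_gn hgo htop hHC (φ := fun m => ∏ i ∈ S, sy (π i) m)
      (by
        intro g
        rw [map_prod]
        rw [Finset.prod_congr rfl fun i _ => Xs_ev (π i) (sp g)]
        exact hS.xs g) two_pos
      (by
        show (∏ i ∈ S, sy (π i) fR) ^ 2 = 1
        rcases hsgn7 with h | h <;> rw [h] <;> norm_num)
    have := fin_quot fR_ne
    let _ : Fintype (RR ⧸ sp fR) := Fintype.ofFinite _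
    obtain ⟨F0, -, -, k3⟩ := val_one
    refine ⟨F, g1, g2, fun Γ _ v L Ω h hv => ?_⟩
    have hL := h.lat
    have hT := k3 L Ω hL
    rw [g3 Γ v L Ω h hv _ hT]
    have t2 := v_two_lt hv
    set n := ∏ i ∈ S, π i with hn
    have hfa := fa_se hS.fa h7 h7'
    have hN0 : fR * n ≠ 0 := mul_ne_zero fR_ne hS.fa.prod_ne
    have hpr : ∏ i ∈ se S, pe π i = -(fR * n) := by
      rw [se_prod]
      show -fR * ∏ i ∈ S, π i = _
      rw [neg_mul]
    have hcb : IsCoprime Pool.Agent.Y698.bR (fR * n) := by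
      have h1 : IsCoprime Pool.Agent.Y698.bR (∏ i ∈ se S, pe π i) :=
        IsCoprime.prod_right fun i hi => cop_bR (hfa.pn i hi)
      rw [hpr] at h1
      exact (IsCoprime.neg_right_iff _ _).1 h1
    obtain ⟨m, hm⟩ := exists_Lv hN0 hcb
    have hvN : v ((fR * n : RR) : ℂ) = 1 := by
      have h1 : v ((∏ i ∈ se S, pe π i : RR) : ℂ) = 1 := by
        rw [SubmonoidClass.coe_finsetProd, map_prod]
        exact Finset.prod_eq_one fun i hi => v_pn hv (hfa.pn i hi)
      rw [hpr] at h1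
      push_cast at h1 ⊢
      rwa [Valuation.map_neg] at h1
    have hW : Ds L Ω (fR * n) (fun c : RR => (c : ℂ)) (Wm L Ω m) :=
      ⟨fun z w hz => Wm_per hL hz, fun c hc0 hcN _ z hz => Wm_dist hm hL hc0 hcN hz⟩
    have hW1 : ∀ z, ((fR * n : RR) : ℂ) * z ∈ L.lattice → z ∉ L.lattice →
        Rd v (Wm L Ω m z) 1 := fun z hz hz0 => Wm_one hm h hv hvN hz hz0
    have hnese : (se S).Nonempty := ⟨none, by unfold se; exact Finset.none_mem_insertNone⟩
    have h5 := v_Bd hv hW hL Wm_neg hW1 hfa (by rw [hpr, neg_dvd]) hnese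
    have h6 : v (Bd Ω (Wm L Ω m) (∏ i ∈ se S, pe π i) (fun x => ∏ i ∈ se S, sy (pe π i) x)) =
        v 2 * v (Bg L Ω (2 * (starRingEnd ℂ) (F0 1) * fR / Ω) n
          (fun m => ∏ i ∈ S, sy (π i) m)) := by
      have e1 : (fun x => ∏ i ∈ se S, sy (pe π i) x) =
          fun x => (∏ i ∈ S, sy (π i) x) * e7 x := by
        funext x
        rw [se_prodC]
        show sy (-fR) x * ∏ i ∈ S, sy (π i) x = _
        rw [sy_negm, sy_fR, mul_comm]
      rw [hpr, Bd_neg Wm_neg _ hN0, e1,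
        Bg_Bd hm hL hT hS.fa.prod_ne hcop dvd_rfl (Pe.prod fun i _ => sy_per (π i))
          (fun x => by rw [mul_comm, hS.mul]), Valuation.map_neg, map_mul, map_mul, map_mul]
      have e3 : v (∏ i ∈ S, sy (π i) fR) = 1 := by
        rcases hsgn7 with h' | h' <;> rw [h']
        · exact map_one v
        · rw [Valuation.map_neg, map_one]
      have e4 : v (e7 n) = 1 := val_root v two_pos (e7_sq (not_mem_of_cop hcop))
      rw [e3, e4, one_mul, one_mul]
    have h20 : v 2 ≠ 0 := (Valuation.ne_zero_iff v).2 two_ne_zero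
    rw [h6, se_card] at h5
    constructor
    · intro hg
      have h8 := h5.1 hg
      rw [pow_succ, mul_comm] at h8
      exact mul_right_cancel₀ h20 h8
    · intro hg
      have h8 := h5.2 hg
      rw [pow_succ, mul_comm] at h8
      exact lt_of_mul_lt_mul_right h8 zero_le

end Pool.Agent.H463.QE
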